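import Pool.Agent.Lib.MP_5d4057_al.Hyb.Arith
import Pool.Agent.Lib.MP_5d4057_al.Hyb.Top

/-!
# CI M4: the traces of an arithmetic group are algebraic integers
-/

set_option autoImplicit false

namespace Pool.Agent.Lib.MP_5d4057_al.CI

open Matrix Polynomial Pool.Agent.Lib.MP_5d4057_al Pool.Agent.Lib.MP_5d4057_al.Hyb

/-- The elements of a finitely generated subring are integral. -/
theorem integral_of_fg {R : Type} [Ring R] {O : Subring R} (h : O.toAddSubgroup.FG) {x : R}
    (hx : x ∈ O) : IsIntegral ℤ x := by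
  refine IsIntegral.of_mem_of_fg (subalgebraOfSubring O) ?_ x hx
  rw [Submodule.fg_iff_addSubgroup_fg]
  exact h

/-- The trace of an integral matrix is integral. -/
theorem integral_trace {m : ℕ} {A : Matrix (Fin m) (Fin m) ℂ} (h : IsIntegral ℤ A) :
    IsIntegral ℤ A.trace := by
  rw [Matrix.trace_eq_sum_roots_charpoly]
  refine IsIntegral.multiset_sum fun z hz => ?_
  obtain ⟨p, hp, hpA⟩ := h
  refine ⟨p, hp, ?_⟩
  have h1 : A.charpoly.IsRoot z := (Polynomial.mem_roots'.1 hz).2
  have h2 : (Matrix.scalar (Fin m) z - A).det = 0 := by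
    rw [Polynomial.IsRoot, Matrix.eval_charpoly] at h1
    exact h1
  obtain ⟨v, hv, hAv⟩ := Matrix.exists_mulVec_eq_zero_iff.2 h2
  have h3 : A *ᵥ v = z • v := by
    rw [sub_mulVec, Matrix.scalar_apply, sub_eq_zero] at hAv
    rw [← hAv]
    ext i
    simp [Matrix.mulVec_diagonal]
  have h4 : ∀ r : ℤ[X], (Polynomial.aeval A r) *ᵥ v = (Polynomial.aeval z r) • v := by
    intro r
    induction r using Polynomial.induction_on' with
    | add r s hr hs => rw [map_add, map_add, add_mulVec, hr, hs, add_smul]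
    | monomial i c =>
      have h5 : (A ^ i) *ᵥ v = z ^ i • v := by
        induction i with
        | zero => rw [pow_zero, pow_zero, one_mulVec, one_smul]
        | succ i ih => rw [pow_succ', ← mulVec_mulVec, ih, mulVec_smul, h3, smul_smul, pow_succ]
      rw [Polynomial.aeval_monomial, Polynomial.aeval_monomial, ← mulVec_mulVec, h5,
        Matrix.algebraMap_eq_diagonal]
      ext l
      simp [Matrix.mulVec_diagonal]
      ring
  have h5 := h4 p
  have h6 : Polynomial.aeval A p = 0 := hpA
  rw [h6, zero_mulVec] at h5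
  have h7 := (smul_eq_zero.1 h5.symm).resolve_right hv
  exact h7

/-- **The traces of an arithmetic group are algebraic integers.** -/
theorem int_of_arith {m : ℕ} {G : Subgroup (SUGroup m)} (h : IsArith m G) {x : SUGroup m}
    (hx : x ∈ G) : IsIntegral ℤ x.toMatrix.trace := by
  obtain ⟨K, A, O, -, hO, hc⟩ := h
  obtain ⟨M, hM⟩ : ∃ M : ℕ, M = ((unitPoints m O).relIndex G).factorial := ⟨_, rfl⟩
  have hM0 : 0 < M := by
    rw [hM]
    exact Nat.factorial_pos _
  have h1 := Subgroup.pow_mem_of_relIndex_ne_zero_of_dvd hc.2 hx (n := M)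
    (fun m hm hle => by
      rw [hM]
      exact Nat.dvd_factorial hm hle)
  have hpow : ∀ N : ℕ, (x ^ N).toMatrix = x.toMatrix ^ N := by
    intro N
    induction N with
    | zero => rw [pow_zero, pow_zero, toMatrix_one]
    | succ N ih => rw [pow_succ, pow_succ, toMatrix_mul, ih]
  refine integral_trace (IsIntegral.of_pow hM0 ?_)
  rw [← hpow]
  exact integral_of_fg hO.fg h1.1.1

end Pool.Agent.Lib.MP_5d4057_al.CI
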