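import Pool.Agent.Lib.MP_5d4057_al.RG.FixL
import Pool.Agent.Lib.MP_5d4057_al.TW.Pos
import Pool.Agent.Lib.MP_5d4057_al.CF.AmalC

/-!
# CI M1: the hyperplanes meet
-/

set_option autoImplicit false

namespace Pool.Agent.Lib.MP_5d4057_al.CI

open Matrix Filter Topology Pool.Agent.Lib.MP_5d4057_al Pool.Agent.Lib.MP_5d4057_al.Hyb
  Pool.Agent.Lib.MP_5d4057_al.HM Pool.Agent.Lib.MP_5d4057_al.RC Pool.Agent.Lib.MP_5d4057_al.NU
  Pool.Agent.Lib.MP_5d4057_al.CF

open scoped ComplexOrder MatrixOrder Matrix.Norms.L2Operator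

variable {k : ℕ}

/-- An element of a discrete group which preserves a negative line has finite order. -/
theorem fin_of_line_neg {n : ℕ} {Γ : Subgroup (SUGroup n)} (hd : DiscreteTopology Γ)
    {γ : SUGroup n} (hγ : γ ∈ Γ) {v : Vec n} (hv : v ∈ Cone n) {c : ℂ} (h : act γ v = c • v) :
    IsOfFinOrder γ := by
  obtain ⟨g, c0, hc0, rfl⟩ := exists_act_eq hv
  have h1 : act γ (act g (base n)) = c • act g (base n) := by
    have h' := h
    rw [act_smul, smul_comm] at h'
    exact smul_right_injective _ hc0 h'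
  have hc : ‖c‖ = 1 := by
    have h2 := congrArg (fun v : Vec n => q v) h1
    simp only [q_act, q_smul] at h2
    have h3 : q (base n) ≠ 0 := by
      rw [q_base]
      norm_num
    have h4 : ‖c‖ ^ 2 = 1 := by
      have h5 : (‖c‖ ^ 2 - 1) * q (base n) = 0 := by linarith
      rcases mul_eq_zero.1 h5 with h6 | h6
      · linarith
      · exact absurd h6 h3
    nlinarith [norm_nonneg c]
  obtain ⟨x, hx⟩ : ∃ x, x = g⁻¹ * γ * g := ⟨_, rfl⟩
  have h2 : act x (base n) = c • base n := by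
    rw [hx, act_mul, act_mul, h1, act_smul, ← act_mul, inv_mul_cancel, act_one]
  have h3 : ∀ k : ℕ, act (x ^ k) (base n) = c ^ k • base n := by
    intro k
    induction k with
    | zero => rw [pow_zero, act_one, pow_zero, one_smul]
    | succ k ih => rw [pow_succ', act_mul, ih, act_smul, h2, smul_smul, pow_succ]
  have h6 : ∀ k : ℕ, ch (x ^ k) ≤ 1 := by
    intro k
    have h' : (x ^ k).toMatrix (Fin.last n) (Fin.last n) = act (x ^ k) (base n) (Fin.last n) := by
      rw [act, base, mulVec_single_one]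
      rfl
    rw [ch, h', h3, base, Pi.smul_apply, Pi.single_eq_same, smul_eq_mul, mul_one, norm_pow, hc,
      one_pow]
  -- the powers lie in a finite set
  have h7 : IsCompact ((fun y : SUGroup n => g * y * g⁻¹) '' {y | ch y ≤ 1}) :=
    (isCompact_ball 1).image (by fun_prop)
  have hcl : IsClosed (Γ : Set (SUGroup n)) := Subgroup.isClosed_of_discrete
  have h8 : ((Γ : Set (SUGroup n)) ∩
      ((fun y : SUGroup n => g * y * g⁻¹) '' {y | ch y ≤ 1})).Finite := by
    refine (h7.inter_left hcl).finite ?_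
    exact ⟨DiscreteTopology.of_subset hd Set.inter_subset_left⟩
  have h9 : ∀ k : ℕ, γ ^ k ∈ (Γ : Set (SUGroup n)) ∩
      ((fun y : SUGroup n => g * y * g⁻¹) '' {y | ch y ≤ 1}) := by
    intro k
    refine ⟨Γ.pow_mem hγ k, x ^ k, h6 k, ?_⟩
    have h' : x ^ k = g⁻¹ * γ ^ k * g := by
      rw [hx]
      have e := conj_pow (i := k) (a := g⁻¹) (b := γ)
      rwa [inv_inv] at e
    show g * x ^ k * g⁻¹ = γ ^ k
    rw [h']
    group
  obtain ⟨a, -, b, -, hab, he⟩ := Set.infinite_univ.exists_ne_map_eq_of_mapsTo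
    (f := fun k : ℕ => γ ^ k) (fun k _ => h9 k) h8
  have key : ∀ a b : ℕ, a < b → γ ^ a = γ ^ b → IsOfFinOrder γ := by
    intro a b hab he
    rw [isOfFinOrder_iff_pow_eq_one]
    refine ⟨b - a, by omega, ?_⟩
    rw [pow_sub _ hab.le, ← he, mul_inv_cancel]
  rcases lt_or_gt_of_ne hab with h' | h'
  · exact key a b h' he
  · exact key b a h' he.symm

/-- PROOF: as `TW.herm_lt_one_fix`. If `|herm n₀ n₁| ≥ 1`, `n₁` and `n₀` not proportional, then `herm n₀ n₁ ≠ 0`, so every
`φ γ` acts on both by the same unitary scalar, hence by scalars on the plane, and preserves the line of `p = n₁ - herm n₀ n₁ n₀`,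
`q p = 1 - |herm n₀ n₁|² ≤ 0`. If `q p < 0`: the elements of `G` which preserve a negative line have finite order (they fix a point of the
ball: compare `GX.fin_of_fix_neg`), against `GX.exists_not_fin`. If `q p = 0`: `RG.fix_line` and `GX.not_nilp`. Then `CF.meet_of_lt`. -/
theorem meet_tw (hk : 1 ≤ k) {Γ₃ : Subgroup (SUGroup k)} (h₃ : IsLattice Γ₃)
    {G : Subgroup (SUGroup (k + 2))} (hlat : IsLattice G) (hf : FGG G)
    (φ : Γ₃ →* SUGroup (k + 2)) (hφ : Function.Injective φ) (hmem : ∀ γ, φ γ ∈ G)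
    {g : Fin 2 → SUGroup (k + 2)}
    (hline : ∀ b, ∀ γ, ∃ c : ℂ, act (φ γ) (act (g b) (GX.e0 (k + 1))) =
      c • act (g b) (GX.e0 (k + 1)))
    (hne : ∀ ζ : ℂ, act (g 1) (GX.e0 (k + 1)) ≠ ζ • act (g 0) (GX.e0 (k + 1))) :
    Meet (g 0) (g 1) := by
  apply meet_of_lt
  by_contra hcon
  push Not at hcon
  obtain ⟨n0, hn0⟩ : ∃ n0, n0 = act (g 0) (GX.e0 (k + 1)) := ⟨_, rfl⟩
  obtain ⟨n1, hn1⟩ : ∃ n1, n1 = act (g 1) (GX.e0 (k + 1)) := ⟨_, rfl⟩
  have hl0 := hline 0
  have hl1 := hline 1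
  rw [← hn0, ← hn1] at hcon hne
  rw [← hn0] at hl0
  rw [← hn1] at hl1
  obtain ⟨c, hc⟩ : ∃ c, c = herm n0 n1 := ⟨_, rfl⟩
  rw [← hc] at hcon
  have hq0 : herm n0 n0 = 1 := by rw [herm_self, hn0, q_act, GX.q_e0, Complex.ofReal_one]
  have hq1 : herm n1 n1 = 1 := by rw [herm_self, hn1, q_act, GX.q_e0, Complex.ofReal_one]
  have hc' : herm n1 n0 = star c := by rw [herm_comm, ← hc]
  have hc0 : c ≠ 0 := by
    intro h0
    rw [h0, norm_zero] at hcon
    linarith
  obtain ⟨p, hp⟩ : ∃ p, p = n1 + (-c) • n0 := ⟨_, rfl⟩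
  have hqp : herm p p = ((1 - ‖c‖ ^ 2 : ℝ) : ℂ) := by
    rw [hp, herm_add_right, herm_add_left, herm_smul_right, herm_add_left, herm_smul_left,
      herm_smul_left, hq0, hq1, ← hc, hc', star_neg]
    have hcc : star c * c = (‖c‖ : ℂ) ^ 2 := by
      rw [RCLike.star_def, Complex.conj_mul']
    push_cast
    rw [← hcc]
    ring
  have hqp' : q p = 1 - ‖c‖ ^ 2 := by
    have h2 := herm_self p
    rw [hqp] at h2
    exact_mod_cast h2.symm
  have hp0 : p ≠ 0 := by
    intro h2
    refine hne c ?_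
    rw [hp, neg_smul, ← sub_eq_add_neg, sub_eq_zero] at h2
    exact h2
  have hfix : ∀ γ, ∃ a : ℂ, act (φ γ) p = a • p := by
    intro γ
    obtain ⟨a, ha⟩ := hl0 γ
    obtain ⟨b, hb⟩ := hl1 γ
    have e0 : star a * a = 1 := by
      have h4 := herm_act (φ γ) n0 n0
      rw [ha, herm_smul_left, herm_smul_right, hq0, mul_one] at h4
      exact h4
    have e1 : star a * b = 1 := by
      have h4 := herm_act (φ γ) n0 n1
      rw [ha, hb, herm_smul_left, herm_smul_right, ← hc, ← mul_assoc] at h4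
      exact mul_right_cancel₀ hc0 (by rw [h4, one_mul])
    have ha0 : star a ≠ 0 := by
      intro h0
      rw [h0, zero_mul] at e0
      exact zero_ne_one e0
    have hab : b = a := mul_left_cancel₀ ha0 (by rw [e1, e0])
    refine ⟨a, ?_⟩
    rw [hp, act_add, act_smul, ha, hb, hab, smul_add, smul_comm]
  have hnot : ¬ ∀ γ : Γ₃, IsOfFinOrder (φ γ) := by
    intro hall
    obtain ⟨γ, hγ, hnf⟩ := GX.exists_not_fin hk h₃
    obtain ⟨N, hN, hN1⟩ := isOfFinOrder_iff_pow_eq_one.1 (hall ⟨γ, hγ⟩)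
    rw [← map_pow, ← map_one φ] at hN1
    refine hnf (isOfFinOrder_iff_pow_eq_one.2 ⟨N, hN, ?_⟩)
    exact congrArg Subtype.val (hφ hN1)
  rcases hcon.lt_or_eq with hlt | heq
  · refine hnot fun γ => ?_
    obtain ⟨a, ha⟩ := hfix γ
    refine fin_of_line_neg hlat.1 (hmem γ) (v := p) ?_ ha
    show q p < 0
    rw [hqp']
    nlinarith
  · have hq : q p = 0 := by
      rw [hqp', ← heq]
      norm_num
    obtain ⟨D', hD', hrel, hnil⟩ := RG.fix_line (by omega) hlat hf hp0 hq (D := φ.range) (by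
      rintro _ ⟨γ, rfl⟩
      exact hmem γ) (by
      rintro _ ⟨γ, rfl⟩
      exact hfix γ)
    refine GX.not_nilp hk h₃ (D := (D'.comap φ).map Γ₃.subtype) ?_ ?_ ?_
    · rintro _ ⟨γ, -, rfl⟩
      exact γ.2
    · rw [Subgroup.relIndex, Subgroup.subgroupOf,
        Subgroup.comap_map_eq_self_of_injective Γ₃.subtype_injective, Subgroup.index_comap]
      exact hrel
    · have hn1 : Group.IsNilpotent (D'.comap φ) := by
        have hnil' : Group.IsNilpotent D' := hnil
        refine Subgroup.isNilpotent_of_ker_le_center (φ.subgroupComap D') ?_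
        rw [(MonoidHom.ker_eq_bot_iff _).2]
        · exact bot_le
        · intro x y hxy
          exact Subtype.ext (hφ (congrArg Subtype.val hxy))
      exact Group.nilpotent_of_mulEquiv
        ((D'.comap φ).equivMapOfInjective Γ₃.subtype Γ₃.subtype_injective)

end Pool.Agent.Lib.MP_5d4057_al.CI
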