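import Pool.Agent.Lib.MP_5d4057_al.CI.FinC
import Pool.Agent.Lib.MP_5d4057_al.CI.Pos

/-!
# CI M3: the theorem for the amalgam: integral traces
-/

set_option autoImplicit false

namespace Pool.Agent.Lib.MP_5d4057_al.CI

open Matrix Filter Topology Pool.Agent.Lib.MP_5d4057_al Pool.Agent.Lib.MP_5d4057_al.Hyb
  Pool.Agent.Lib.MP_5d4057_al.HM Pool.Agent.Lib.MP_5d4057_al.RC Pool.Agent.Lib.MP_5d4057_al.NU
  Pool.Agent.Lib.MP_5d4057_al.CF

open scoped ComplexOrder MatrixOrder Matrix.Norms.L2Operator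

variable {k m : ℕ}

/-- A complex number of which a power has absolute value one. -/
theorem star_mul_of_pow {z : ℂ} {N : ℕ} (hN : N ≠ 0) (h : star (z ^ N) * z ^ N = 1) :
    star z * z = 1 := by
  have h1 : ‖z ^ N‖ ^ 2 = 1 := by
    have h2 : ((‖z ^ N‖ ^ 2 : ℝ) : ℂ) = 1 := by
      rw [← h, RCLike.star_def, Complex.conj_mul']
      push_cast
      rfl
    exact_mod_cast h2
  rw [norm_pow] at h1
  have h3 : ‖z‖ = 1 := by
    have h4 : ‖z‖ ^ (N * 2) = 1 := by rw [pow_mul, h1]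
    exact (pow_eq_one_iff_of_nonneg (norm_nonneg z) (by omega)).1 h4
  rw [RCLike.star_def, Complex.conj_mul', h3]
  norm_num

/-- An element which preserves the line of the normal vector. -/
theorem blk_of_line (hm : 1 ≤ m) {g x : SUGroup (m + 1)} {c : ℂ}
    (h : act x (act g (nrm m)) = c • act g (nrm m)) :
    ∃ (y : SUGroup m) (χ ψ : ℂ), (g⁻¹ * x * g).toMatrix = dsum χ (ψ • y.toMatrix) := by
  have h1 : act (g⁻¹ * x * g) (nrm m) = c • nrm m := by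
    have h2 : act (g⁻¹ * x * g) (nrm m) = act g⁻¹ (act x (act g (nrm m))) := by
      rw [← act_mul, ← act_mul]
    rw [h2, h, act_smul, act_inv_act]
  have hcol : ∀ i : Fin (m + 1), (g⁻¹ * x * g).toMatrix i.succ 0 = 0 := by
    intro i
    have h2 := congrFun h1 i.succ
    rw [nrm_eq_e0, act, GX.e0, mulVec_single_one, Pi.smul_apply,
      Pi.single_eq_of_ne (Fin.succ_ne_zero i), smul_zero] at h2
    exact h2
  obtain ⟨χ, Y, hY⟩ := blk_of_col hcol
  obtain ⟨-, hYf⟩ := blk_form hY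
  have hJ : (J m).det ≠ 0 := by
    have h2 : (J m).det * (J m).det = 1 := by rw [← det_mul, J_J, det_one]
    intro h0
    rw [h0, mul_zero] at h2
    exact zero_ne_one h2
  have hd : star Y.det * Y.det = 1 := by
    have h2 := congrArg Matrix.det hYf
    rw [det_mul, det_mul, det_conjTranspose] at h2
    have h3 : (star Y.det * Y.det - 1) * (J m).det = 0 := by
      linear_combination h2
    exact sub_eq_zero.1 ((mul_eq_zero.1 h3).resolve_right hJ)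
  obtain ⟨ψ, hψ⟩ : ∃ ψ : ℂ, ψ ^ (m + 1) = Y.det :=
    IsAlgClosed.exists_pow_nat_eq _ (by omega)
  have hψ1 : star ψ * ψ = 1 := star_mul_of_pow (N := m + 1) (by omega) (by rw [hψ]; exact hd)
  have hψ0 : ψ ≠ 0 := by
    rintro rfl
    simp at hψ1
  refine ⟨ofMatrix (ψ⁻¹ • Y) ?_ ?_, χ, ψ, ?_⟩
  · rw [det_smul, Fintype.card_fin, ← hψ, inv_pow, inv_mul_cancel₀ (pow_ne_zero _ hψ0)]
  · rw [conjTranspose_smul, Matrix.smul_mul, Matrix.smul_mul, Matrix.mul_smul, hYf, smul_smul,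
      star_inv₀, ← mul_inv, hψ1, inv_one, one_smul]
  · rw [hY, toMatrix_ofMatrix, smul_smul, mul_inv_cancel₀ hψ0, one_smul]

/-- A piece of conjugate type is a piece of standard type of the conjugate group. -/
theorem exists_twd {Γ : Subgroup (SUGroup m)} (hL : IsLattice Γ) (hA : IsArith m Γ)
    {ρ : Γ →* SUGroup (m + 1)} {g : SUGroup (m + 1)} (h : RG.Twd ρ g ∨ RG.Twc ρ g) :
    ∃ (Γ₁ : Subgroup (SUGroup m)) (ρ₁ : Γ₁ →* SUGroup (m + 1)), IsLattice Γ₁ ∧ IsArith m Γ₁ ∧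
      RG.Twd ρ₁ g ∧ ρ₁.range = ρ.range := by
  rcases h with h | h
  · exact ⟨Γ, ρ, hL, hA, h, rfl⟩
  · obtain ⟨e, he⟩ : ∃ e : Γ ≃* Γ.map (RG.cjSU m).toMonoidHom,
        e = Γ.equivMapOfInjective (RG.cjSU m).toMonoidHom (RG.cjSU m).injective := ⟨_, rfl⟩
    refine ⟨Γ.map (RG.cjSU m).toMonoidHom, ρ.comp e.symm.toMonoidHom, RG.isLattice_cj hL,
      RG.isArith_cj hA, ?_, ?_⟩
    · intro x
      obtain ⟨y, rfl⟩ := e.surjective x
      obtain ⟨χ, ψ, h1⟩ := h y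
      refine ⟨χ, ψ, ?_⟩
      have h2 : (ρ.comp e.symm.toMonoidHom) (e y) = ρ y := by
        show ρ (e.symm (e y)) = ρ y
        rw [MulEquiv.symm_apply_apply]
      have h3 : ((e y : Γ.map (RG.cjSU m).toMonoidHom) : SUGroup m).toMatrix =
          (y : SUGroup m).toMatrix.map cj := by
        rw [he]
        rfl
      rw [h2, h3, h1]
    · ext z
      constructor
      · rintro ⟨x, rfl⟩
        exact ⟨e.symm x, rfl⟩
      · rintro ⟨y, rfl⟩
        refine ⟨e y, ?_⟩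
        show ρ (e.symm (e y)) = ρ y
        rw [MulEquiv.symm_apply_apply]

/-- The image of a homomorphism from the amalgam is generated by the images of the factors. -/
private theorem mn_range {k n : ℕ} {Γ₃ : Subgroup (SUGroup k)}
    {Γ : Fin 2 → Subgroup (SUGroup (k + 1))} {ι : ∀ b, Γ₃ →* Γ b}
    (ρ : Monoid.PushoutI ι →* SUGroup n) :
    ρ.range = ⨆ b, (ρ.comp (Monoid.PushoutI.of b)).range := by
  apply le_antisymm
  · rintro _ ⟨w, rfl⟩
    induction w using Monoid.PushoutI.induction_on with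
    | of b x => exact Subgroup.mem_iSup_of_mem b ⟨x, rfl⟩
    | base x =>
      rw [← Monoid.PushoutI.of_apply_eq_base ι 0 x]
      exact Subgroup.mem_iSup_of_mem 0 ⟨ι 0 x, rfl⟩
    | mul x y hx hy =>
      rw [map_mul]
      exact Subgroup.mul_mem _ hx hy
  · refine iSup_le fun b => ?_
    rintro _ ⟨x, rfl⟩
    exact ⟨Monoid.PushoutI.of b x, rfl⟩

/-- **Two pieces with characters with values in the algebraic integers are, up to
commensurability, standard.** -/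
theorem comm_of_int (hk : 1 ≤ k) {G : Subgroup (SUGroup (k + 2))} (hlat : IsLattice G)
    (hf : FGG G) {Γ : Fin 2 → Subgroup (SUGroup (k + 1))} (hL : ∀ b, IsLattice (Γ b))
    (hA : ∀ b, IsArith (k + 1) (Γ b)) (ρ : ∀ b, Γ b →* SUGroup (k + 2))
    (hρ : ∀ b, (ρ b).range ≤ G) {g : Fin 2 → SUGroup (k + 2)}
    (hg : ∀ b, RG.Twd (ρ b) (g b) ∨ RG.Twc (ρ b) (g b))
    (hgen : G ≤ Subgroup.closure {x | x ∈ G ∧ ∃ b, ∃ c : ℂ,
      act x (act (g b) (nrm (k + 1))) = c • act (g b) (nrm (k + 1))})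
    (hm : (∀ ζ : ℂ, act (g 1) (nrm (k + 1)) ≠ ζ • act (g 0) (nrm (k + 1))) → Meet (g 0) (g 1))
    (hχ : ∀ b, ∀ x ∈ (ρ b).range, ∀ c : ℂ, act x (act (g b) (nrm (k + 1))) =
      c • act (g b) (nrm (k + 1)) → IsIntegral ℤ c) (b : Fin 2) : ∃ Λ : Subgroup (SUGroup (k + 1)), IsLattice Λ ∧ IsArith (k + 1) Λ ∧
      Subgroup.Commensurable (Λ.map (emb (g b))) (ρ b).range := by
  choose Γ₁ ρ₁ hL₁ hA₁ hg₁ hr using fun b => exists_twd (hL b) (hA b) (hg b)
  have hne : ∀ ζ : ℂ, act (g 1) (nrm (k + 1)) ≠ ζ • act (g 0) (nrm (k + 1)) := by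
    refine TW.not_prop_line hlat (n := fun b => act (g b) (nrm (k + 1))) (fun b => ?_) ?_
    · show q (act (g b) (nrm (k + 1))) = 1
      rw [q_act, nrm_eq_e0, GX.q_e0]
    · refine hgen.trans (Subgroup.closure_mono ?_)
      rintro x ⟨-, b, c, hc⟩
      exact ⟨b, c, hc⟩
  have hgen' : G ≤ Subgroup.closure (⋃ b, StabH G (g b)) := by
    refine hgen.trans (Subgroup.closure_mono ?_)
    rintro x ⟨hx, b, c, hc⟩
    exact Set.mem_iUnion.2 ⟨b, hx, blk_of_line (by omega) hc⟩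
  have h1 := finCh_of_pow (by omega) (hL₁ b) (hg₁ b)
    (fin_char_of hk hlat hf hL₁ hA₁ ρ₁ (fun b x => hρ b (by rw [← hr b]; exact ⟨x, rfl⟩)) hg₁
      hgen' (hm hne) hne (fun b x => hχ b _ (by rw [← hr b]; exact ⟨x, rfl⟩)) b)
  have h2 := RG.comm_of_twd (hL₁ b) (hA₁ b) (hg₁ b) h1
  rwa [hr b] at h2

section amal

variable {Γ₃ : Subgroup (SUGroup k)} {Γ : Fin 2 → Subgroup (SUGroup (k + 1))}
  {ι : ∀ b, Γ₃ →* Γ b} {ρ : Monoid.PushoutI ι →* SUGroup (k + 2)}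
  {Γ' : Fin 2 → Subgroup (SUGroup (k + 1))} {hle : ∀ b, Γ' b ≤ Γ b}
  {g : Fin 2 → SUGroup (k + 2)}

/-- The factors preserve the lines of the normal vectors. -/
theorem line_inv (hN : ∀ b, ((Γ' b).subgroupOf (Γ b)).Normal)
    (hL : ∀ b, IsLattice (Γ' b)) (hA : ∀ b, IsArith (k + 1) (Γ' b))
    (hg : ∀ b, RG.Twd ((ρ.comp (Monoid.PushoutI.of (φ := ι) b)).comp
        (Subgroup.inclusion (hle b))) (g b) ∨
      RG.Twc ((ρ.comp (Monoid.PushoutI.of (φ := ι) b)).comp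
        (Subgroup.inclusion (hle b))) (g b)) (b : Fin 2) (γ : Γ b) :
    ∃ c : ℂ, act (ρ (Monoid.PushoutI.of b γ)) (act (g b) (nrm (k + 1))) =
      c • act (g b) (nrm (k + 1)) := by
  obtain ⟨ρ', hρ'⟩ : ∃ ρ' : ∀ b, Γ' b →* SUGroup (k + 2), ρ' = fun b =>
      (ρ.comp (Monoid.PushoutI.of (φ := ι) b)).comp (Subgroup.inclusion (hle b)) := ⟨_, rfl⟩
  have hρ'b : ∀ b x, ρ' b x =
      ρ (Monoid.PushoutI.of b (Subgroup.inclusion (hle b) x)) := fun b x => by rw [hρ']; rfl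
  have hg' : ∀ b, RG.Twd (ρ' b) (g b) ∨ RG.Twc (ρ' b) (g b) := fun b => by
    rw [hρ']
    exact hg b
  choose Γ₁ ρ₁ hL₁ hA₁ hg₁ hr using fun b => exists_twd (hL b) (hA b) (hg' b)
  refine line_unique (by omega) (hL₁ b) (hg₁ b) fun x => ?_
  obtain ⟨y, hy⟩ : ∃ y : Γ' b, ρ' b y = ρ₁ b x := by
    have h1 : ρ₁ b x ∈ (ρ' b).range := by
      rw [← hr b]
      exact ⟨x, rfl⟩
    exact h1
  have h3 : γ⁻¹ * Subgroup.inclusion (hle b) y * γ ∈ (Γ' b).subgroupOf (Γ b) := by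
    have h4 := (hN b).conj_mem (Subgroup.inclusion (hle b) y) (by
      rw [Subgroup.mem_subgroupOf]
      exact y.2) γ⁻¹
    rwa [inv_inv] at h4
  rw [Subgroup.mem_subgroupOf] at h3
  obtain ⟨x', hx'⟩ : ∃ x' : Γ₁ b, ρ₁ b x' = ρ' b ⟨_, h3⟩ := by
    have h1 : ρ' b ⟨_, h3⟩ ∈ (ρ₁ b).range := by
      rw [hr b]
      exact ⟨_, rfl⟩
    exact h1
  obtain ⟨χ, ψ, h4⟩ := hg₁ b x'
  have h5 := act_nrm_tw h4
  refine ⟨χ, ?_⟩
  have h6 : ρ₁ b x * ρ (Monoid.PushoutI.of b γ) =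
      ρ (Monoid.PushoutI.of b γ) * ρ₁ b x' := by
    rw [hx', ← hy, hρ'b, hρ'b, ← map_mul, ← map_mul, ← map_mul, ← map_mul]
    congr 2
    have h7 : (Subgroup.inclusion (hle b) ⟨_, h3⟩ : Γ b) =
        γ⁻¹ * Subgroup.inclusion (hle b) y * γ := rfl
    rw [h7]
    group
  rw [← act_mul, h6, act_mul, h5, act_smul]

end amal

/-- **The amalgam, both factors standard up to arbitrary characters (or conjugate) on normal
subgroups of finite index: if the values of the characters are algebraic integers, the image is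
arithmetic.** -/
theorem amalgam_int_of (k : ℕ) (hk : 1 ≤ k) (Γ₃ : Subgroup (SUGroup k))
    (Γ : Fin 2 → Subgroup (SUGroup (k + 1))) (h₃ : IsLattice Γ₃) (ι : ∀ b, Γ₃ →* Γ b)
    (hι : ∀ b, Function.Injective (ι b)) (ρ : Monoid.PushoutI ι →* SUGroup (k + 2))
    (hinj : ∀ b, Function.Injective (ρ.comp (Monoid.PushoutI.of b)))
    (Γ' : Fin 2 → Subgroup (SUGroup (k + 1))) (hle : ∀ b, Γ' b ≤ Γ b)
    (hfi : ∀ b, (Γ' b).relIndex (Γ b) ≠ 0) (hN : ∀ b, ((Γ' b).subgroupOf (Γ b)).Normal)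
    (hL : ∀ b, IsLattice (Γ' b)) (hA : ∀ b, IsArith (k + 1) (Γ' b))
    (g : Fin 2 → SUGroup (k + 2))
    (hg : ∀ b, RG.Twd ((ρ.comp (Monoid.PushoutI.of (φ := ι) b)).comp
        (Subgroup.inclusion (hle b))) (g b) ∨
      RG.Twc ((ρ.comp (Monoid.PushoutI.of (φ := ι) b)).comp
        (Subgroup.inclusion (hle b))) (g b))
    (hlat : IsLattice ρ.range) (hf : FGG ρ.range)
    (hχ : ∀ b, ∀ x : Γ' b, ∀ c : ℂ, act (ρ (Monoid.PushoutI.of b (Subgroup.inclusion (hle b) x)))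
      (act (g b) (nrm (k + 1))) = c • act (g b) (nrm (k + 1)) → IsIntegral ℤ c) :
    IsArith (k + 2) ρ.range := by
  obtain ⟨ρ', hρ'⟩ : ∃ ρ' : ∀ b, Γ' b →* SUGroup (k + 2), ρ' = fun b =>
      (ρ.comp (Monoid.PushoutI.of (φ := ι) b)).comp (Subgroup.inclusion (hle b)) := ⟨_, rfl⟩
  have hρ'b : ∀ b x, ρ' b x =
      ρ (Monoid.PushoutI.of b (Subgroup.inclusion (hle b) x)) := fun b x => by rw [hρ']; rfl
  have hg' : ∀ b, RG.Twd (ρ' b) (g b) ∨ RG.Twc (ρ' b) (g b) := fun b => by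
    rw [hρ']
    exact hg b
  -- the factors preserve the lines
  have hline := line_inv hN hL hA hg
  have hG := mn_range ρ
  have hgen : ρ.range ≤ Subgroup.closure {x | x ∈ ρ.range ∧ ∃ b, ∃ c : ℂ,
      act x (act (g b) (nrm (k + 1))) = c • act (g b) (nrm (k + 1))} := by
    conv_lhs => rw [hG]
    refine iSup_le fun b => ?_
    rintro _ ⟨γ, rfl⟩
    exact Subgroup.subset_closure ⟨⟨_, rfl⟩, b, hline b γ⟩
  have hmeet : (∀ ζ : ℂ, act (g 1) (nrm (k + 1)) ≠ ζ • act (g 0) (nrm (k + 1))) →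
      Meet (g 0) (g 1) := by
    intro hne
    obtain ⟨φ, hφ⟩ : ∃ φ : Γ₃ →* SUGroup (k + 2), φ = ρ.comp (Monoid.PushoutI.base ι) := ⟨_, rfl⟩
    have hφb : ∀ b x, φ x = ρ (Monoid.PushoutI.of b (ι b x)) := fun b x => by
      rw [hφ, Monoid.PushoutI.of_apply_eq_base]
      rfl
    refine meet_tw hk h₃ hlat hf φ ?_ ?_ ?_ ?_
    · intro x y hxy
      rw [hφb 0, hφb 0] at hxy
      exact hι 0 (hinj 0 hxy)
    · intro γ
      rw [hφb 0]
      exact ⟨_, rfl⟩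
    · intro b γ
      rw [hφb b, ← nrm_eq_e0]
      exact hline b _
    · rw [← nrm_eq_e0]
      exact hne
  have h1 : ∀ b, ∃ Λ : Subgroup (SUGroup (k + 1)), IsLattice Λ ∧ IsArith (k + 1) Λ ∧
      Subgroup.Commensurable (Λ.map (emb (g b))) (ρ.comp (Monoid.PushoutI.of b)).range := by
    intro b
    obtain ⟨Λ, h2, h3, h4⟩ := comm_of_int hk hlat hf hL hA ρ' (fun b => by
      rintro _ ⟨x, rfl⟩
      rw [hρ'b]
      exact ⟨_, rfl⟩) hg' hgen hmeet (fun b => by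
        rintro _ ⟨x, rfl⟩
        rw [hρ'b]
        exact hχ b x) b
    refine ⟨Λ, h2, h3, h4.trans ?_⟩
    have hrg' : (ρ' b).range ≤ (ρ.comp (Monoid.PushoutI.of b)).range := by
      rintro _ ⟨x, rfl⟩
      rw [hρ'b]
      exact ⟨_, rfl⟩
    constructor
    · have h1 : (ρ' b).range = ((Γ' b).subgroupOf (Γ b)).map
          (ρ.comp (Monoid.PushoutI.of b)) := by
        rw [hρ']
        rw [MonoidHom.range_comp, Subgroup.inclusion_range]
      rw [h1, MonoidHom.range_eq_map, Subgroup.relIndex_map_map_of_injective _ _ (hinj b)]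
      rw [Subgroup.relIndex_top_right]
      exact hfi b
    · rw [Subgroup.relIndex_eq_one.2 hrg']
      exact one_ne_zero
  choose Λ hΛ hΛA hc using h1
  exact CF.amalgam_cf k hk Γ₃ Γ h₃ ι hι ρ hinj Λ g hΛ hΛA hc hlat

/-- **The amalgam, both factors standard up to arbitrary characters (or conjugate) on normal
subgroups of finite index: if all traces are algebraic integers, the image is arithmetic.** -/
theorem amalgam_int (k : ℕ) (hk : 1 ≤ k) (Γ₃ : Subgroup (SUGroup k))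
    (Γ : Fin 2 → Subgroup (SUGroup (k + 1))) (h₃ : IsLattice Γ₃) (ι : ∀ b, Γ₃ →* Γ b)
    (hι : ∀ b, Function.Injective (ι b)) (ρ : Monoid.PushoutI ι →* SUGroup (k + 2))
    (hinj : ∀ b, Function.Injective (ρ.comp (Monoid.PushoutI.of b)))
    (Γ' : Fin 2 → Subgroup (SUGroup (k + 1))) (hle : ∀ b, Γ' b ≤ Γ b)
    (hfi : ∀ b, (Γ' b).relIndex (Γ b) ≠ 0) (hN : ∀ b, ((Γ' b).subgroupOf (Γ b)).Normal)
    (hL : ∀ b, IsLattice (Γ' b)) (hA : ∀ b, IsArith (k + 1) (Γ' b))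
    (g : Fin 2 → SUGroup (k + 2))
    (hg : ∀ b, RG.Twd ((ρ.comp (Monoid.PushoutI.of (φ := ι) b)).comp
        (Subgroup.inclusion (hle b))) (g b) ∨
      RG.Twc ((ρ.comp (Monoid.PushoutI.of (φ := ι) b)).comp
        (Subgroup.inclusion (hle b))) (g b))
    (hlat : IsLattice ρ.range) (hf : FGG ρ.range)
    (hint : ∀ x ∈ ρ.range, IsIntegral ℤ x.toMatrix.trace) : IsArith (k + 2) ρ.range :=
  amalgam_int_of k hk Γ₃ Γ h₃ ι hι ρ hinj Γ' hle hfi hN hL hA g hg hlat hf fun _ _ _ h =>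
    integral_of_traces hint ⟨_, rfl⟩ h

end Pool.Agent.Lib.MP_5d4057_al.CI
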