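import Pool.Agent.Lib.MP_5d4057_al.CI.Tw
import Pool.Agent.Lib.MP_5d4057_al.CI.Main
import Pool.Agent.Lib.MP_5d4057_al.CI.Conv
import Pool.Agent.Lib.MP_5d4057_al.RG.Final

/-!
# CI M5: arithmetic if and only if the characters on the invariant lines of the factors are integral
-/

set_option autoImplicit false

namespace Pool.Agent.Lib.MP_5d4057_al.CI

open Matrix Filter Topology Pool.Agent.Lib.MP_5d4057_al Pool.Agent.Lib.MP_5d4057_al.Hyb
  Pool.Agent.Lib.MP_5d4057_al.HM Pool.Agent.Lib.MP_5d4057_al.RC Pool.Agent.Lib.MP_5d4057_al.NU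
  Pool.Agent.Lib.MP_5d4057_al.CF

/-- The entries of the image are in a finitely generated ring. -/
theorem fgg_range {k n : ℕ} {Γ₃ : Subgroup (SUGroup k)}
    {Γ : Fin 2 → Subgroup (SUGroup (k + 1))} {ι : ∀ b, Γ₃ →* Γ b}
    (hfg : ∀ b, Group.FG (Γ b)) (ρ : Monoid.PushoutI ι →* SUGroup n) : FGG ρ.range := by
  rw [RG.range_eq_iSup ρ]
  refine CF.fgg_iSup fun b => RG.fgg_of_fg ?_
  have h1 := hfg b
  exact (Group.fg_iff_subgroup_fg _).1 (Group.fg_range _)

/-- The eigenvalues of the factors on the invariant lines are algebraic integers. -/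
def IntLines {k n : ℕ} {Γ₃ : Subgroup (SUGroup k)} {Γ : Fin 2 → Subgroup (SUGroup (k + 1))}
    {ι : ∀ b, Γ₃ →* Γ b} (ρ : Monoid.PushoutI ι →* SUGroup n) : Prop :=
  ∀ (b : Fin 2) (p : Vec n), p ≠ 0 →
    (∀ x : Γ b, ∃ c : ℂ, act (ρ (Monoid.PushoutI.of b x)) p = c • p) →
      ∀ (x : Γ b) (c : ℂ), act (ρ (Monoid.PushoutI.of b x)) p = c • p → IsIntegral ℤ c

/-- The eigenvalues of the elements of an arithmetic group are algebraic integers. -/
theorem int_eigen_of_arith {m : ℕ} {G : Subgroup (SUGroup m)} (h : IsArith m G) {x : SUGroup m}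
    (hx : x ∈ G) {p : Vec m} (hp : p ≠ 0) {c : ℂ} (hc : act x p = c • p) : IsIntegral ℤ c := by
  refine integral_eigen (A := x.toMatrix) ?_ hp hc
  intro i
  rw [← toMatrix_pow]
  exact int_of_arith h (G.pow_mem hx i)

/-- **The amalgam.** `ρ` is injective on the factors, the image is a lattice: it is arithmetic if
and only if the eigenvalues of the factors on their invariant lines are algebraic integers. -/
theorem amalgam_lines (k : ℕ) (hk : 1 ≤ k) (Γ₃ : Subgroup (SUGroup k))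
    (Γ : Fin 2 → Subgroup (SUGroup (k + 1))) (h₃ : IsLattice Γ₃) (hL : ∀ b, IsLattice (Γ b))
    (hA : ∀ b, IsArith (k + 1) (Γ b)) (hΓ : ∀ b, RG.GeoV (Γ b)) (hfg : ∀ b, Group.FG (Γ b))
    (ι : ∀ b, Γ₃ →* Γ b) (hι : ∀ b, Function.Injective (ι b))
    (ρ : Monoid.PushoutI ι →* SUGroup (k + 2))
    (hinj : ∀ b, Function.Injective (ρ.comp (Monoid.PushoutI.of b)))
    (hlat : IsLattice ρ.range) : IsArith (k + 2) ρ.range ↔ IntLines ρ := by
  constructor
  · intro h b p hp _ x c hc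
    exact int_eigen_of_arith h ⟨_, rfl⟩ hp hc
  · intro hint
    have hf : FGG ρ.range := fgg_range hfg ρ
    choose Γ' hle g hfi hN hL' hA' hg using fun b =>
      piece_tw (m := k + 1) (by omega) (hL b) (hA b) (hΓ b) hlat hf
        (ρ.comp (Monoid.PushoutI.of (φ := ι) b)) (hinj b) (by
          rintro _ ⟨x, rfl⟩
          exact ⟨_, rfl⟩)
    refine amalgam_int_of k hk Γ₃ Γ h₃ ι hι ρ hinj Γ' hle hfi hN hL' hA' g hg hlat hf
      fun b x c hc => ?_
    have hn0 : act (g b) (nrm (k + 1)) ≠ 0 := by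
      intro h0
      have h4 := congrArg (act (g b)⁻¹) h0
      rw [act_inv_act, act, mulVec_zero] at h4
      have := congrFun h4 0
      simp [nrm] at this
    exact hint b _ hn0 (line_inv hN hL' hA' hg b) _ c hc

/-- The theorem for cocompact factors. -/
theorem amalgam_lines_coc (k : ℕ) (hk : 1 ≤ k) (Γ₃ : Subgroup (SUGroup k))
    (Γ : Fin 2 → Subgroup (SUGroup (k + 1))) (h₃ : IsLattice Γ₃) (hL : ∀ b, IsLattice (Γ b))
    (hA : ∀ b, IsArith (k + 1) (Γ b)) (hΓ : ∀ b, Coc (Γ b))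
    (ι : ∀ b, Γ₃ →* Γ b) (hι : ∀ b, Function.Injective (ι b))
    (ρ : Monoid.PushoutI ι →* SUGroup (k + 2))
    (hinj : ∀ b, Function.Injective (ρ.comp (Monoid.PushoutI.of b)))
    (hlat : IsLattice ρ.range) : IsArith (k + 2) ρ.range ↔ IntLines ρ :=
  amalgam_lines k hk Γ₃ Γ h₃ hL hA
    (fun b => RG.geoV_of_geo (RG.geo_of_coc (by omega) (hΓ b)))
    (fun b => RG.fg_of_coc (hΓ b)) ι hι ρ hinj hlat

end Pool.Agent.Lib.MP_5d4057_al.CI
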