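import Pool.Agent.Lib.MP_5d4057_al.RC.LogLap
import Pool.Agent.Lib.MP_5d4057_al.CF.Conf

/-!
# CI: pieces with characters. Definitions

`F` is a pluriharmonic metric, `g` a hyperplane. Type U: on the hyperplane the metric is the standard
one up to a pluriharmonic function.
-/

set_option autoImplicit false

namespace Pool.Agent.Lib.MP_5d4057_al.CI

open Matrix Filter Topology Pool.Agent.Lib.MP_5d4057_al Pool.Agent.Lib.MP_5d4057_al.Hyb
  Pool.Agent.Lib.MP_5d4057_al.HM Pool.Agent.Lib.MP_5d4057_al.RC Pool.Agent.Lib.MP_5d4057_al.NU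

open scoped ComplexOrder MatrixOrder Matrix.Norms.L2Operator

variable {n m j : ℕ}

/-- Pluriharmonic functions, homogeneous of degree zero. -/
structure PH (u : Vec n → ℝ) : Prop where
  hom : Homog u
  cd : ContDiffOn ℝ 2 u (Cone n)
  ph : ∀ v ∈ Cone n, ∀ ξ η : Vec n, pb (fun w => pz (cx u) w ξ) v η = 0

/-- The square of the length of the vector `e`. -/
noncomputable def len (P : Vec n → Mat m) (e : Fin m → ℂ) (v : Vec n) : ℝ :=
  (star e ⬝ᵥ (P v *ᵥ e)).re

/-- The derivatives of `P` move `e` only in its own direction. -/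
def Par (P : Vec n → Mat m) (e : Fin m → ℂ) : Prop :=
  ∀ v ∈ Cone n, ∀ ξ : Vec n, (∃ c : ℂ, pz P v ξ *ᵥ e = c • (P v *ᵥ e)) ∧
    ∃ d : ℂ, pb P v ξ *ᵥ e = d • (P v *ᵥ e)

/-- The metric of a block: `e ^ ((j + 1) u) ⊕ a e ^ (-u) M`. -/
noncomputable def ublk (u : Vec j → ℝ) (a : ℂ) (M : Vec j → Mat (j + 1)) (w : Vec j) :
    Mat (j + 2) :=
  dsum ((Real.exp ((j + 1) * u w) : ℝ) : ℂ) ((a * ((Real.exp (-u w) : ℝ) : ℂ)) • M w)

/-- Type U: on the hyperplane of `g` the metric is the standard one up to a pluriharmonic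
function. -/
structure TyU (F : Vec (j + 1) → Mat (j + 2)) (g : SUGroup (j + 1)) (Q : Mat (j + 2))
    (u : Vec j → ℝ) (a : ℂ) : Prop where
  unit : IsUnit Q
  ha : 0 < a
  ph : PH u
  slice : ∀ w ∈ Cone j, F (HM.hyp g w) = Q * ublk u a std w * Qᴴ

end Pool.Agent.Lib.MP_5d4057_al.CI
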