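import Pool.Agent.Lib.MP_5d4057_al.CF.Conf

/-!
# CI N2: the derivatives along a hyperplane of type S, from the normal derivative
-/

set_option autoImplicit false

namespace Pool.Agent.Lib.MP_5d4057_al.CI

open Matrix Filter Topology Pool.Agent.Lib.MP_5d4057_al Pool.Agent.Lib.MP_5d4057_al.Hyb
  Pool.Agent.Lib.MP_5d4057_al.HM Pool.Agent.Lib.MP_5d4057_al.RC Pool.Agent.Lib.MP_5d4057_al.NU
  Pool.Agent.Lib.MP_5d4057_al.CF

open scoped ComplexOrder MatrixOrder Matrix.Norms.L2Operator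

variable {j : ℕ}

/-- `CF.exists_sder` (CF/Conf) with the normal derivative as a hypothesis (copy of its proof). -/
theorem exists_sder_tw {F : Vec (j + 1) → Mat (j + 2)} {g : SUGroup (j + 1)} {Q : Mat (j + 2)}
    {l a : ℂ} (hF : HarmG F) (h : TyS F g Q l a)
    (P : Pce j (⊥ : Subgroup (SUGroup j)) (fun v => Q⁻¹ * F (act g v) * (Q⁻¹)ᴴ) l a)
    (hp : ∃ p : ℂ, ∀ w ∈ Cone j, NN (fun v => Q⁻¹ * F (act g v) * (Q⁻¹)ᴴ) w =
      (-(q w : ℂ)⁻¹ * p) • vecMulVec (nrm j) (star (inc j w))) :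
    ∃ T : Mat (j + 2), Sder F g (nf Q l a) (Q * (g⁻¹).toMatrix) a T := by
  have hQd := (isUnit_iff_isUnit_det _).1 h.unit
  have e1 : Q⁻¹ * Q = 1 := nonsing_inv_mul _ hQd
  have e1' : Q * Q⁻¹ = 1 := mul_nonsing_inv _ hQd
  have e2 : (Q⁻¹)ᴴ * Qᴴ = 1 := by rw [← conjTranspose_mul, e1', conjTranspose_one]
  obtain ⟨G, hG⟩ : ∃ G : Vec (j + 1) → Mat (j + 2),
      G = fun v => Q⁻¹ * F (act g v) * (Q⁻¹)ᴴ := ⟨_, rfl⟩
  rw [← hG] at P hp
  have hGd : HarmG G := by
    rw [hG]
    exact hF.pre g (isUnit_nonsing_inv_iff.2 h.unit)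
  obtain ⟨p, hp⟩ := hp
  have hFG : ∀ v, F (act g v) = Q * G v * Qᴴ := by
    intro v
    rw [hG]
    show F (act g v) = Q * (Q⁻¹ * F (act g v) * (Q⁻¹)ᴴ) * Qᴴ
    calc F (act g v) = (Q * Q⁻¹) * F (act g v) * ((Q⁻¹)ᴴ * Qᴴ) := by
          rw [e1', e2, Matrix.one_mul, Matrix.mul_one]
      _ = _ := by simp only [Matrix.mul_assoc]
  have hU : ∀ w, (Q * (g⁻¹).toMatrix) *ᵥ HM.hyp g w = Q *ᵥ inc j w := by
    intro w
    rw [← mulVec_mulVec]
    congr 1
    exact act_inv_act g _
  have hT : ∀ y, (Q * dsum p ((2 * a) • 1) * (g⁻¹).toMatrix) *ᵥ y =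
      Q *ᵥ (dsum p ((2 * a) • (1 : Mat (j + 1))) *ᵥ act g⁻¹ y) := by
    intro y
    rw [← mulVec_mulVec, ← mulVec_mulVec]
    rfl
  refine ⟨Q * dsum p ((2 * a) • 1) * (g⁻¹).toMatrix,
    { toSval := h.sval, tu := ?_, ker := ?_, der := ?_ }⟩
  · intro w
    rw [hT, hU, hyp_apply, act_inv_act, dsum_mulVec_inc, smul_mulVec, one_mulVec, map_smul,
      mulVec_smul]
  · intro x hx
    rw [hT] at hx
    have h1 : dsum p ((2 * a) • (1 : Mat (j + 1))) *ᵥ act g⁻¹ x = 0 := by
      refine mulVec_inj_of_unit h.unit ?_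
      rw [hx, mulVec_zero]
    obtain ⟨y, hy⟩ : ∃ y, y = act g⁻¹ x := ⟨_, rfl⟩
    rw [← hy, eq_cons y, dsum_mulVec_cons, smul_mulVec, one_mulVec] at h1
    have h2 : tl j y = 0 := by
      have h3 : (2 * a) • tl j y = 0 := by
        funext i
        exact congrFun h1 i.succ
      exact (smul_eq_zero.1 h3).resolve_left (mul_ne_zero two_ne_zero h.ha.ne')
    refine ⟨y 0, ?_⟩
    have h3 : y = y 0 • nrm j := by
      conv_lhs => rw [eq_cons y, h2]
      rw [nrm]
      funext i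
      refine Fin.cases ?_ (fun i => ?_) i
      · rw [Fin.cons_zero, Pi.smul_apply, Fin.cons_zero, smul_eq_mul, mul_one]
        rfl
      · simp
    have h4 : x = act g y := by rw [hy, act_act_inv]
    conv_lhs => rw [h4, h3]
    rw [act_smul]
  · intro w hw ξ
    have hv := inc_mem hw
    have hq := q_ne hw
    obtain ⟨η, hη⟩ : ∃ η, η = act g⁻¹ ξ := ⟨_, rfl⟩
    have hξ : ξ = act g η := by rw [hη, act_act_inv]
    -- the derivative of `G`
    have hGpz : pz G (inc j w) η = (-(q w : ℂ)⁻¹) •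
        vecMulVec (dsum p ((2 * a) • (1 : Mat (j + 1))) *ᵥ prj (inc j w) η)
          (star (inc j w)) := by
      have h1 : η = η 0 • nrm j + inc j (tl j η) := by
        conv_lhs => rw [eq_cons η]
        rw [nrm]
        funext i
        refine Fin.cases ?_ (fun i => ?_) i
        · rw [Fin.cons_zero, Pi.add_apply, Pi.smul_apply, Fin.cons_zero, smul_eq_mul, mul_one,
            inc_zero, add_zero]
          rfl
        · rw [Fin.cons_succ, Pi.add_apply, Pi.smul_apply, Fin.cons_succ, inc_succ]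
          simp
      have h2 : prj (inc j w) η = η 0 • nrm j + inc j (prj w (tl j η)) := by
        rw [prj, herm_inc_tl, q_inc, prj, map_sub, map_smul]
        conv_lhs => rw [h1]
        have h3 : tl j (η 0 • nrm j + inc j (tl j η)) = tl j η := by rw [← h1]
        rw [h3]
        abel
      rw [h2]
      conv_lhs => rw [h1]
      rw [pz_add_dir, pz_smul_dir, (P.tan hw _).1]
      have h4 : pz G (inc j w) (nrm j) =
          (-(q w : ℂ)⁻¹ * p) • vecMulVec (nrm j) (star (inc j w)) := hp w hw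
      rw [h4, mulVec_add, mulVec_smul, dsum_mulVec_inc, smul_mulVec, one_mulVec, map_smul]
      have h5 : dsum p ((2 * a) • (1 : Mat (j + 1))) *ᵥ nrm j = p • nrm j := by
        rw [nrm, dsum_mulVec_cons, mulVec_zero, mul_one]
        funext i
        refine Fin.cases ?_ (fun i => ?_) i <;> simp
      rw [h5, Matrix.add_vecMulVec, Matrix.smul_vecMulVec, Matrix.smul_vecMulVec,
        Matrix.smul_vecMulVec]
      module
    -- transport
    have h1 : HasZ (fun u => F (actC g u)) (inc j w) η _ _ :=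
      (hasZ (hF.diff (act_mem g hv)) (actC g η)).comp_lin (actC g)
    have h2 : HasZ (fun u => Q * G u * Qᴴ) (inc j w) η _ _ :=
      (hasZ (hGd.diff hv) η).clm (ContinuousLinearMap.mulLeftRight ℂ (Mat (j + 2)) Q Qᴴ)
    have h3 : (fun u => F (actC g u)) = fun u => Q * G u * Qᴴ := by
      funext u
      exact hFG u
    have h4 : pz F (act g (inc j w)) (act g η) = Q * pz G (inc j w) η * Qᴴ := by
      have h5 := h1.pz
      rw [h3, h2.pz] at h5
      exact h5.symm
    have h6 : act g⁻¹ (prj (act g (inc j w)) (act g η)) = prj (inc j w) η := by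
      rw [prj, prj, q_act, herm_act, act, act, act, mulVec_sub, mulVec_smul]
      congr 1
      · exact act_inv_act g η
      · congr 1
        exact act_inv_act g _
    rw [hT, hU, hξ, hyp_apply, h4, hGpz, h6, Matrix.mul_smul, Matrix.smul_mul, mul_vecMulVec,
      vecMulVec_mul, ← star_mulVec]

end Pool.Agent.Lib.MP_5d4057_al.CI
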