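import Pool.Agent.Lib.MP_5d4057_al.Hyb.Arith

/-!
# CI K2: integral traces of powers, integral eigenvalues
-/

set_option autoImplicit false

namespace Pool.Agent.Lib.MP_5d4057_al.CI

open Matrix Pool.Agent.Lib.MP_5d4057_al Pool.Agent.Lib.MP_5d4057_al.Hyb

/-! ### the traces of the powers -/

private theorem eg_eval {m : ℕ} (A : Matrix (Fin m) (Fin m) ℂ) (y : ℂ) :
    A.charpoly.eval y = (A.charpoly.roots.map fun l => y - l).prod := by
  have h1 := (IsAlgClosed.splits A.charpoly).eq_prod_roots_of_monic A.charpoly_monic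
  conv_lhs => rw [h1]
  rw [Polynomial.eval_multiset_prod, Multiset.map_map]
  congr 1
  exact Multiset.map_congr rfl fun l _ => by simp

private theorem eg_card {m : ℕ} (A : Matrix (Fin m) (Fin m) ℂ) :
    Multiset.card A.charpoly.roots = m := by
  rw [← (IsAlgClosed.splits A.charpoly).natDegree_eq_card_roots, charpoly_natDegree_eq_dim,
    Fintype.card_fin]

/-- The determinant of a polynomial in `A`. -/
private theorem eg_det {m : ℕ} (A : Matrix (Fin m) (Fin m) ℂ) (g : Polynomial ℂ) :
    (Polynomial.aeval A g).det = (A.charpoly.roots.map fun l => g.eval l).prod := by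
  have hC : ∀ c : ℂ, (Polynomial.aeval A (Polynomial.C c)).det =
      (A.charpoly.roots.map fun l => (Polynomial.C c).eval l).prod := by
    intro c
    simp only [Polynomial.eval_C, Multiset.map_const', Multiset.prod_replicate]
    rw [eg_card, Polynomial.aeval_C, Matrix.algebraMap_eq_diagonal, Matrix.det_diagonal]
    simp
  have hX : ∀ μ : ℂ, (Polynomial.aeval A (Polynomial.X - Polynomial.C μ)).det =
      (A.charpoly.roots.map fun l => (Polynomial.X - Polynomial.C μ).eval l).prod := by
    intro μ
    have h1 : A.charpoly.eval μ = (scalar (Fin m) μ - A).det := Matrix.eval_charpoly A μ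
    have h2 : (Polynomial.aeval A (Polynomial.X - Polynomial.C μ)) = -(scalar (Fin m) μ - A) := by
      rw [map_sub, Polynomial.aeval_X, Polynomial.aeval_C]
      rw [neg_sub]
      rfl
    rw [h2, Matrix.det_neg, ← h1, eg_eval, Fintype.card_fin]
    have h3 : (A.charpoly.roots.map fun l => (Polynomial.X - Polynomial.C μ).eval l) =
        A.charpoly.roots.map fun l => (-1) * (μ - l) :=
      Multiset.map_congr rfl fun l _ => by simp
    rw [h3, Multiset.prod_map_mul, Multiset.map_const', Multiset.prod_replicate, eg_card]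
  have hmul : ∀ g h : Polynomial ℂ,
      (Polynomial.aeval A g).det = (A.charpoly.roots.map fun l => g.eval l).prod →
      (Polynomial.aeval A h).det = (A.charpoly.roots.map fun l => h.eval l).prod →
      (Polynomial.aeval A (g * h)).det = (A.charpoly.roots.map fun l => (g * h).eval l).prod := by
    intro g h hg hh
    rw [map_mul, Matrix.det_mul, hg, hh, ← Multiset.prod_map_mul]
    congr 1
    exact Multiset.map_congr rfl fun l _ => by simp
  have hP : ∀ s : Multiset ℂ,
      (Polynomial.aeval A (s.map fun a => Polynomial.X - Polynomial.C a).prod).det =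
      (A.charpoly.roots.map fun l =>
        ((s.map fun a => Polynomial.X - Polynomial.C a).prod).eval l).prod := by
    intro s
    induction s using Multiset.induction with
    | empty =>
      have := hC 1
      rw [Polynomial.C_1] at this
      rw [Multiset.map_zero, Multiset.prod_zero]
      exact this
    | cons a s ih =>
      rw [Multiset.map_cons, Multiset.prod_cons]
      exact hmul _ _ (hX a) ih
  have hg := (IsAlgClosed.splits g).eq_prod_roots
  rw [hg]
  exact hmul _ _ (hC _) (hP _)

/-- The characteristic polynomial of a power. -/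
private theorem eg_roots_pow {m : ℕ} (A : Matrix (Fin m) (Fin m) ℂ) (k : ℕ) :
    (A ^ k).charpoly.roots = A.charpoly.roots.map (· ^ k) := by
  have h1 : (A ^ k).charpoly =
      ((A.charpoly.roots.map (· ^ k)).map fun a => Polynomial.X - Polynomial.C a).prod := by
    refine Polynomial.funext fun y => ?_
    have h2 := eg_det A (Polynomial.C y - Polynomial.X ^ k)
    have h3 : (Polynomial.aeval A (Polynomial.C y - Polynomial.X ^ k)) =
        scalar (Fin m) y - A ^ k := by
      rw [map_sub, map_pow, Polynomial.aeval_X, Polynomial.aeval_C]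
      rfl
    rw [h3, ← Matrix.eval_charpoly] at h2
    rw [h2, Polynomial.eval_multiset_prod, Multiset.map_map, Multiset.map_map]
    congr 1
    exact Multiset.map_congr rfl fun l _ => by simp
  rw [h1, Polynomial.roots_multiset_prod_X_sub_C]

private theorem eg_trace_pow {m : ℕ} (A : Matrix (Fin m) (Fin m) ℂ) (k : ℕ) :
    (A ^ k).trace = (A.charpoly.roots.map (· ^ k)).sum := by
  rw [Matrix.trace_eq_sum_roots_charpoly, eg_roots_pow]

/-! ### Newton's identities -/

private theorem eg_newton {N : ℕ} (x : Fin N → ℂ) (h : ∀ k : ℕ, IsIntegral ℤ (∑ i, x i ^ k))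
    (k : ℕ) : IsIntegral ℤ ((k.factorial : ℂ) *
      MvPolynomial.aeval x (MvPolynomial.esymm (Fin N) ℤ k)) := by
  induction k using Nat.strong_induction_on with
  | _ k ih =>
  cases k with
  | zero => simp [MvPolynomial.esymm_zero, isIntegral_one]
  | succ k =>
    have h1 := congrArg (MvPolynomial.aeval x) (MvPolynomial.mul_esymm_eq_sum (Fin N) ℤ (k + 1))
    rw [map_mul, map_mul, map_sum, map_natCast] at h1
    have h2 : (((k + 1).factorial : ℕ) : ℂ) *
        MvPolynomial.aeval x (MvPolynomial.esymm (Fin N) ℤ (k + 1)) =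
        (k.factorial : ℂ) * (((k + 1 : ℕ) : ℂ) *
          MvPolynomial.aeval x (MvPolynomial.esymm (Fin N) ℤ (k + 1))) := by
      rw [Nat.factorial_succ]
      push_cast
      ring
    rw [h2, h1, map_pow, map_neg, map_one, mul_left_comm, Finset.mul_sum]
    refine IsIntegral.mul ((isIntegral_one.neg).pow _) (IsIntegral.sum _ fun a ha => ?_)
    rw [Finset.mem_filter, Finset.HasAntidiagonal.mem_antidiagonal] at ha
    have h3 : ((k.factorial : ℕ) : ℂ) = ((k.factorial / a.1.factorial : ℕ) : ℂ) *
        ((a.1.factorial : ℕ) : ℂ) := by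
      rw [← Nat.cast_mul, Nat.div_mul_cancel (Nat.factorial_dvd_factorial (by omega))]
    have h4 : ((k.factorial : ℕ) : ℂ) * MvPolynomial.aeval x
        ((-1) ^ a.1 * MvPolynomial.esymm (Fin N) ℤ a.1 * MvPolynomial.psum (Fin N) ℤ a.2) =
        ((k.factorial / a.1.factorial : ℕ) : ℂ) * (-1) ^ a.1 * (((a.1.factorial : ℕ) : ℂ) *
        MvPolynomial.aeval x (MvPolynomial.esymm (Fin N) ℤ a.1)) * ∑ i, x i ^ a.2 := by
      rw [map_mul, map_mul, map_pow, map_neg, map_one, h3, MvPolynomial.psum, map_sum]
      simp only [map_pow, MvPolynomial.aeval_X]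
      ring
    rw [h4]
    exact (((isIntegral_algebraMap (R := ℤ) (A := ℂ) (x := ((k.factorial / a.1.factorial : ℕ) : ℤ))).mul
      ((isIntegral_one.neg).pow _)).mul (ih a.1 (by omega))).mul (h a.2)

/-- A root of a polynomial whose coefficients have bounded denominators. -/
private theorem eg_root {N : ℕ} (x : Fin N → ℂ) (h : ∀ k : ℕ, IsIntegral ℤ (∑ i, x i ^ k))
    (i : Fin N) : IsIntegral ℤ ((N.factorial : ℂ) * x i) := by
  have hx : ((Finset.univ.val.map x).map (fun t => x i - t)).prod = 0 := by
    refine Multiset.prod_eq_zero ?_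
    rw [Multiset.map_map, Multiset.mem_map]
    exact ⟨i, Finset.mem_univ_val i, by simp⟩
  have h1 := congrArg (Polynomial.eval (x i)) (Multiset.prod_X_sub_X_eq_sum_esymm
    (Finset.univ.val.map x))
  rw [Polynomial.eval_multiset_prod, Multiset.map_map] at h1
  have h2 : ((Finset.univ.val.map x).map
      ((Polynomial.eval (x i)) ∘ fun t => Polynomial.X - Polynomial.C t)).prod = 0 := by
    rw [← hx]
    congr 1
    exact Multiset.map_congr rfl fun l _ => by simp
  rw [h2, Polynomial.eval_finsetSum] at h1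
  have hcard : Multiset.card (Finset.univ.val.map x) = N := by simp
  rw [hcard] at h1
  obtain ⟨w, hw⟩ : ∃ w : ℂ, w = (N.factorial : ℂ) * x i := ⟨_, rfl⟩
  obtain ⟨c, hc⟩ : ∃ c : ℕ → ℂ, ∀ j, c j = (-1) ^ j * ((N.factorial : ℂ) ^ j *
      (Finset.univ.val.map x).esymm j) := ⟨_, fun _ => rfl⟩
  have hcint : ∀ j ∈ Finset.range (N + 1), IsIntegral ℤ (c j) := by
    intro j hj
    rw [hc]
    refine ((isIntegral_one.neg).pow _).mul ?_
    rcases Nat.eq_zero_or_pos j with rfl | hj0
    · simp [Multiset.esymm, isIntegral_one]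
    · have h3 : ((N.factorial : ℕ) : ℂ) ^ j * (Finset.univ.val.map x).esymm j =
          ((N.factorial : ℕ) : ℂ) ^ (j - 1) * ((N.factorial / j.factorial : ℕ) : ℂ) *
          (((j.factorial : ℕ) : ℂ) * MvPolynomial.aeval x (MvPolynomial.esymm (Fin N) ℤ j)) := by
        rw [MvPolynomial.aeval_esymm_eq_multiset_esymm]
        have h4 : ((N.factorial : ℕ) : ℂ) = ((N.factorial / j.factorial : ℕ) : ℂ) *
            ((j.factorial : ℕ) : ℂ) := by
          rw [← Nat.cast_mul, Nat.div_mul_cancel (Nat.factorial_dvd_factorial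
            (by have := Finset.mem_range.1 hj; omega))]
        obtain ⟨l, rfl⟩ : ∃ l, j = l + 1 := ⟨j - 1, by omega⟩
        rw [pow_succ, Nat.add_sub_cancel]
        conv_lhs => rw [mul_comm (((N.factorial : ℕ) : ℂ) ^ l) _]
        rw [h4]
        ring
      rw [h3]
      exact ((isIntegral_algebraMap (R := ℤ) (A := ℂ) (x := ((N.factorial : ℕ) : ℤ))).pow _ |>.mul
        (isIntegral_algebraMap (R := ℤ) (A := ℂ) (x := ((N.factorial / j.factorial : ℕ) : ℤ)))).mul
        (eg_newton x h j)
  have hsum : ∑ j ∈ Finset.range (N + 1), c j * w ^ (N - j) = 0 := by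
    have h3 : ∑ j ∈ Finset.range (N + 1), c j * w ^ (N - j) = (N.factorial : ℂ) ^ N *
        ∑ j ∈ Finset.range (N + 1), (-1) ^ j * ((Finset.univ.val.map x).esymm j *
          x i ^ (N - j)) := by
      rw [Finset.mul_sum]
      refine Finset.sum_congr rfl fun j hj => ?_
      have h4 : (N.factorial : ℂ) ^ N = (N.factorial : ℂ) ^ j * (N.factorial : ℂ) ^ (N - j) := by
        rw [← pow_add, Nat.add_sub_cancel' (by have := Finset.mem_range.1 hj; omega)]
      rw [hc, hw, h4, mul_pow]
      ring
    rw [h3]
    refine mul_eq_zero_of_right _ ?_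
    rw [h1]
    refine Finset.sum_congr rfl fun j _ => ?_
    simp
  -- a monic polynomial with integral coefficients
  rw [← hw]
  let R := integralClosure ℤ ℂ
  have hR : ∀ j ∈ Finset.range (N + 1), ∃ r : R, (r : ℂ) = c j := fun j hj =>
    ⟨⟨c j, hcint j hj⟩, rfl⟩
  choose! r hr using hR
  have hwR : IsIntegral R w := by
    refine ⟨Polynomial.X ^ N + ∑ j ∈ Finset.range N, Polynomial.C (r (j + 1)) *
      Polynomial.X ^ (N - (j + 1)), ?_, ?_⟩
    · refine Polynomial.monic_X_pow_add ?_
      refine lt_of_le_of_lt (Polynomial.degree_sum_le _ _) ?_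
      rw [Finset.sup_lt_iff (WithBot.bot_lt_coe _)]
      intro j hj
      refine lt_of_le_of_lt (Polynomial.degree_C_mul_X_pow_le _ _) ?_
      have := Finset.mem_range.1 hj
      exact_mod_cast (by omega : N - (j + 1) < N)
    · rw [Polynomial.eval₂_add, Polynomial.eval₂_pow, Polynomial.eval₂_X,
        Polynomial.eval₂_finsetSum]
      rw [Finset.sum_range_succ'] at hsum
      have h0 : c 0 = 1 := by
        rw [hc]
        simp [Multiset.esymm]
      rw [h0, one_mul, Nat.sub_zero] at hsum
      rw [← hsum, add_comm]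
      congr 1
      refine Finset.sum_congr rfl fun j hj => ?_
      rw [Polynomial.eval₂_mul, Polynomial.eval₂_C, Polynomial.eval₂_pow, Polynomial.eval₂_X]
      have h5 := hr (j + 1) (Finset.mem_range.2 (by have := Finset.mem_range.1 hj; omega))
      rw [← h5]
      rfl
  exact isIntegral_trans w hwR

private theorem eg_fac {m : ℕ} {A : Matrix (Fin m) (Fin m) ℂ}
    (h : ∀ k : ℕ, IsIntegral ℤ (A ^ k).trace) {z : ℂ} {v : Fin m → ℂ} (hv : v ≠ 0)
    (hA : A *ᵥ v = z • v) : IsIntegral ℤ ((m.factorial : ℂ) * z) := by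
  have hz : z ∈ A.charpoly.roots := by
    rw [Polynomial.mem_roots A.charpoly_monic.ne_zero, Polynomial.IsRoot, Matrix.eval_charpoly]
    refine Matrix.exists_mulVec_eq_zero_iff.1 ⟨v, hv, ?_⟩
    rw [Matrix.sub_mulVec, hA]
    have h1 : (scalar (Fin m) z) *ᵥ v = z • v := by
      rw [Matrix.scalar_apply, ← Matrix.smul_one_eq_diagonal, Matrix.smul_mulVec, Matrix.one_mulVec]
    rw [h1, sub_self]
  obtain ⟨l, hl⟩ : ∃ l : List ℂ, (l : Multiset ℂ) = A.charpoly.roots :=
    ⟨A.charpoly.roots.toList, Multiset.coe_toList _⟩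
  have hlen : l.length = m := by
    rw [← Multiset.coe_card, hl, eg_card]
  have hx : Finset.univ.val.map l.get = A.charpoly.roots := by
    rw [← hl]
    rw [Fin.univ_val_map, List.ofFn_get]
  have h1 : ∀ k : ℕ, IsIntegral ℤ (∑ i, l.get i ^ k) := by
    intro k
    have h2 : ∑ i, l.get i ^ k = (A ^ k).trace := by
      rw [eg_trace_pow, ← hx, Multiset.map_map]
      rfl
    rw [h2]
    exact h k
  rw [← hl, Multiset.mem_coe] at hz
  obtain ⟨i, hi⟩ := List.get_of_mem hz
  have h2 := eg_root l.get h1 i
  rw [hi, hlen] at h2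
  exact h2

/-- Integral traces of powers, integral eigenvalues. -/
theorem integral_eigen {m : ℕ} {A : Matrix (Fin m) (Fin m) ℂ}
    (h : ∀ k : ℕ, IsIntegral ℤ (A ^ k).trace) {z : ℂ} {v : Fin m → ℂ} (hv : v ≠ 0)
    (hA : A *ᵥ v = z • v) : IsIntegral ℤ z := by
  have h1 : ∀ r : ℕ, IsIntegral ℤ ((m.factorial : ℂ) * z ^ r) := by
    intro r
    refine eg_fac (A := A ^ r) (fun k => ?_) hv ?_
    · rw [← pow_mul]
      exact h _
    · induction r with
      | zero => simp
      | succ r ih =>
        rw [pow_succ', ← Matrix.mulVec_mulVec, ih, Matrix.mulVec_smul, hA, smul_smul, pow_succ]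
  have hm : (m.factorial : ℂ) ≠ 0 := by exact_mod_cast m.factorial_ne_zero
  -- the number field of `z`
  have hzalg : IsIntegral ℚ z := by
    have h2 : IsIntegral ℚ ((m.factorial : ℂ) * z ^ 1) := (h1 1).tower_top
    have h3 : z = algebraMap ℚ ℂ ((m.factorial : ℚ)⁻¹) * ((m.factorial : ℂ) * z ^ 1) := by
      rw [pow_one, map_inv₀, map_natCast]
      field_simp
    rw [h3]
    exact isIntegral_algebraMap.mul h2
  let K := IntermediateField.adjoin ℚ ({z} : Set ℂ)
  have : FiniteDimensional ℚ K := IntermediateField.adjoin.finiteDimensional hzalg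
  have : NumberField K := { to_charZero := inferInstance, to_finiteDimensional := this }
  let s : K := ⟨z, IntermediateField.mem_adjoin_simple_self ℚ z⟩
  have h4 : IsAlmostIntegral (NumberField.RingOfIntegers K) s := by
    refine ⟨((m.factorial : ℕ) : NumberField.RingOfIntegers K), ?_, fun r => ?_⟩
    · refine mem_nonZeroDivisors_of_ne_zero ?_
      exact_mod_cast m.factorial_ne_zero
    · have h5 : IsIntegral ℤ ((m.factorial : K) * s ^ r) := by
        have h6 := h1 r
        have h7 : ((m.factorial : ℂ) * z ^ r) = algebraMap K ℂ ((m.factorial : K) * s ^ r) := by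
          rw [map_mul, map_pow, map_natCast]
          rfl
        rw [h7] at h6
        exact (isIntegral_algebraMap_iff (algebraMap K ℂ).injective).1 h6
      refine ⟨⟨_, h5⟩, ?_⟩
      rw [Algebra.smul_def, map_natCast]
      rfl
  have h5 : IsIntegral (NumberField.RingOfIntegers K) s := h4.isIntegral
  have h6 : IsIntegral ℤ s := isIntegral_trans s h5
  exact h6.map (K.val.restrictScalars ℤ)

end Pool.Agent.Lib.MP_5d4057_al.CI
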