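import Pool.Agent.Lib.MP_5d4057_al.Hyb.Arith
import Pool.Agent.Lib.MP_5d4057_al.HM.Aut

/-!
# CI K1: Kronecker's theorem for two CM fields
-/

set_option autoImplicit false

namespace Pool.Agent.Lib.MP_5d4057_al.CI

open Matrix Pool.Agent.Lib.MP_5d4057_al Pool.Agent.Lib.MP_5d4057_al.Hyb
  Pool.Agent.Lib.MP_5d4057_al.HM

/-- The compositum of two number fields in `ℂ`. -/
private theorem kr_compositum {K₀ K₁ : Subfield ℂ} (h₀ : NumberField K₀) (h₁ : NumberField K₁) :
    ∃ M : Subfield ℂ, NumberField M ∧ K₀ ≤ M ∧ K₁ ≤ M := by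
  let E₀ : IntermediateField ℚ ℂ := K₀.toIntermediateField fun x => by
    rw [eq_ratCast]
    exact SubfieldClass.ratCast_mem K₀ x
  let E₁ : IntermediateField ℚ ℂ := K₁.toIntermediateField fun x => by
    rw [eq_ratCast]
    exact SubfieldClass.ratCast_mem K₁ x
  have hq : ∀ K : Subfield ℂ, NumberField K → ∀ E : IntermediateField ℚ ℂ,
      E.toSubfield = K → FiniteDimensional ℚ E := by
    rintro K hK E rfl
    have h1 : FiniteDimensional ℚ E.toSubfield := hK.to_finiteDimensional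
    let e : E.toSubfield ≃ₗ[ℚ] E :=
      { toFun := fun x => ⟨x.1, x.2⟩
        invFun := fun x => ⟨x.1, x.2⟩
        left_inv := fun _ => rfl
        right_inv := fun _ => rfl
        map_add' := fun _ _ => rfl
        map_smul' := fun c x => by
          refine Subtype.ext ?_
          change ((c • x : E.toSubfield) : ℂ) = ((c • (⟨x.1, x.2⟩ : E) : E) : ℂ)
          rw [IntermediateField.coe_smul]
          rfl }
    exact Module.Finite.equiv e
  have hE₀ : FiniteDimensional ℚ E₀ := hq K₀ h₀ E₀ rfl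
  have hE₁ : FiniteDimensional ℚ E₁ := hq K₁ h₁ E₁ rfl
  have hE : FiniteDimensional ℚ (E₀ ⊔ E₁ : IntermediateField ℚ ℂ) :=
    IntermediateField.finiteDimensional_sup E₀ E₁
  refine ⟨(E₀ ⊔ E₁ : IntermediateField ℚ ℂ).toSubfield, ?_, ?_, ?_⟩
  · refine { to_charZero := inferInstance, to_finiteDimensional := ?_ }
    let E := (E₀ ⊔ E₁ : IntermediateField ℚ ℂ)
    let e : E ≃ₗ[ℚ] E.toSubfield :=
      { toFun := fun x => ⟨x.1, x.2⟩
        invFun := fun x => ⟨x.1, x.2⟩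
        left_inv := fun _ => rfl
        right_inv := fun _ => rfl
        map_add' := fun _ _ => rfl
        map_smul' := fun c x => by
          refine Subtype.ext ?_
          change ((c • x : E) : ℂ) = ((c • (⟨x.1, x.2⟩ : E.toSubfield) : E.toSubfield) : ℂ)
          rw [IntermediateField.coe_smul]
          rfl }
    exact Module.Finite.equiv e
  · intro x hx
    exact (le_sup_left : E₀ ≤ E₀ ⊔ E₁) (show x ∈ E₀ from hx)
  · intro x hx
    exact (le_sup_right : E₁ ≤ E₀ ⊔ E₁) (show x ∈ E₁ from hx)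

/-- Automorphisms of `ℂ` commute with the conjugation on a CM field. -/
private theorem kr_cm {K : Subfield ℂ} (h : IsCM K) (t : ℂ ≃+* ℂ) (x : K) :
    t.symm (cj (t (cj (x : ℂ)))) = x := by
  have h1 := h.2.2.2 (t.toRingHom.comp K.subtype) x ⟨(starRingEnd ℂ) x, h.2.2.1 x x.2⟩ rfl
  have h2 : t (cj (x : ℂ)) = cj (t (x : ℂ)) := h1
  have h3 : cj (cj (t (x : ℂ))) = t (x : ℂ) := by
    rw [cj_apply, cj_apply, Complex.conj_conj]
  rw [h2, h3, RingEquiv.symm_apply_apply]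

/-- Kronecker's theorem for the compositum of two CM fields. -/
theorem kron {K₀ K₁ : Subfield ℂ} (h₀ : IsCM K₀) (h₁ : IsCM K₁) :
    ∃ N : ℕ, 0 < N ∧ ∀ z : ℂ, IsIntegral ℤ z → star z * z = 1 →
      (∀ t : ℂ ≃+* ℂ, (∀ x : K₀, t (x : ℂ) = x) → (∀ x : K₁, t (x : ℂ) = x) → t z = z) →
      z ^ N = 1 := by
  classical
  obtain ⟨M, hM, hM0, hM1⟩ := kr_compositum h₀.1 h₁.1
  have hcount : Countable M := countable_of_numberField M
  have hfin := NumberField.Embeddings.finite_of_norm_le M ℂ 1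
  let e : M → ℕ := fun x => if h : ∃ n : ℕ, 0 < n ∧ x ^ n = 1 then h.choose else 1
  have he : ∀ x, 0 < e x := by
    intro x
    by_cases h : ∃ n : ℕ, 0 < n ∧ x ^ n = 1
    · simp only [e, dif_pos h]
      exact h.choose_spec.1
    · simp only [e, dif_neg h]
      norm_num
  refine ⟨∏ x ∈ hfin.toFinset, e x, Finset.prod_pos fun x _ => he x, fun z hz hz1 hfix => ?_⟩
  have hzM : z ∈ M := mem_of_fixed M z fun t ht =>
    hfix t (fun x => ht ⟨x, hM0 x.2⟩) fun x => ht ⟨x, hM1 x.2⟩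
  have hz0 : z ≠ 0 := by
    rintro rfl
    rw [mul_zero] at hz1
    exact zero_ne_one hz1
  have hnorm : ∀ φ : M →+* ℂ, ‖φ ⟨z, hzM⟩‖ = 1 := by
    intro φ
    obtain ⟨t, ht⟩ := exists_aut M φ
    rw [← ht ⟨z, hzM⟩]
    have h1 := hfix ((cj.trans t).trans (cj.trans t.symm)) (fun x => kr_cm h₀ t x)
      (fun x => kr_cm h₁ t x)
    have h2 : t.symm (cj (t (cj z))) = z := h1
    have h3 : cj (t (cj z)) = t z := by
      rw [← h2, RingEquiv.apply_symm_apply, h2]
    have h4 : cj z * z = 1 := hz1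
    have h5 : t (cj z) * t z = 1 := by rw [← map_mul, h4, map_one]
    have h6 : t (cj z) = cj (t z) := by
      rw [← h3, cj_apply (cj _), cj_apply (t (cj z)), Complex.conj_conj]
    rw [h6] at h5
    have h7 : ((‖t z‖ ^ 2 : ℝ) : ℂ) = 1 := by
      rw [← h5, cj_apply, ← Complex.normSq_eq_norm_sq, mul_comm, Complex.mul_conj]
    have h8 : ‖t z‖ ^ 2 = 1 := by exact_mod_cast h7
    have h9 := norm_nonneg (t z)
    show ‖t z‖ = 1
    nlinarith
  have hint : IsIntegral ℤ (⟨z, hzM⟩ : M) :=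
    (isIntegral_algebraMap_iff (algebraMap M ℂ).injective).1 (show IsIntegral ℤ
      (algebraMap M ℂ ⟨z, hzM⟩) from hz)
  have hmem : (⟨z, hzM⟩ : M) ∈ hfin.toFinset := by
    rw [Set.Finite.mem_toFinset]
    exact ⟨hint, fun φ => (hnorm φ).le⟩
  have hex : ∃ n : ℕ, 0 < n ∧ (⟨z, hzM⟩ : M) ^ n = 1 := by
    obtain ⟨n, hn, h⟩ := NumberField.Embeddings.pow_eq_one_of_norm_eq_one M ℂ hint hnorm
    exact ⟨n, hn, h⟩
  have hpow : (⟨z, hzM⟩ : M) ^ e ⟨z, hzM⟩ = 1 := by
    simp only [e, dif_pos hex]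
    exact hex.choose_spec.2
  obtain ⟨d, hd⟩ := Finset.dvd_prod_of_mem e hmem
  have h1 : (⟨z, hzM⟩ : M) ^ (∏ x ∈ hfin.toFinset, e x) = 1 := by
    rw [hd, pow_mul, hpow, one_pow]
  have h2 := congrArg (Subtype.val : M → ℂ) h1
  rw [SubmonoidClass.coe_pow] at h2
  exact h2

end Pool.Agent.Lib.MP_5d4057_al.CI
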