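import Pool.Agent.Lib.MP_5d4057_al.CI.Two
import Pool.Agent.Lib.MP_5d4057_al.CI.Kron
import Pool.Agent.Lib.MP_5d4057_al.CI.Eig
import Pool.Agent.Lib.MP_5d4057_al.CF.Types
import Pool.Agent.Lib.MP_5d4057_al.RG.CommS
import Pool.Agent.Lib.MP_5d4057_al.TW.Pos

/-!
# CI M2: integral traces, finite characters
-/

set_option autoImplicit false

namespace Pool.Agent.Lib.MP_5d4057_al.CI

open Matrix Filter Topology Pool.Agent.Lib.MP_5d4057_al Pool.Agent.Lib.MP_5d4057_al.Hyb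
  Pool.Agent.Lib.MP_5d4057_al.HM Pool.Agent.Lib.MP_5d4057_al.RC Pool.Agent.Lib.MP_5d4057_al.NU
  Pool.Agent.Lib.MP_5d4057_al.CF

open scoped ComplexOrder MatrixOrder Matrix.Norms.L2Operator

variable {k : ℕ}

/-- Powers of a block matrix. -/
theorem dsum_pow {l : ℕ} (c : ℂ) (A : Mat l) (n : ℕ) : dsum c A ^ n = dsum (c ^ n) (A ^ n) := by
  induction n with
  | zero => rw [pow_zero, pow_zero, pow_zero, dsum_one]
  | succ n ih => rw [pow_succ, ih, dsum_mul, pow_succ, pow_succ]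

theorem toMatrix_pow {n : ℕ} (x : SUGroup n) (N : ℕ) : (x ^ N).toMatrix = x.toMatrix ^ N := by
  induction N with
  | zero => rw [pow_zero, pow_zero, toMatrix_one]
  | succ N ih => rw [pow_succ, pow_succ, toMatrix_mul, ih]

/-- The powers of an element in block form. -/
theorem blk_pow {m : ℕ} {g x : SUGroup (m + 1)} {y : SUGroup m} {χ ψ : ℂ}
    (h : (g⁻¹ * x * g).toMatrix = dsum χ (ψ • y.toMatrix)) (N : ℕ) :
    (g⁻¹ * x ^ N * g).toMatrix = dsum (χ ^ N) (ψ ^ N • (y ^ N).toMatrix) := by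
  have h1 : g⁻¹ * x ^ N * g = (g⁻¹ * x * g) ^ N := by
    rw [show g⁻¹ * x * g = g⁻¹ * x * g⁻¹⁻¹ by rw [inv_inv], conj_pow, inv_inv]
  rw [h1, toMatrix_pow, h, dsum_pow, smul_pow, toMatrix_pow]

/-- The character is an eigenvalue. -/
theorem act_nrm_tw {m : ℕ} {g x : SUGroup (m + 1)} {y : SUGroup m} {χ ψ : ℂ}
    (h : (g⁻¹ * x * g).toMatrix = dsum χ (ψ • y.toMatrix)) :
    act x (act g (nrm m)) = χ • act g (nrm m) := by
  have h1 : act (g⁻¹ * x * g) (nrm m) = χ • nrm m := by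
    rw [act, h, nrm, dsum_mulVec_cons, mulVec_zero, mul_one]
    ext i
    refine Fin.cases ?_ (fun i => ?_) i
    · simp
    · simp
  have h3 : g * (g⁻¹ * x * g) = x * g := by group
  have h2 := congrArg (act g) h1
  rw [← act_mul, act_smul, h3] at h2
  rw [← act_mul, h2]

/-- **Finite characters.** PROOF: `piece_types` (CF/Types) for both pieces (`K b`, `Λ' b ≤ Γ b` of finite index);
`rec_of_lattice`, `harm_lat`, `fgg_of_isArith`; `psi_fix` for `Λ'` and every `t` which fixes `K 0` and `K 1`;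
`χ ψ ^ (k + 2) = 1`, so `t (χ ^ (k + 3)) = χ ^ (k + 3)`; `χ` is integral, `star χ * χ = 1`
(`TW.TwEl.scalars`); `kron`. For `γ ∈ Γ b` a fixed power is in `Λ' b`. -/
theorem fin_char_of (hk : 1 ≤ k) {G : Subgroup (SUGroup (k + 2))} (hlat : IsLattice G)
    (hf : FGG G) {Γ : Fin 2 → Subgroup (SUGroup (k + 1))} (hL : ∀ b, IsLattice (Γ b))
    (hA : ∀ b, IsArith (k + 1) (Γ b)) (ρ : ∀ b, Γ b →* SUGroup (k + 2))
    (hρ : ∀ b x, ρ b x ∈ G) {g : Fin 2 → SUGroup (k + 2)} (hg : ∀ b, RG.Twd (ρ b) (g b))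
    (hgen' : G ≤ Subgroup.closure (⋃ b, StabH G (g b))) (hm : Meet (g 0) (g 1))
    (hne : ∀ ζ : ℂ, act (g 1) (nrm (k + 1)) ≠ ζ • act (g 0) (nrm (k + 1)))
    (hχ : ∀ b, ∀ x : Γ b, ∀ c : ℂ, act (ρ b x) (act (g b) (nrm (k + 1))) =
      c • act (g b) (nrm (k + 1)) → IsIntegral ℤ c) (b : Fin 2) :
    ∃ N : ℕ, 0 < N ∧ ∀ x : Γ b, ∀ χ ψ : ℂ,
      ((g b)⁻¹ * ρ b x * g b).toMatrix = dsum χ (ψ • (x : SUGroup (k + 1)).toMatrix) → χ ^ N = 1 := by
  choose K Λ hcm hle hfin hAr _ hty using fun b => piece_types (hA b)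
  have hLΛ : ∀ b, IsLattice (Λ b) := fun b => isLattice_of_relIndex (hL b) (hle b) (hfin b)
  have hRΛ : ∀ b, Rec (Λ b) := fun b =>
    RC.rec_of_lattice (by omega) (hLΛ b) (RC.fgg_of_isArith (hAr b))
  have hR : Rec G := RC.rec_of_lattice (by omega) hlat hf
  have hHL : HLat G := fun t => RC.harm_lat (by omega) hlat hf t
  have htw : ∀ b, TwP G (Λ b) (g b) := by
    intro b y hy
    obtain ⟨χ, ψ, h⟩ := hg b ⟨y, hle b hy⟩
    exact ⟨_, hρ b _, χ, ψ, h⟩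
  obtain ⟨N, hN, hK⟩ := kron (hcm 0) (hcm 1)
  -- the elements of `Λ b`
  have hΛ : ∀ (x : Γ b) (χ ψ : ℂ), (x : SUGroup (k + 1)) ∈ Λ b →
      ((g b)⁻¹ * ρ b x * g b).toMatrix = dsum χ (ψ • (x : SUGroup (k + 1)).toMatrix) →
      χ ^ ((k + 3) * N) = 1 := by
    intro x χ ψ hy h
    obtain ⟨h1, h2, h3⟩ := TW.TwEl.scalars h
    have hi : IsIntegral ℤ χ := hχ b x χ (act_nrm_tw h)
    have hψ0 : ψ ≠ 0 := by
      rintro rfl
      simp at h2
    have hχ : χ ^ (k + 3) = ((ψ ^ (k + 3)) ^ (k + 2))⁻¹ := by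
      have h4 : χ = (ψ ^ (k + 2))⁻¹ := eq_inv_of_mul_eq_one_left h3
      rw [h4, inv_pow, ← pow_mul, ← pow_mul, mul_comm (k + 2) (k + 3)]
    rw [pow_mul]
    refine hK _ (hi.pow _) ?_ ?_
    · rw [star_pow, ← mul_pow, h1, one_pow]
    · intro t ht0 ht1
      have hE : ∀ b, ∃ E : Mat (k + 2), IsUnit E ∧
          ∀ γ ∈ Λ b, γ.toMatrix.map t = E * γ.toMatrix * E⁻¹ := by
        intro b
        refine (hty b t).1 ?_
        fin_cases b
        · exact ht0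
        · exact ht1
      choose E hEu hEt using hE
      have h4 := psi_fix hk hR hHL hLΛ hRΛ htw hgen' hm hne t hEu hEt b (hρ b x) hy h
      rw [hχ, map_inv₀, map_pow, map_pow, h4]
  obtain ⟨M, hM⟩ : ∃ M : ℕ, M = ((Λ b).relIndex (Γ b)).factorial := ⟨_, rfl⟩
  have hM0 : 0 < M := by
    rw [hM]
    exact Nat.factorial_pos _
  refine ⟨M * ((k + 3) * N), by positivity, fun x χ ψ h => ?_⟩
  have hxM : (x : SUGroup (k + 1)) ^ M ∈ Λ b := by
    have h1 := Subgroup.pow_mem_of_relIndex_ne_zero_of_dvd (hfin b) x.2 (n := M)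
      (fun m hm hle => by
        rw [hM]
        exact Nat.dvd_factorial hm hle)
    exact h1.1
  rw [pow_mul]
  refine hΛ (x ^ M) (χ ^ M) (ψ ^ M) ?_ ?_
  · rw [SubgroupClass.coe_pow]
    exact hxM
  · rw [map_pow, SubgroupClass.coe_pow]
    exact blk_pow h M

/-- An eigenvalue of an element of a group with integral traces is integral. -/
theorem integral_of_traces {m : ℕ} {G : Subgroup (SUGroup (m + 1))}
    (hint : ∀ x ∈ G, IsIntegral ℤ x.toMatrix.trace) {x g : SUGroup (m + 1)} (hx : x ∈ G) {c : ℂ}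
    (h : act x (act g (nrm m)) = c • act g (nrm m)) : IsIntegral ℤ c := by
  have hn0 : act g (nrm m) ≠ 0 := by
    intro h0
    have h4 := congrArg (act g⁻¹) h0
    rw [act_inv_act, act, mulVec_zero] at h4
    have := congrFun h4 0
    simp [nrm] at this
  refine integral_eigen (A := x.toMatrix) ?_ hn0 h
  intro i
  rw [← toMatrix_pow]
  exact hint _ (G.pow_mem hx i)

/-- The only invariant line is the line of the normal vector (`TW.not_line`). -/
theorem line_unique {m : ℕ} (hm : 1 ≤ m) {Γ : Subgroup (SUGroup m)} (hL : IsLattice Γ)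
    {ρ : Γ →* SUGroup (m + 1)} {g : SUGroup (m + 1)} (hg : RG.Twd ρ g) {p : Vec (m + 1)}
    (hline : ∀ x : Γ, ∃ c : ℂ, act (ρ x) p = c • p) : ∃ a : ℂ, p = a • act g (nrm m) := by
  obtain ⟨v, hv⟩ : ∃ v : Vec (m + 1), v = act g⁻¹ p := ⟨_, rfl⟩
  have hpv : p = act g v := by rw [hv, act_act_inv]
  obtain ⟨w, hw⟩ : ∃ w : Vec m, v = (Fin.cons (v 0) w : Vec (m + 1)) :=
    ⟨Fin.tail v, (Fin.cons_self_tail v).symm⟩
  -- the action in the frame
  have hact : ∀ x : Γ, ∃ c : ℂ, act (g⁻¹ * ρ x * g) v = c • v := by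
    intro x
    obtain ⟨c, hc⟩ := hline x
    refine ⟨c, ?_⟩
    have h1 : act (g⁻¹ * ρ x * g) v = act g⁻¹ (act (ρ x) p) := by
      rw [hpv, ← act_mul, ← act_mul]
    rw [h1, hc, act_smul, ← hv]
  have hw0 : w = 0 := by
    by_contra hne
    refine TW.not_line hm hL hne fun y hy => ?_
    obtain ⟨χ, ψ, h1⟩ := hg ⟨y, hy⟩
    obtain ⟨-, h2, -⟩ := TW.TwEl.scalars h1
    have hψ0 : ψ ≠ 0 := by
      rintro rfl
      simp at h2
    obtain ⟨c, hc⟩ := hact ⟨y, hy⟩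
    rw [act, h1, hw, dsum_mulVec_cons] at hc
    refine ⟨ψ⁻¹ * c, ?_⟩
    have h3 : (ψ • y.toMatrix) *ᵥ w = c • w := by
      funext i
      have := congrFun hc i.succ
      simpa using this
    rw [smul_mulVec] at h3
    rw [← smul_smul, ← h3, smul_smul, inv_mul_cancel₀ hψ0, one_smul]
    rfl
  have hvn : v = v 0 • nrm m := by
    conv_lhs => rw [hw, hw0]
    ext i
    refine Fin.cases ?_ (fun i => ?_) i
    · simp [nrm]
    · simp [nrm]
  refine ⟨v 0, ?_⟩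
  rw [← act_smul, ← hvn]
  exact hpv

/-- The invariant lines: only the line of the normal vector (`TW.not_line`). -/
theorem finCh_of_pow {m : ℕ} (hm : 1 ≤ m) {Γ : Subgroup (SUGroup m)} (hL : IsLattice Γ)
    {ρ : Γ →* SUGroup (m + 1)} {g : SUGroup (m + 1)} (hg : RG.Twd ρ g)
    (h : ∃ N : ℕ, 0 < N ∧ ∀ x : Γ, ∀ χ ψ : ℂ,
      (g⁻¹ * ρ x * g).toMatrix = dsum χ (ψ • (x : SUGroup m).toMatrix) → χ ^ N = 1) :
    RG.FinCh ρ := by
  obtain ⟨N, hN, hχ⟩ := h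
  intro p hp hline
  obtain ⟨a, ha⟩ := line_unique hm hL hg hline
  refine ⟨N, hN, fun x => ?_⟩
  obtain ⟨χ, ψ, h1⟩ := hg x
  have h2 := act_nrm_tw (blk_pow h1 N)
  rw [hχ x χ ψ h1, one_smul] at h2
  rw [ha, act_smul, h2]

end Pool.Agent.Lib.MP_5d4057_al.CI
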