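import Pool.Agent.Lib.MP_5d4057_al.CF.Conf
import Pool.Agent.Lib.MP_5d4057_al.RC.Nrm

/-!
# CI N1: the normal derivative, equivariant up to unitary characters
-/

set_option autoImplicit false

namespace Pool.Agent.Lib.MP_5d4057_al.CI

open Matrix Filter Topology Pool.Agent.Lib.MP_5d4057_al Pool.Agent.Lib.MP_5d4057_al.Hyb
  Pool.Agent.Lib.MP_5d4057_al.HM Pool.Agent.Lib.MP_5d4057_al.RC Pool.Agent.Lib.MP_5d4057_al.NU
  Pool.Agent.Lib.MP_5d4057_al.CF

open scoped ComplexOrder MatrixOrder Matrix.Norms.L2Operator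

variable {n m j : ℕ} {Γ : Subgroup (SUGroup n)}

/-- `hol_const_rec` of RC/Hol, whose proof uses only the invariance of the absolute value. -/
theorem hol_const_tw (hΓ : Rec Γ) {f : Vec n → ℂ} (hc : ContDiffOn ℝ 1 f (Cone n))
    (hpb : ∀ v ∈ Cone n, ∀ ξ, pb f v ξ = 0) (hh : Homog f)
    (hinv : ∀ γ ∈ Γ, ∀ v ∈ Cone n, ‖f (act γ v)‖ = ‖f v‖) (hg : Pol f) :
    ∀ v ∈ Cone n, f v = f (base n) := by
  have hc2 : ContDiffOn ℝ 2 f (Cone n) := contDiffOn_two_of_pb (isOpen_cone n) hc hpb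
  have hd : ∀ v ∈ Cone n, DifferentiableAt ℝ f v := fun v hv =>
    (hc.contDiffAt (mem_nhds_cone hv)).differentiableAt one_ne_zero
  set ψ : Vec n → ℝ := fun v => ‖f v‖ ^ 2 with hψ
  have hψc : ContDiffOn ℝ 2 ψ (Cone n) := hc2.norm_sq ℝ
  have hψ0 : ∀ v ∈ Cone n, 0 ≤ ψ v := fun v _ => by positivity
  have hψh : Homog ψ := fun c hc0 v hv => by
    show ‖f (c • v)‖ ^ 2 = ‖f v‖ ^ 2
    rw [hh c hc0 v hv]
  have hψp : Pol ψ := by
    obtain ⟨N, C, hC, h⟩ := hg
    refine ⟨2 * N, C ^ 2, by positivity, fun g => ?_⟩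
    rw [Real.norm_of_nonneg (hψ0 _ (orbit_mem g))]
    calc ‖f (act g (base n))‖ ^ 2 ≤ (C * ch g ^ N) ^ 2 :=
          pow_le_pow_left₀ (norm_nonneg _) (h g) 2
      _ = C ^ 2 * ch g ^ (2 * N) := by ring
  have hcx : ∀ v, cx ψ v = star (f v) * f v := by
    intro v
    rw [cx, hψ, RCLike.star_def, mul_comm, Complex.mul_conj, Complex.normSq_eq_norm_sq]
  have hpz : ∀ v ∈ Cone n, ∀ ξ, pz (cx ψ) v ξ = star (f v) * pz f v ξ := by
    intro v hv ξ
    have h1 := hasZ (hd v hv) ξ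
    have h2 := (hasZ_conj h1).mul' h1
    have h3 : cx ψ = fun w => star (f w) * f w := funext hcx
    rw [h3, h2.pz, hpb v hv, star_zero, zero_mul, add_zero]
  have hL : ∀ g : SUGroup n, 0 ≤ Lap (fun v => Real.log (1 + ψ v)) (act g (base n)) := by
    intro g
    have hv := orbit_mem g
    set v := act g (base n) with hvd
    have h1 := lap_log_ge hψh hψc hψ0 g (fun j => ‖pz f v (fr g j)‖ ^ 2) (fun _ => 0)
      (fun j => by positivity) (fun j => ?_) (fun j => ?_)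
    · rw [Finset.sum_const_zero, zero_div] at h1
      exact h1
    · rw [hpz _ hv, norm_mul, norm_star, mul_pow]
    · set ξ := fr g j with hξ
      have e1 : (fun w => pz (cx ψ) w ξ) =ᶠ[𝓝 v] fun w => star (f w) * pz f w ξ := by
        filter_upwards [mem_nhds_cone hv] with w hw
        exact hpz w hw ξ
      have hcv : ContDiffAt ℝ 2 f v := hc2.contDiffAt (mem_nhds_cone hv)
      have z1 := hasZ_conj (hasZ (hd v hv) ξ)
      have z2 : HasZ (fun w => pz f w ξ) v ξ _ _ :=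
        hasZ (hasFDerivAt_pz hcv ξ).differentiableAt ξ
      have z3 : pb (fun w => pz f w ξ) v ξ = 0 := by
        rw [← pz_pb_comm hcv ξ ξ]
        have h3 : (fun w => pb f w ξ) =ᶠ[𝓝 v] fun _ => 0 := by
          filter_upwards [mem_nhds_cone hv] with w hw
          exact hpb w hw ξ
        rw [pz_congr h3, (hasZ_const (0 : ℂ) v ξ).pz]
      rw [← hvd, pb_congr e1, (z1.mul' z2).pb, z3, mul_zero, zero_add, add_zero]
      have e2 : star (pz f v ξ) * pz f v ξ = ((‖pz f v ξ‖ ^ 2 : ℝ) : ℂ) := by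
        rw [RCLike.star_def, mul_comm, Complex.mul_conj, Complex.normSq_eq_norm_sq]
      rw [e2, Complex.ofReal_re]
  have hcu : ContDiffOn ℝ 2 (fun v => Real.log (1 + ψ v)) (Cone n) :=
    (contDiffOn_const.add hψc).log fun v hv => by
      have := hψ0 v hv
      positivity
  have hLall : ∀ v ∈ Cone n, 0 ≤ Lap (fun v => Real.log (1 + ψ v)) v := by
    intro v hv
    obtain ⟨g, c, hc0, rfl⟩ := exists_act_eq hv
    have hhu : Homog fun v => Real.log (1 + ψ v) := fun c hc0 w hw => by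
      show Real.log (1 + ψ (c • w)) = _
      rw [hψh c hc0 w hw]
    rw [homog_lap hhu hcu c hc0 _ (orbit_mem g)]
    exact hL g
  have h1 := hΓ.liou (fun v => Real.log (1 + ψ v)) (fun c hc0 w hw => by
      show Real.log (1 + ψ (c • w)) = _
      rw [hψh c hc0 w hw]) hcu (fun γ hγ v hv => by
      show Real.log (1 + ψ (act γ v)) = Real.log (1 + ψ v)
      rw [hψ]
      simp only [hinv γ hγ v hv]) (logGr_log hψ0 hψp) hLall
  have h2 : ∀ v ∈ Cone n, ‖f v‖ = ‖f (base n)‖ := by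
    intro v hv
    have h3 : Real.log (1 + ψ v) = Real.log (1 + ψ (base n)) := h1 v hv
    have h4 : 0 < 1 + ψ v := by have := hψ0 v hv; positivity
    have h5 : 0 < 1 + ψ (base n) := by have := hψ0 _ (base_mem n); positivity
    have h6 := Real.log_injOn_pos (Set.mem_Ioi.2 h4) (Set.mem_Ioi.2 h5) h3
    have h7 : ‖f v‖ ^ 2 = ‖f (base n)‖ ^ 2 := by
      have : ψ v = ψ (base n) := by linarith
      exact this
    exact (sq_eq_sq₀ (norm_nonneg _) (norm_nonneg _)).1 h7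
  have hdC : DifferentiableOn ℂ f (Cone n) := fun v hv =>
    (differentiableAt_of_pb (hd v hv) (hpb v hv)).differentiableWithinAt
  have h3 := Complex.eqOn_of_isPreconnected_of_isMaxOn_norm (isPreconnected_cone n)
    (isOpen_cone n) hdC (base_mem n) (fun v hv => by
      show ‖f v‖ ≤ ‖f (base n)‖
      rw [h2 v hv])
  intro v hv
  exact h3 hv

/-- `sec_zero_rec` of RC/Hol, whose proof uses only the invariance of `q (y v)`. -/
theorem sec_zero_tw (hΓ : Rec Γ) {y : Vec n → Vec n} (hc : ContDiffOn ℝ 1 y (Cone n))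
    (hh : Homog y) (hinv : ∀ γ ∈ Γ, ∀ v ∈ Cone n, q (y (act γ v)) = q (y v))
    (horth : ∀ v ∈ Cone n, herm v (y v) = 0)
    (hpb : ∀ v ∈ Cone n, ∀ η, pb y v η = -((herm η (y v) / (q v : ℂ)) • v)) (hg : Pol y) :
    ∀ v ∈ Cone n, y v = 0 := by
  have hc2 := sec_cd2 hc horth hpb
  have hd : ∀ v ∈ Cone n, DifferentiableAt ℝ y v := fun v hv =>
    (hc.contDiffAt (mem_nhds_cone hv)).differentiableAt one_ne_zero
  set ψ : Vec n → ℝ := fun v => q (y v) with hψ
  have hcx : ∀ v, cx ψ v = herm (y v) (y v) := fun v => (herm_self _).symm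
  have hψc : ContDiffOn ℝ 2 ψ (Cone n) := by
    have h1 : ψ = fun v => ∑ i : Fin n, ‖y v i.castSucc‖ ^ 2 - ‖y v (Fin.last n)‖ ^ 2 := by
      funext v
      exact q_eq _
    rw [h1]
    have h2 : ∀ i, ContDiffOn ℝ 2 (fun v => ‖y v i‖ ^ 2) (Cone n) := fun i =>
      (contDiffOn_pi.1 hc2 i).norm_sq ℝ
    exact (ContDiffOn.sum fun i _ => h2 _).sub (h2 _)
  have hψ0 : ∀ v ∈ Cone n, 0 ≤ ψ v := fun v hv => q_nonneg_of_orth hv (horth v hv)
  have hψh : Homog ψ := fun c hc0 v hv => by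
    show q (y (c • v)) = q (y v)
    rw [hh c hc0 v hv]
  have hψp : Pol ψ := by
    obtain ⟨N, C, hC, h⟩ := hg
    refine ⟨2 * N, (n + 1) * C ^ 2, by positivity, fun g => ?_⟩
    calc ‖ψ (act g (base n))‖ = |q (y (act g (base n)))| := rfl
      _ ≤ (n + 1) * ‖y (act g (base n))‖ ^ 2 := norm_q_le _
      _ ≤ (n + 1) * (C * ch g ^ N) ^ 2 := by
          have := pow_le_pow_left₀ (norm_nonneg _) (h g) 2
          exact mul_le_mul_of_nonneg_left this (by positivity)
      _ = (n + 1) * C ^ 2 * ch g ^ (2 * N) := by ring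
  -- the derivatives
  have hz : ∀ v ∈ Cone n, ∀ ξ, herm v (pz y v ξ) = 0 := by
    intro v hv ξ
    have h1 := hasZ_herm (hasZ_id v ξ) (hasZ (hd v hv) ξ)
    have h2 : (fun w => herm w (y w)) =ᶠ[𝓝 v] fun _ => 0 := by
      filter_upwards [mem_nhds_cone hv] with w hw
      exact horth w hw
    have h3 := h1.pz
    rw [pz_congr h2, (hasZ_const (0 : ℂ) v ξ).pz] at h3
    have h4 : herm 0 (y v) = 0 := by rw [herm, star_zero, zero_dotProduct]
    rw [h4, add_zero] at h3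
    exact h3.symm
  have hpz : ∀ v ∈ Cone n, ∀ ξ, pz (cx ψ) v ξ = herm (y v) (pz y v ξ) := by
    intro v hv ξ
    have h1 := hasZ (hd v hv) ξ
    have h2 := hasZ_herm h1 h1
    have h3 : cx ψ = fun w => herm (y w) (y w) := funext hcx
    rw [h3, h2.pz, hpb v hv, ← neg_smul, herm_smul_left, horth v hv, mul_zero, add_zero]
  have key : ∀ g : SUGroup n, ψ (act g (base n)) / (1 + ψ (act g (base n))) ≤
      Lap (fun v => Real.log (1 + ψ v)) (act g (base n)) := by
    intro g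
    have hv := orbit_mem g
    have hq := q_orbit g
    set v := act g (base n) with hvd
    have h1 := lap_log_ge hψh hψc hψ0 g (fun j => q (pz y v (fr g j)))
      (fun j => ‖herm (fr g j) (y v)‖ ^ 2)
      (fun j => q_nonneg_of_orth hv (hz v hv _)) (fun j => ?_) (fun j => ?_)
    · rw [sum_fr g (horth v hv)] at h1
      exact h1
    · rw [hpz _ hv]
      exact cauchy_orth hv (horth v hv) (hz v hv _)
    · set ξ := fr g j with hξ
      have e1 : (fun w => pz (cx ψ) w ξ) =ᶠ[𝓝 v] fun w => herm (y w) (pz y w ξ) := by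
        filter_upwards [mem_nhds_cone hv] with w hw
        exact hpz w hw ξ
      have hcv : ContDiffAt ℝ 2 y v := hc2.contDiffAt (mem_nhds_cone hv)
      have z1 := hasZ (hd v hv) ξ
      have z2 : HasZ (fun w => pz y w ξ) v ξ _ _ :=
        hasZ (hasFDerivAt_pz hcv ξ).differentiableAt ξ
      have z3 : herm (y v) (pb (fun w => pz y w ξ) v ξ) = ((‖herm ξ (y v)‖ ^ 2 : ℝ) : ℂ) := by
        have h3 : (fun w => pb y w ξ) =ᶠ[𝓝 v] fun w => -((herm ξ (y w) * (q w : ℂ)⁻¹) • w) := by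
          filter_upwards [mem_nhds_cone hv] with w hw
          rw [hpb w hw, div_eq_mul_inv]
        have h4 : HasZ (fun w => herm ξ (y w)) v ξ _ _ := (hasZ (hd v hv) ξ).clm (hmL n (star ξ))
        have h5 := ((h4.mul' ((hasZ_q v ξ).inv (q_ne hv))).smul (hasZ_id v ξ)).neg
        have e3 : herm (y v) v = 0 := by rw [herm_comm, horth v hv, star_zero]
        have e4 : herm ξ (y v) * herm (y v) ξ = ((‖herm ξ (y v)‖ ^ 2 : ℝ) : ℂ) := by
          rw [herm_comm ξ (y v), RCLike.star_def, Complex.mul_conj, Complex.normSq_eq_norm_sq]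
        rw [← pz_pb_comm hcv ξ ξ, pz_congr h3, h5.pz, herm_neg_right, herm_add_right,
          herm_smul_right, herm_smul_right, e3, mul_zero, add_zero, hq, ← e4]
        push_cast
        ring
      rw [← hvd, pb_congr e1, (hasZ_herm z1 z2).pb, z3, herm_self, ← Complex.ofReal_add,
        Complex.ofReal_re, add_comm]
  have hcu : ContDiffOn ℝ 2 (fun v => Real.log (1 + ψ v)) (Cone n) :=
    (contDiffOn_const.add hψc).log fun v hv => by
      have := hψ0 v hv
      positivity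
  have hhu : Homog fun v => Real.log (1 + ψ v) := fun c hc0 w hw => by
    show Real.log (1 + ψ (c • w)) = _
    rw [hψh c hc0 w hw]
  have hLall : ∀ v ∈ Cone n, 0 ≤ Lap (fun v => Real.log (1 + ψ v)) v := by
    intro v hv
    obtain ⟨g, c, hc0, rfl⟩ := exists_act_eq hv
    rw [homog_lap hhu hcu c hc0 _ (orbit_mem g)]
    refine le_trans ?_ (key g)
    have := hψ0 _ (orbit_mem g)
    positivity
  have h1 := hΓ.liou (fun v => Real.log (1 + ψ v)) hhu hcu (fun γ hγ v hv => by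
      show Real.log (1 + ψ (act γ v)) = Real.log (1 + ψ v)
      rw [hψ]
      simp only [hinv γ hγ v hv]) (logGr_log hψ0 hψp) hLall
  have h2 : ∀ g : SUGroup n, ψ (act g (base n)) = 0 := by
    intro g
    have h3 : (fun v => Real.log (1 + ψ v)) =ᶠ[𝓝 (act g (base n))]
        fun _ => Real.log (1 + ψ (base n)) := by
      filter_upwards [mem_nhds_cone (orbit_mem g)] with w hw
      exact h1 w hw
    have h4 := key g
    have h5 : Lap (fun _ : Vec n => Real.log (1 + ψ (base n))) (act g (base n)) = 0 := by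
      simp [Lap]
    rw [lap_congr h3, h5] at h4
    have h6 := hψ0 _ (orbit_mem g)
    have h7 : 0 < 1 + ψ (act g (base n)) := by linarith
    rw [div_le_iff₀ h7, zero_mul] at h4
    exact le_antisymm h4 h6
  intro v hv
  obtain ⟨g, c, hc0, rfl⟩ := exists_act_eq hv
  rw [hh c hc0 _ (orbit_mem g)]
  by_contra hne
  have h3 := q_pos_of_orth (orbit_mem g) (horth _ (orbit_mem g)) hne
  have h4 : q (y (act g (base n))) = 0 := h2 g
  linarith

/-- The scalars of an element which preserves the hyperplane. -/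
private theorem nt_chi {x : SUGroup (j + 1)} {γ : SUGroup j} {χ ψ : ℂ}
    (hx : x.toMatrix = dsum χ (ψ • γ.toMatrix)) :
    act x (nrm j) = χ • nrm j ∧ (∀ w : Vec j, act x (inc j w) = ψ • inc j (act γ w)) ∧
      ‖χ‖ = 1 ∧ ‖ψ‖ = 1 := by
  have h1 : act x (nrm j) = χ • nrm j := by
    rw [act, hx, nrm, dsum_mulVec_cons, mulVec_zero, mul_one]
    ext i
    refine Fin.cases ?_ (fun i => ?_) i <;> simp
  have h2 : ∀ w : Vec j, act x (inc j w) = ψ • inc j (act γ w) := by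
    intro w
    rw [act, hx, dsum_mulVec_inc, smul_mulVec, map_smul]
    rfl
  have key : ∀ (c : ℂ) (u u' : Vec (j + 1)), q u ≠ 0 → q u' = q u → act x u = c • u' →
      ‖c‖ = 1 := by
    intro c u u' hu huu h
    have h3 := q_act x u
    rw [h, q_smul, huu] at h3
    have h4 : ‖c‖ ^ 2 = 1 := mul_right_cancel₀ hu (by rw [h3, one_mul])
    exact (pow_eq_one_iff_of_nonneg (norm_nonneg c) two_ne_zero).1 h4
  refine ⟨h1, h2, key χ (nrm j) (nrm j) ?_ rfl h1, key ψ (inc j (base j))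
    (inc j (act γ (base j))) ?_ ?_ (h2 _)⟩
  · have h3 : herm (nrm j) (nrm j) = 1 := by
      rw [nrm, herm, J_succ, dsum_mulVec_cons, mulVec_zero, dotProduct, Fin.sum_univ_succ]
      simp
    intro h0
    rw [herm_self, h0, Complex.ofReal_zero] at h3
    exact zero_ne_one h3
  · rw [q_inc, q_base]
    norm_num
  · rw [q_inc, q_inc, q_act]

/-- The normal derivative and an element which preserves the hyperplane. -/
private theorem nt_NN {Γ : Subgroup (SUGroup j)} {G : Vec (j + 1) → Mat (j + 2)} {l a : ℂ}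
    (P : Pce j Γ G l a) {x : SUGroup (j + 1)} {γ : SUGroup j} {χ ψ : ℂ} {D : Mat (j + 2)}
    (hx : x.toMatrix = dsum χ (ψ • γ.toMatrix))
    (hG : ∀ v ∈ Cone (j + 1), G (act x v) = D * G v * Dᴴ) {w : Vec j} (hw : w ∈ Cone j) :
    NN G (act γ w) = (ψ * χ⁻¹) • (D * NN G w * Dᴴ) := by
  obtain ⟨e1, e2, e3, e4⟩ := nt_chi hx
  have hχ : χ ≠ 0 := by
    intro h
    rw [h, norm_zero] at e3
    exact zero_ne_one e3
  have hψ : ψ ≠ 0 := by
    intro h
    rw [h, norm_zero] at e4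
    exact zero_ne_one e4
  have hu := inc_mem hw
  have h1 : HasZ (fun v => G (actC x v)) (inc j w) (nrm j) _ _ :=
    (hasZ (P.harm.diff (act_mem x hu)) (actC x (nrm j))).comp_lin (actC x)
  have h2 : HasZ (fun v => D * G v * Dᴴ) (inc j w) (nrm j) _ _ :=
    (hasZ (P.harm.diff hu) (nrm j)).clm (ContinuousLinearMap.mulLeftRight ℂ (Mat (j + 2)) D Dᴴ)
  have h3 : (fun v => G (actC x v)) =ᶠ[𝓝 (inc j w)] fun v => D * G v * Dᴴ := by
    filter_upwards [mem_nhds_cone hu] with v hv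
    exact hG v hv
  have h4 : pz G (act x (inc j w)) (actC x (nrm j)) = D * pz G (inc j w) (nrm j) * Dᴴ := by
    rw [← h1.pz, pz_congr h3, h2.pz]
    rfl
  rw [actC_apply, e1, e2] at h4
  have hγ : act γ w ∈ Cone j := act_mem γ hw
  have hd := P.harm.diff (smul_mem_cone hψ (inc_mem hγ))
  have h5 : pz G (ψ • inc j (act γ w)) (χ • nrm j) = χ • pz G (ψ • inc j (act γ w)) (nrm j) :=
    ((hasZ hd (nrm j)).smul_dir χ).pz
  have h6 := P.NN_smul hγ hψ
  have h7 : NN G (ψ • act γ w) = pz G (ψ • inc j (act γ w)) (nrm j) := by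
    rw [NN, map_smul]
  rw [h5, ← h7] at h4
  have h8 : D * NN G w * Dᴴ = χ • NN G (ψ • act γ w) := h4.symm
  rw [h8, ← h6, smul_smul, mul_assoc, inv_mul_cancel₀ hχ, mul_one]

private theorem nt_pv {Γ : Subgroup (SUGroup j)} {G : Vec (j + 1) → Mat (j + 2)} {l a : ℂ}
    (P : Pce j Γ G l a) {x : SUGroup (j + 1)} {γ : SUGroup j} {χ ψ χ' ψ' : ℂ}
    (hx : x.toMatrix = dsum χ (ψ • γ.toMatrix)) (hχ' : ‖χ'‖ = 1) (hψ' : ‖ψ'‖ = 1)
    (hG : ∀ v ∈ Cone (j + 1), G (act x v) =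
      dsum χ' (ψ' • γ.toMatrix) * G v * (dsum χ' (ψ' • γ.toMatrix))ᴴ) {w : Vec j}
    (hw : w ∈ Cone j) :
    ∃ c : ℂ, ‖c‖ = 1 ∧ pv G (act γ w) = c • (dsum χ' (ψ' • γ.toMatrix) *ᵥ pv G w) := by
  obtain ⟨-, -, e3, e4⟩ := nt_chi hx
  have s1 : star χ' * χ' = 1 := by
    rw [RCLike.star_def, Complex.conj_mul', hχ']
    norm_num
  have s2 : star ψ' * ψ' = 1 := by
    rw [RCLike.star_def, Complex.conj_mul', hψ']
    norm_num
  have hD : (dsum χ' (ψ' • γ.toMatrix))ᴴ * J (j + 1) * dsum χ' (ψ' • γ.toMatrix) = J (j + 1) := by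
    rw [J_succ, dsum_conjTranspose, dsum_mul, dsum_mul, conjTranspose_smul, Matrix.smul_mul,
      Matrix.smul_mul, Matrix.mul_smul, pres, smul_smul, s2, one_smul, mul_one, s1]
  have h1 : inc j (act γ w) = star ψ' • (dsum χ' (ψ' • γ.toMatrix) *ᵥ inc j w) := by
    rw [dsum_mulVec_inc, smul_mulVec, map_smul, smul_smul, s2, one_smul]
    rfl
  refine ⟨ψ * χ⁻¹ * star ψ', ?_, ?_⟩
  · rw [norm_mul, norm_mul, norm_inv, norm_star, e3, e4, hψ']
    norm_num
  · rw [pv, pv, nt_NN P hx hG hw, h1, Matrix.smul_mul, smul_mulVec, mulVec_smul, mulVec_mulVec,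
      mulVec_neg, mulVec_mulVec, smul_smul, smul_neg]
    congr 3
    calc dsum χ' (ψ' • γ.toMatrix) * NN G w * (dsum χ' (ψ' • γ.toMatrix))ᴴ * J (j + 1) *
          dsum χ' (ψ' • γ.toMatrix)
        = dsum χ' (ψ' • γ.toMatrix) * NN G w * ((dsum χ' (ψ' • γ.toMatrix))ᴴ * J (j + 1) *
          dsum χ' (ψ' • γ.toMatrix)) := by simp only [Matrix.mul_assoc]
      _ = _ := by rw [hD]; simp only [Matrix.mul_assoc]

/-- `nrm_all_rec` of RC/Nrm for `Pce j ⊥ G l a`. PROOF: with `D = dsum χ' (ψ' • γ)`: `χ ψ⁻¹ • NN G (act γ w) = D * NN G w * Dᴴ`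
(`pz` of `G (act x v) = D G v Dᴴ` in the direction `nrm j`, `x nrm = χ nrm`, `x (inc w) = ψ inc (γ w)`, `Pce.NN_smul`), so
`pv G (act γ w) = χ⁻¹ ψ (star ψ') • D *ᵥ pv G w`, and all scalars have absolute value one. -/
theorem nrm_tw {Γ : Subgroup (SUGroup j)} {G : Vec (j + 1) → Mat (j + 2)} {l a : ℂ}
    (P : Pce j (⊥ : Subgroup (SUGroup j)) G l a) (hj : 1 ≤ j) (hΓ : Rec Γ)
    (hD : Pol (fun v => fderiv ℝ G v))
    (htw : ∀ γ ∈ Γ, ∃ (x : SUGroup (j + 1)) (χ ψ χ' ψ' : ℂ),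
      x.toMatrix = dsum χ (ψ • γ.toMatrix) ∧ ‖χ'‖ = 1 ∧ ‖ψ'‖ = 1 ∧
      ∀ v ∈ Cone (j + 1), G (act x v) =
        dsum χ' (ψ' • γ.toMatrix) * G v * (dsum χ' (ψ' • γ.toMatrix))ᴴ) :
    ∃ p : ℂ, ∀ w ∈ Cone j,
      NN G w = (-(q w : ℂ)⁻¹ * p) • vecMulVec (nrm j) (star (inc j w)) := by
  have hc := contDiff_pv P.harm.cd
  have hpol := pol_pv hD
  have htr : ∀ γ ∈ Γ, ∀ w ∈ Cone j, ∃ c d : ℂ, ‖c‖ = 1 ∧ ‖d‖ = 1 ∧
      hd0 j (pv G (act γ w)) = c * hd0 j (pv G w) ∧
      tl j (pv G (act γ w)) = d • act γ (tl j (pv G w)) := by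
    intro γ hγ w hw
    obtain ⟨x, χ, ψ, χ', ψ', hx, hχ', hψ', hG⟩ := htw γ hγ
    obtain ⟨c, hc1, hcv⟩ := nt_pv P hx hχ' hψ' hG hw
    have h : dsum χ' (ψ' • γ.toMatrix) *ᵥ pv G w =
        Fin.cons (χ' * hd0 j (pv G w)) (ψ' • act γ (tl j (pv G w))) := by
      conv_lhs => rw [eq_cons (pv G w)]
      rw [dsum_mulVec_cons, smul_mulVec]
      rfl
    refine ⟨c * χ', c * ψ', by rw [norm_mul, hc1, hχ', one_mul],
      by rw [norm_mul, hc1, hψ', one_mul], ?_, ?_⟩
    · rw [hcv, h, map_smul, smul_eq_mul, mul_assoc]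
      rfl
    · rw [hcv, h, map_smul, mul_smul]
      rfl
  have hy : ∀ w ∈ Cone j, tl j (pv G w) = 0 := by
    refine sec_zero_tw hΓ (y := fun w => tl j (pv G w)) ?_ ?_ ?_ ?_ ?_ ?_
    · exact ((tl j).restrictScalars ℝ).contDiff.comp_contDiffOn hc
    · intro c hc w hw
      show tl j (pv G (c • w)) = tl j (pv G w)
      rw [P.pv_homog c hc w hw]
    · intro γ hγ w hw
      show q (tl j (pv G (act γ w))) = q (tl j (pv G w))
      obtain ⟨c, d, -, hd, -, h2⟩ := htr γ hγ w hw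
      rw [h2, q_smul, q_act, hd, one_pow, one_mul]
    · intro w hw
      show herm w (tl j (pv G w)) = 0
      rw [← herm_inc_tl]
      exact (P.normal hj hw).1
    · intro w hw η
      show pb (fun w => tl j (pv G w)) w η = -((herm η (tl j (pv G w)) / (q w : ℂ)) • w)
      rw [((P.pb_pv hj hw η).clm (tl j)).pb, map_neg, map_smul, tl_inc, herm_inc_tl]
    · exact hpol.clm ((tl j).restrictScalars ℝ)
  have hp : ∀ w ∈ Cone j, hd0 j (pv G w) = hd0 j (pv G (base j)) := by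
    refine hol_const_tw (f := fun w => hd0 j (pv G w)) hΓ ?_ ?_ ?_ ?_ ?_
    · exact ((hd0 j).restrictScalars ℝ).contDiff.comp_contDiffOn hc
    · intro w hw η
      rw [((P.pb_pv hj hw η).clm (hd0 j)).pb, map_neg, map_smul, hd0_apply, inc_zero, smul_zero,
        neg_zero]
    · intro c hc w hw
      show hd0 j (pv G (c • w)) = hd0 j (pv G w)
      rw [P.pv_homog c hc w hw]
    · intro γ hγ w hw
      show ‖hd0 j (pv G (act γ w))‖ = ‖hd0 j (pv G w)‖
      obtain ⟨c, d, hc, -, h1, -⟩ := htr γ hγ w hw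
      rw [h1, norm_mul, hc, one_mul]
    · exact hpol.clm ((hd0 j).restrictScalars ℝ)
  refine ⟨hd0 j (pv G (base j)), fun w hw => ?_⟩
  rw [(P.normal hj hw).2]
  have h2 : pv G w = hd0 j (pv G (base j)) • nrm j := by
    conv_lhs => rw [eq_cons (pv G w), hy _ hw, hp _ hw]
    rw [nrm]
    ext i
    refine Fin.cases ?_ (fun i => ?_) i <;> simp
  rw [h2]
  ext i i'
  simp only [vecMulVec_apply, Pi.smul_apply, Matrix.smul_apply, smul_eq_mul]
  ring

end Pool.Agent.Lib.MP_5d4057_al.CI
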