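import Pool.Agent.Lib.MP_5d4057_al.CI.PairB
import Pool.Agent.Lib.MP_5d4057_al.CF.Int

/-!
# CI P3: two hyperplanes which meet
-/

set_option autoImplicit false

namespace Pool.Agent.Lib.MP_5d4057_al.CI

open Matrix Filter Topology Pool.Agent.Lib.MP_5d4057_al Pool.Agent.Lib.MP_5d4057_al.Hyb
  Pool.Agent.Lib.MP_5d4057_al.HM Pool.Agent.Lib.MP_5d4057_al.RC Pool.Agent.Lib.MP_5d4057_al.NU
  Pool.Agent.Lib.MP_5d4057_al.CF

open scoped ComplexOrder MatrixOrder Matrix.Norms.L2Operator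

variable {n m j : ℕ}

private theorem cons_vecMul_dsum {l : ℕ} (t x : ℂ) (A : Mat l) (v : Fin l → ℂ) :
    (Fin.cons x v : Fin (l + 1) → ℂ) ᵥ* dsum t A = Fin.cons (x * t) (v ᵥ* A) := by
  ext i
  refine Fin.cases ?_ (fun i => ?_) i
  · simp [vecMul, dotProduct, Fin.sum_univ_succ]
  · simp [vecMul, dotProduct, Fin.sum_univ_succ]

private theorem star_nrm (j : ℕ) : star (nrm j) = nrm j := by
  ext i
  refine Fin.cases ?_ (fun i => ?_) i
  · simp [nrm]
  · simp [nrm]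

/-- A matrix whose first row and column are zero off the diagonal. -/
private theorem mulVec_nrm {B : Mat (j + 2)} (h : ∀ i : Fin (j + 1), B i.succ 0 = 0) :
    B *ᵥ nrm j = B 0 0 • nrm j := by
  ext i
  refine Fin.cases ?_ (fun i => ?_) i
  · simp [mulVec, dotProduct, Fin.sum_univ_succ, nrm]
  · simp [mulVec, dotProduct, Fin.sum_univ_succ, nrm, h]

private theorem nrm_vecMul {B : Mat (j + 2)} (h : ∀ i : Fin (j + 1), B 0 i.succ = 0) :
    nrm j ᵥ* B = B 0 0 • nrm j := by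
  ext i
  refine Fin.cases ?_ (fun i => ?_) i
  · simp [vecMul, dotProduct, Fin.sum_univ_succ, nrm]
  · simp [vecMul, dotProduct, Fin.sum_univ_succ, nrm, h]

private theorem exists_orth (hj : 1 ≤ j) (w : Vec j) : ∃ ζ : Vec j, ζ ≠ 0 ∧ herm w ζ = 0 := by
  by_contra hcon
  push Not at hcon
  let f : Vec j →ₗ[ℂ] ℂ :=
    { toFun := fun ζ => herm w ζ
      map_add' := fun a b => herm_add_right w a b
      map_smul' := fun c a => by simp [herm_smul_right] }
  have hinj : Function.Injective f := by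
    rw [← LinearMap.ker_eq_bot, LinearMap.ker_eq_bot']
    intro ζ hζ
    by_contra h0
    exact hcon ζ h0 hζ
  have h1 := LinearMap.finrank_le_finrank_of_injective hinj
  simp at h1
  omega

/-- **The pair lemma.** PROOF (helper33): suppose not; `v = hyp g w = hyp g' w'` (`exists_hyp` of CF/Int), `off_zero` for `h'`
at `w'`. So `e = Q' nrm` is an eigenvector of all `AA F v η` and `ε = star e ᵥ* (F v)⁻¹` (a multiple of the first row of
`Q'⁻¹`) is a row eigenvector. Write `e = Q (cons e₀ e')`; `e' ≠ 0` by `hne`. For `η = hyp g ζ`, `TyU.AA h`: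
`NL w ζ e' = c e'`, so `c = 0` (`NL_mul`), `NL w ζ e' = 0` for all `ζ`, so `herm w e' = 0` (some `prj w ζ ≠ 0`: `1 ≤ j`).
`ε = cons _ ρ ᵥ* Q⁻¹`, `ρ = c (star e' ᵥ* (std w)⁻¹) ≠ 0`: in the same way `ρ ᵥ* NL w ζ = 0`, `ρ ⬝ᵥ prj w ζ = 0`, that is
`herm e' (prj w ζ) = 0` (`std_inv_mulVec`); for `ζ = e'`: `herm e' e' = 0`, against `q_pos_of_orth`. -/
theorem pair_const (hj : 1 ≤ j) {F : Vec (j + 1) → Mat (j + 2)} (hF : Harm F)
    {g g' : SUGroup (j + 1)} {Q Q' : Mat (j + 2)} {u u' : Vec j → ℝ} {a a' : ℂ}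
    (h : TyU F g Q u a) (h' : TyU F g' Q' u' a') (hm : Meet g g')
    (hne : ∀ ζ : ℂ, Q' *ᵥ nrm j ≠ ζ • (Q *ᵥ nrm j)) : ∀ w ∈ Cone j, u' w = u' (base j) := by
  by_contra hcon
  push Not at hcon
  obtain ⟨v, hv, h1, h2⟩ := hm
  obtain ⟨w, hw, e1⟩ := exists_hyp hv h1
  obtain ⟨w', hw', e2⟩ := exists_hyp hv h2
  have hQd : IsUnit Q.det := (Matrix.isUnit_iff_isUnit_det _).1 h.unit
  have hQd' : IsUnit Q'.det := (Matrix.isUnit_iff_isUnit_det _).1 h'.unit
  -- the matrices of the first hyperplane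
  have hB : ∀ η : Vec (j + 1), ∃ c : ℂ,
      AA F v η *ᵥ (Q' *ᵥ nrm j) = c • (Q' *ᵥ nrm j) ∧
      (nrm j ᵥ* Q'⁻¹) ᵥ* AA F v η = c • (nrm j ᵥ* Q'⁻¹) := by
    intro η
    have h3 := off_zero hF h' hcon hw' η
    rw [e2] at h3
    have h4 := mulVec_nrm fun i => (h3 i).1
    have h5 := nrm_vecMul fun i => (h3 i).2
    obtain ⟨c, hc⟩ : ∃ c : ℂ, c = (Q'⁻¹ * AA F v η * Q') 0 0 := ⟨_, rfl⟩
    rw [← hc] at h4 h5
    refine ⟨c, ?_, ?_⟩
    · have h6 : Q' * (Q'⁻¹ * AA F v η * Q') = AA F v η * Q' := by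
        rw [← Matrix.mul_assoc, ← Matrix.mul_assoc, Matrix.mul_nonsing_inv _ hQd', Matrix.one_mul]
      rw [mulVec_mulVec, ← h6, ← mulVec_mulVec, h4, mulVec_smul]
    · have h6 : (Q'⁻¹ * AA F v η * Q') * Q'⁻¹ = Q'⁻¹ * AA F v η := by
        rw [Matrix.mul_assoc, Matrix.mul_nonsing_inv _ hQd', Matrix.mul_one]
      rw [vecMul_vecMul, ← h6, ← vecMul_vecMul, h5, smul_vecMul]
  -- coordinates
  set x : Vec (j + 1) := Q⁻¹ *ᵥ (Q' *ᵥ nrm j) with hx
  set e' : Vec j := fun i => x i.succ with he'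
  set y : Vec (j + 1) := (nrm j ᵥ* Q'⁻¹) ᵥ* Q with hy
  set y' : Vec j := fun i => y i.succ with hy'
  have hxc : x = Fin.cons (x 0) e' := eq_cons x
  have hyc : y = Fin.cons (y 0) y' := eq_cons y
  have hQx : Q *ᵥ x = Q' *ᵥ nrm j := by
    rw [hx, mulVec_mulVec, Matrix.mul_nonsing_inv _ hQd, one_mulVec]
  have hyQ : y ᵥ* Q⁻¹ = nrm j ᵥ* Q'⁻¹ := by
    rw [hy, vecMul_vecMul, Matrix.mul_nonsing_inv _ hQd, vecMul_one]
  have he0 : e' ≠ 0 := by
    intro h0
    refine hne (x 0) ?_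
    rw [← hQx, ← mulVec_smul]
    congr 1
    rw [hxc, h0]
    ext i
    refine Fin.cases ?_ (fun i => ?_) i
    · simp [nrm]
    · simp [nrm]
  have hN : ∀ ζ : Vec j, NL w ζ *ᵥ e' = 0 ∧ y' ᵥ* NL w ζ = 0 := by
    intro ζ
    obtain ⟨c, h3, h4⟩ := hB (HM.hyp g ζ)
    have h5 := h.AA hF hw ζ
    rw [e1] at h5
    set α : ℂ := pz (cx u) w ζ with hα
    set D : Mat (j + 2) := dsum ((j + 1) * α) ((-α) • (1 : Mat (j + 1)) + NL w ζ) with hD
    have h6 : D *ᵥ x = c • x := by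
      have h7 : Q⁻¹ *ᵥ (AA F v (HM.hyp g ζ) *ᵥ (Q' *ᵥ nrm j)) = c • x := by
        rw [h3, mulVec_smul]
      rw [h5, ← hQx, mulVec_mulVec, mulVec_mulVec] at h7
      rw [← h7]
      congr 1
      rw [← Matrix.mul_assoc, ← Matrix.mul_assoc, Matrix.nonsing_inv_mul _ hQd, Matrix.one_mul,
        Matrix.mul_assoc, Matrix.nonsing_inv_mul _ hQd, Matrix.mul_one]
    have h8 : y ᵥ* D = c • y := by
      have h7 : ((nrm j ᵥ* Q'⁻¹) ᵥ* AA F v (HM.hyp g ζ)) ᵥ* Q = c • y := by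
        rw [h4, smul_vecMul]
      rw [h5, ← hyQ, vecMul_vecMul, vecMul_vecMul] at h7
      rw [← h7]
      congr 1
      rw [Matrix.mul_assoc, Matrix.mul_assoc, Matrix.nonsing_inv_mul _ hQd,
        Matrix.mul_one, ← Matrix.mul_assoc, Matrix.nonsing_inv_mul _ hQd, Matrix.one_mul]
    have h9 : NL w ζ *ᵥ e' = (c + α) • e' := by
      rw [hxc, hD, dsum_mulVec_cons] at h6
      have h10 : ((-α) • (1 : Mat (j + 1)) + NL w ζ) *ᵥ e' = c • e' := by
        funext i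
        have := congrFun h6 i.succ
        simpa using this
      rw [add_mulVec, smul_mulVec, one_mulVec] at h10
      have : NL w ζ *ᵥ e' = c • e' - (-α) • e' := by rw [← h10]; abel
      rw [this]
      module
    have h10 : y' ᵥ* NL w ζ = (c + α) • y' := by
      rw [hyc, hD, cons_vecMul_dsum] at h8
      have h10 : y' ᵥ* ((-α) • (1 : Mat (j + 1)) + NL w ζ) = c • y' := by
        funext i
        have := congrFun h8 i.succ
        simpa using this
      rw [vecMul_add, vecMul_smul, vecMul_one] at h10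
      have : y' ᵥ* NL w ζ = c • y' - (-α) • y' := by rw [← h10]; abel
      rw [this]
      module
    have h11 : c + α = 0 := by
      have h12 : (c + α) • (c + α) • e' = 0 := by
        rw [← h9, ← mulVec_smul, ← h9, mulVec_mulVec, NL_mul hw, zero_mulVec]
      rw [smul_smul] at h12
      rcases smul_eq_zero.1 h12 with h13 | h13
      · exact mul_self_eq_zero.1 h13
      · exact absurd h13 he0
    rw [h9, h10, h11, zero_smul, zero_smul]
    exact ⟨rfl, rfl⟩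
  have hq := q_ne hw
  -- the column
  have hcol : herm w e' = 0 := by
    obtain ⟨ζ, hζ, hζw⟩ := exists_orth hj w
    have h3 := (hN ζ).1
    rw [NL, smul_mulVec, vmv, ← herm_eq', prj_eq hζw, smul_smul] at h3
    rcases smul_eq_zero.1 h3 with h4 | h4
    · rcases mul_eq_zero.1 h4 with h5 | h5
      · rcases mul_eq_zero.1 h5 with h6 | h6
        · norm_num at h6
        · exact absurd (inv_eq_zero.1 h6) hq
      · exact h5
    · exact absurd h4 hζ
  -- the row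
  have hrow : ∀ ζ : Vec j, y' ⬝ᵥ prj w ζ = 0 := by
    intro ζ
    have h3 := (hN ζ).2
    rw [NL, vecMul_smul, vecMul_vecMulVec] at h3
    have h4 : ((2 * (q w : ℂ)⁻¹) • ((y' ⬝ᵥ prj w ζ) • (star w ᵥ* J j))) ⬝ᵥ w = 0 := by
      rw [h3, zero_dotProduct]
    rw [smul_dotProduct, smul_dotProduct, ← herm_eq', herm_self] at h4
    simp only [smul_eq_mul] at h4
    rcases mul_eq_zero.1 h4 with h5 | h5
    · rcases mul_eq_zero.1 h5 with h6 | h6
      · norm_num at h6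
      · exact absurd (inv_eq_zero.1 h6) hq
    · rcases mul_eq_zero.1 h5 with h6 | h6
      · exact h6
      · exact absurd h6 hq
  -- the relation of the row and the column
  have hrel : ∃ c : ℂ, c ≠ 0 ∧ y' ᵥ* std w = c • star e' := by
    have h3 := h.slice w hw
    have h4 := h'.slice w' hw'
    rw [e1] at h3
    rw [e2] at h4
    have h5 : (nrm j ᵥ* Q'⁻¹) ᵥ* F v =
        ((Real.exp ((j + 1) * u' w') : ℝ) : ℂ) • star (Q' *ᵥ nrm j) := by
      rw [h4, ← vecMul_vecMul, ← vecMul_vecMul, vecMul_vecMul _ Q'⁻¹,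
        Matrix.nonsing_inv_mul _ hQd', vecMul_one, star_mulVec, star_nrm, ← smul_vecMul]
      congr 1
      rw [ublk, nrm, cons_vecMul_dsum]
      ext i
      refine Fin.cases ?_ (fun i => ?_) i
      · simp
      · simp
    have h6 : y ᵥ* ublk u a std w = ((Real.exp ((j + 1) * u' w') : ℝ) : ℂ) • star x := by
      have h7 : (nrm j ᵥ* Q'⁻¹) ᵥ* F v ᵥ* (Qᴴ)⁻¹ =
          ((Real.exp ((j + 1) * u' w') : ℝ) : ℂ) • star x := by
        rw [h5, smul_vecMul, hx, star_mulVec _ (Q' *ᵥ nrm j), conjTranspose_nonsing_inv]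
      rw [← h7, h3, ← hyQ, ← vecMul_vecMul, ← vecMul_vecMul, vecMul_vecMul _ Q⁻¹,
        Matrix.nonsing_inv_mul _ hQd, vecMul_one, vecMul_vecMul _ Qᴴ, Matrix.mul_nonsing_inv,
        vecMul_one]
      rw [det_conjTranspose]
      exact hQd.star
    have h8 : y' ᵥ* ((a * ((Real.exp (-u w) : ℝ) : ℂ)) • std w) =
        ((Real.exp ((j + 1) * u' w') : ℝ) : ℂ) • star e' := by
      rw [hyc, ublk, cons_vecMul_dsum] at h6
      funext i
      have := congrFun h6 i.succ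
      simpa using this
    rw [vecMul_smul] at h8
    have ha : a * ((Real.exp (-u w) : ℝ) : ℂ) ≠ 0 := by
      refine mul_ne_zero h.ha.ne' ?_
      exact_mod_cast (Real.exp_pos _).ne'
    refine ⟨(a * ((Real.exp (-u w) : ℝ) : ℂ))⁻¹ * ((Real.exp ((j + 1) * u' w') : ℝ) : ℂ), ?_, ?_⟩
    · refine mul_ne_zero (inv_ne_zero ha) ?_
      exact_mod_cast (Real.exp_pos _).ne'
    · rw [← smul_smul, ← h8, smul_smul, inv_mul_cancel₀ ha, one_smul]
  obtain ⟨c, hc, hrel⟩ := hrel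
  have h3 : y' ⬝ᵥ e' = 0 := by
    have := hrow e'
    rwa [prj_eq hcol] at this
  have h4 : std w *ᵥ (J j *ᵥ e') = e' := by
    have hu : IsUnit (std w).det :=
      (Matrix.isUnit_iff_isUnit_det _).1 (std_posDef hw).isUnit
    rw [← std_inv_mulVec hw hcol, mulVec_mulVec, Matrix.mul_nonsing_inv _ hu, one_mulVec]
  have h5 : c * (q e' : ℂ) = 0 := by
    have h6 : y' ⬝ᵥ (std w *ᵥ (J j *ᵥ e')) = c * (q e' : ℂ) := by
      rw [dotProduct_mulVec, hrel, smul_dotProduct, smul_eq_mul, ← herm_self]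
      rfl
    rw [← h6, h4, h3]
  rcases mul_eq_zero.1 h5 with h6 | h6
  · exact hc h6
  · have h7 := q_pos_of_orth hw hcol he0
    exact h7.ne' (by exact_mod_cast h6)

end Pool.Agent.Lib.MP_5d4057_al.CI
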