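import Pool.Agent.Lib.MP_5d4057_al.CI.SliceC

/-!
# CI P1: the commuting endomorphisms `AA F v ξ = (∂_ξ F) F⁻¹`
-/

set_option autoImplicit false

namespace Pool.Agent.Lib.MP_5d4057_al.CI

open Matrix Filter Topology Pool.Agent.Lib.MP_5d4057_al Pool.Agent.Lib.MP_5d4057_al.Hyb
  Pool.Agent.Lib.MP_5d4057_al.HM Pool.Agent.Lib.MP_5d4057_al.RC Pool.Agent.Lib.MP_5d4057_al.NU
  Pool.Agent.Lib.MP_5d4057_al.CF

open scoped ComplexOrder MatrixOrder Matrix.Norms.L2Operator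

variable {n m j : ℕ}

/-- The endomorphism `(∂_ξ F) F⁻¹`. -/
noncomputable def AA (F : Vec n → Mat m) (v ξ : Vec n) : Mat m := pz F v ξ * (F v)⁻¹

theorem AA_comm {F : Vec n → Mat m} (hF : Harm F) {v : Vec n} (hv : v ∈ Cone n) (ξ η : Vec n) :
    AA F v ξ * AA F v η = AA F v η * AA F v ξ := by
  have h : pz F v ξ * (F v)⁻¹ * pz F v η = pz F v η * (F v)⁻¹ * pz F v ξ := hF.comm v hv ξ η
  rw [AA, AA, ← Matrix.mul_assoc, h, Matrix.mul_assoc]

/-- The nilpotent endomorphism of the standard metric. -/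
noncomputable def NL (w ζ : Vec j) : Mat (j + 1) :=
  (2 * (q w : ℂ)⁻¹) • vecMulVec (prj w ζ) (star w ᵥ* J j)

theorem NL_mul {w : Vec j} (hw : w ∈ Cone j) (ζ : Vec j) : NL w ζ * NL w ζ = 0 := by
  rw [NL, Matrix.smul_mul, Matrix.mul_smul, vmm, ← herm_eq', herm_prj hw, zero_smul, smul_zero,
    smul_zero]

/-- `stdA w ζ * (std w)⁻¹ = NL w ζ` (`std_inv_self`, `std_herm`). -/
theorem stdA_std_inv {w : Vec j} (hw : w ∈ Cone j) (ζ : Vec j) :
    stdA w ζ * (std w)⁻¹ = NL w ζ := by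
  have h1 : star w ᵥ* (std w)⁻¹ = -(star w ᵥ* J j) := by
    have h2 := congrArg star (std_inv_self hw)
    rw [star_mulVec, star_neg, star_mulVec, (std_herm w).inv.eq, J_herm] at h2
    exact h2
  rw [stdA, NL, Matrix.smul_mul, vecMulVec_mul, h1, vecMulVec_neg, smul_neg, ← neg_smul]
  congr 1
  ring

/-- `HasZ` of `exp (k u)`. -/
private theorem pa_exp {u : Vec n → ℝ} {v : Vec n} (h : DifferentiableAt ℝ u v) (k : ℝ)
    (ξ : Vec n) : HasZ (fun w => ((Real.exp (k * u w) : ℝ) : ℂ)) v ξ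
      (((Real.exp (k * u v) : ℝ) : ℂ) * (k * pz (cx u) v ξ))
      (((Real.exp (k * u v) : ℝ) : ℂ) * (k * pb (cx u) v ξ)) := by
  have h0 : DifferentiableAt ℝ (cx u) v := Complex.ofRealCLM.differentiableAt.comp v h
  have h1 := (hasZ h0 ξ).const_smul (k : ℂ)
  have h2 := h1.comp_holo (Complex.hasDerivAt_exp ((k : ℂ) • cx u v)).hasFDerivAt
  have h3 : ∀ w, Complex.exp ((k : ℂ) • cx u w) = ((Real.exp (k * u w) : ℝ) : ℂ) := by
    intro w
    rw [cx, smul_eq_mul, Complex.ofReal_exp]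
    push_cast
    rfl
  have h4 := h2.congr (g := fun w => ((Real.exp (k * u w) : ℝ) : ℂ))
    (Eventually.of_forall fun w => (h3 w).symm)
  refine HasZ.of_eq h4 ?_ ?_
  · rw [ContinuousLinearMap.toSpanSingleton_apply, h3, smul_eq_mul, smul_eq_mul]
    ring
  · rw [ContinuousLinearMap.toSpanSingleton_apply, h3, smul_eq_mul, smul_eq_mul]
    ring

private theorem pa_dsum (l : ℂ) (A : Mat m) : dsum l A = l • dsum 1 (0 : Mat m) + dsL m A := by
  rw [dsL_apply]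
  ext i k
  refine Fin.cases ?_ (fun i => ?_) i <;> refine Fin.cases ?_ (fun k => ?_) k <;> simp

/-- Block sums. -/
private theorem pa_hasZ {f : Vec n → ℂ} {M : Vec n → Mat m} {v ξ : Vec n} {a b : ℂ}
    {x y : Mat m} (hf : HasZ f v ξ a b) (h : HasZ M v ξ x y) :
    HasZ (fun w => dsum (f w) (M w)) v ξ (dsum a x) (dsum b y) := by
  have h1 := (hf.smul (hasZ_const (Hyb.dsum 1 (0 : Mat m)) v ξ)).add (h.clm (dsL m))
  have h2 := h1.congr (g := fun w => Hyb.dsum (f w) (M w))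
    (Eventually.of_forall fun w => pa_dsum (f w) (M w))
  refine HasZ.of_eq h2 ?_ ?_
  · rw [smul_zero, zero_add, ← pa_dsum]
  · rw [smul_zero, zero_add, ← pa_dsum]

/-- Along the hyperplane (`HasZ.comp_lin` with `HM.hyp g`; `hasZ_exp` of `SliceC`). -/
theorem TyU.AA {F : Vec (j + 1) → Mat (j + 2)} (hF : Harm F) {g : SUGroup (j + 1)}
    {Q : Mat (j + 2)} {u : Vec j → ℝ} {a : ℂ} (h : TyU F g Q u a) {w : Vec j} (hw : w ∈ Cone j)
    (ζ : Vec j) :
    CI.AA F (HM.hyp g w) (HM.hyp g ζ) =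
      Q * dsum ((j + 1) * pz (cx u) w ζ) ((-(pz (cx u) w ζ)) • (1 : Mat (j + 1)) + NL w ζ) *
        Q⁻¹ := by
  have hud : DifferentiableAt ℝ u w :=
    (h.ph.cd.contDiffAt ((isOpen_cone j).mem_nhds hw)).differentiableAt (by norm_num)
  obtain ⟨p, hp⟩ : ∃ p, p = pz (cx u) w ζ := ⟨_, rfl⟩
  obtain ⟨E, hE⟩ : ∃ E : ℂ, E = ((Real.exp ((j + 1) * u w) : ℝ) : ℂ) := ⟨_, rfl⟩
  obtain ⟨E', hE'⟩ : ∃ E' : ℂ, E' = ((Real.exp (-u w) : ℝ) : ℂ) := ⟨_, rfl⟩
  have hE0 : E ≠ 0 := by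
    rw [hE]
    exact_mod_cast (Real.exp_pos _).ne'
  have hE0' : E' ≠ 0 := by
    rw [hE']
    exact_mod_cast (Real.exp_pos _).ne'
  have ha0 : a ≠ 0 := h.ha.ne'
  have e1 := pa_exp hud ((j : ℝ) + 1) ζ
  have e2 := pa_exp hud (-1) ζ
  have e2' : HasZ (fun w => ((Real.exp (-u w) : ℝ) : ℂ)) w ζ (E' * (-p))
      (E' * (-pb (cx u) w ζ)) := by
    have h3 := e2.congr (g := fun w => ((Real.exp (-u w) : ℝ) : ℂ))
      (Eventually.of_forall fun w => by simp only [neg_one_mul])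
    refine HasZ.of_eq h3 ?_ ?_
    · rw [neg_one_mul, ← hE', hp]
      push_cast
      ring
    · rw [neg_one_mul, ← hE']
      push_cast
      ring
  have e3 := (e2'.const_smul a).smul (hasZ_std hw ζ)
  have e4 := pa_hasZ e1 e3
  rw [← hE, ← hE', ← hp] at e4
  have e5 := ((hasZ_const Q w ζ).mul e4).mul (hasZ_const Qᴴ w ζ)
  have hnb : ∀ᶠ w' in 𝓝 w, w' ∈ Cone j := (isOpen_cone j).mem_nhds hw
  have e6 := e5.congr (g := fun w => F (HM.hyp g w)) (by
    filter_upwards [hnb] with w' hw'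
    rw [h.slice w' hw', ublk]
    rfl)
  have hFd : DifferentiableAt ℝ F (HM.hyp g w) := hF.diff (HM.hyp_mem g hw)
  have e7 := (hasZ hFd (HM.hyp g ζ)).comp_lin (HM.hyp g)
  have e8 : pz F (HM.hyp g w) (HM.hyp g ζ) = _ := e7.pz.symm.trans e6.pz
  have hQ : Q⁻¹ * Q = 1 := Matrix.nonsing_inv_mul _ ((Matrix.isUnit_iff_isUnit_det _).1 h.unit)
  have hFi : F (HM.hyp g w) * (F (HM.hyp g w))⁻¹ = 1 := Matrix.mul_nonsing_inv _
    ((Matrix.isUnit_iff_isUnit_det _).1 (hF.unit (HM.hyp_mem g hw)))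
  have hs : NL w ζ * std w = stdA w ζ := by
    rw [← stdA_std_inv hw, Matrix.mul_assoc, Matrix.nonsing_inv_mul _
      ((Matrix.isUnit_iff_isUnit_det _).1 (std_posDef hw).isUnit), Matrix.mul_one]
  have e9 : dsum ((j + 1) * p) ((-p) • (1 : Mat (j + 1)) + NL w ζ) * dsum E ((a * E') • std w) =
      dsum (E * (((j : ℝ) + 1 : ℝ) * p)) ((a • E') • stdA w ζ + (a • (E' * -p)) • std w) := by
    rw [dsum_mul, Matrix.add_mul, Matrix.smul_mul, Matrix.one_mul, Matrix.mul_smul, hs, smul_smul,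
      smul_eq_mul, smul_eq_mul, add_comm ((-p * (a * E')) • std w)]
    congr 1
    · push_cast
      ring
    · congr 2
      ring
  have e10 : pz F (HM.hyp g w) (HM.hyp g ζ) =
      Q * dsum ((j + 1) * p) ((-p) • (1 : Mat (j + 1)) + NL w ζ) * Q⁻¹ * F (HM.hyp g w) := by
    rw [e8, Matrix.mul_zero, Matrix.zero_mul, zero_add, add_zero, ← e9, h.slice w hw, ublk, ← hE,
      ← hE']
    have e11 : ∀ A B : Mat (j + 2), Q * A * Q⁻¹ * (Q * B * Qᴴ) = Q * (A * B) * Qᴴ := by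
      intro A B
      calc Q * A * Q⁻¹ * (Q * B * Qᴴ) = Q * A * (Q⁻¹ * Q) * B * Qᴴ := by
            simp only [Matrix.mul_assoc]
        _ = _ := by rw [hQ, Matrix.mul_one]; simp only [Matrix.mul_assoc]
    rw [e11]
  rw [CI.AA, e10, Matrix.mul_assoc, hFi, Matrix.mul_one, ← hp]

private theorem pa_blk (s : ℂ) (A : Mat m) (B : Mat (m + 1)) (i : Fin m) :
    (B * dsum s A) i.succ 0 = B i.succ 0 * s ∧
    (dsum s A * B) i.succ 0 = (A *ᵥ fun k => B k.succ 0) i ∧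
    (B * dsum s A) 0 i.succ = ((fun k => B 0 k.succ) ᵥ* A) i ∧
    (dsum s A * B) 0 i.succ = s * B 0 i.succ := by
  refine ⟨?_, ?_, ?_, ?_⟩
  · rw [Matrix.mul_apply, Fin.sum_univ_succ, dsum_zero_zero]
    simp
  · rw [Matrix.mul_apply, Fin.sum_univ_succ, dsum_succ_zero, zero_mul, zero_add]
    simp [mulVec, dotProduct]
  · rw [Matrix.mul_apply, Fin.sum_univ_succ, dsum_zero_succ, mul_zero, zero_add]
    simp [vecMul, dotProduct]
  · rw [Matrix.mul_apply, Fin.sum_univ_succ, dsum_zero_zero]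
    simp

/-- Matrices which commute with a block matrix with different eigenvalues. -/
theorem off_of_comm {α : ℂ} (hα : α ≠ 0) {N : Mat (j + 1)} (hN : N * N = 0) {B : Mat (j + 2)}
    (hB : B * dsum ((j + 1) * α) ((-α) • (1 : Mat (j + 1)) + N) =
      dsum ((j + 1) * α) ((-α) • (1 : Mat (j + 1)) + N) * B) (i : Fin (j + 1)) :
    B i.succ 0 = 0 ∧ B 0 i.succ = 0 := by
  obtain ⟨c, hc⟩ : ∃ c : ℂ, c = (j + 2) * α := ⟨_, rfl⟩
  have hc0 : c ≠ 0 := by
    rw [hc]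
    refine mul_ne_zero ?_ hα
    exact_mod_cast (Nat.succ_ne_zero (j + 1))
  obtain ⟨x, hx⟩ : ∃ x : Fin (j + 1) → ℂ, x = fun i => B i.succ 0 := ⟨_, rfl⟩
  obtain ⟨y, hy⟩ : ∃ y : Fin (j + 1) → ℂ, y = fun i => B 0 i.succ := ⟨_, rfl⟩
  have h1 : N *ᵥ x = c • x := by
    funext i
    have hb := pa_blk ((j + 1) * α) ((-α) • (1 : Mat (j + 1)) + N) B i
    have h := hb.1.symm.trans ((congrFun (congrFun hB i.succ) 0).trans hb.2.1)
    rw [← hx, add_mulVec, smul_mulVec, one_mulVec, Pi.add_apply, Pi.smul_apply, smul_eq_mul] at h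
    have hxi : x i = B i.succ 0 := by rw [hx]
    rw [← hxi] at h
    rw [Pi.smul_apply, smul_eq_mul, hc]
    linear_combination -h
  have h2 : y ᵥ* N = c • y := by
    funext i
    have hb := pa_blk ((j + 1) * α) ((-α) • (1 : Mat (j + 1)) + N) B i
    have h := hb.2.2.1.symm.trans ((congrFun (congrFun hB 0) i.succ).trans hb.2.2.2)
    rw [← hy, vecMul_add, vecMul_smul, vecMul_one, Pi.add_apply, Pi.smul_apply, smul_eq_mul] at h
    have hyi : y i = B 0 i.succ := by rw [hy]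
    rw [← hyi] at h
    rw [Pi.smul_apply, smul_eq_mul, hc]
    linear_combination h
  have h3 : x = 0 := by
    have h4 : N *ᵥ (N *ᵥ x) = 0 := by rw [mulVec_mulVec, hN, zero_mulVec]
    rw [h1, mulVec_smul, h1, smul_smul] at h4
    exact (smul_eq_zero.1 h4).resolve_left (mul_ne_zero hc0 hc0)
  have h5 : y = 0 := by
    have h4 : (y ᵥ* N) ᵥ* N = 0 := by rw [vecMul_vecMul, hN, vecMul_zero]
    rw [h2, smul_vecMul, h2, smul_smul] at h4
    exact (smul_eq_zero.1 h4).resolve_left (mul_ne_zero hc0 hc0)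
  exact ⟨by rw [hx] at h3; exact congrFun h3 i, by rw [hy] at h5; exact congrFun h5 i⟩

end Pool.Agent.Lib.MP_5d4057_al.CI
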