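import Pool.Agent.Lib.MP_5d4057_al.CI.PairA
import Pool.Agent.Lib.MP_5d4057_al.RG.UC

/-!
# CI P2: the line and the complement of a piece with a character are invariant at every point of the hyperplane
-/

set_option autoImplicit false

namespace Pool.Agent.Lib.MP_5d4057_al.CI

open Matrix Filter Topology Pool.Agent.Lib.MP_5d4057_al Pool.Agent.Lib.MP_5d4057_al.Hyb
  Pool.Agent.Lib.MP_5d4057_al.HM Pool.Agent.Lib.MP_5d4057_al.RC Pool.Agent.Lib.MP_5d4057_al.NU
  Pool.Agent.Lib.MP_5d4057_al.CF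

open scoped ComplexOrder MatrixOrder Matrix.Norms.L2Operator

variable {n m j : ℕ}

private theorem pb_cda {E : Type} [NormedAddCommGroup E] [NormedSpace ℂ E] {f : Vec n → E}
    {v : Vec n} (h : ContDiffAt ℝ 2 f v) (ξ : Vec n) :
    ContDiffAt ℝ 1 (fun w => pz f w ξ) v := by
  have h1 : ContDiffAt ℝ 1 (fderiv ℝ f) v := h.fderiv_right (by norm_num)
  exact ((h1.clm_apply contDiffAt_const).sub
    ((h1.clm_apply contDiffAt_const).const_smul Complex.I)).const_smul (1 / 2 : ℂ)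

/-- PROOF: if all derivatives of `u` vanish near a point of the cone, then by `RG.uc` (with `y = pz (cx u) · ξ`, `pb = 0`)
they vanish on the cone, and `u` is constant (preconnected). -/
theorem dense_ne {u : Vec n → ℝ} (hu : PH u) (hne : ∃ w ∈ Cone n, u w ≠ u (base n)) {w : Vec n}
    (hw : w ∈ Cone n) {U : Set (Vec n)} (hU : U ∈ 𝓝 w) :
    ∃ w' ∈ U, w' ∈ Cone n ∧ ∃ ζ : Vec n, pz (cx u) w' ζ ≠ 0 := by
  by_contra hcon
  push Not at hcon
  have hcd : ∀ v ∈ Cone n, ContDiffAt ℝ 2 (cx u) v := fun v hv =>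
    cd_cx (hu.cd.contDiffAt (mem_nhds_cone hv))
  obtain ⟨y, hy⟩ : ∃ y : Vec n → Fin (n + 1) → ℂ, y = fun v i => pz (cx u) v (Pi.single i 1) :=
    ⟨_, rfl⟩
  have hyd : ∀ v ∈ Cone n, ∀ i, ContDiffAt ℝ 1 (fun v => pz (cx u) v (Pi.single i 1)) v :=
    fun v hv i => pb_cda (hcd v hv) _
  have hyc : ContDiffOn ℝ 1 y (Cone n) := by
    intro v hv
    rw [hy]
    exact (contDiffAt_pi.2 fun i => hyd v hv i).contDiffWithinAt
  have hpb : ∀ v ∈ Cone n, ∀ ξ, pb y v ξ = 0 := by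
    intro v hv ξ
    have hd : DifferentiableAt ℝ y v :=
      (hyc.contDiffAt (mem_nhds_cone hv)).differentiableAt (by norm_num)
    funext i
    have h1 := (hasZ hd ξ).clm (ContinuousLinearMap.proj (R := ℂ) (φ := fun _ : Fin (n + 1) => ℂ) i)
    have h2 := h1.pb
    have h3 : (fun w => (ContinuousLinearMap.proj (R := ℂ) (φ := fun _ : Fin (n + 1) => ℂ) i)
        (y w)) = fun w => pz (cx u) w (Pi.single i 1) := by
      funext w
      rw [hy]
      rfl
    rw [h3, hu.ph v hv] at h2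
    exact h2.symm
  have hz : ∀ v ∈ Cone n, y v = 0 := by
    refine RG.uc (isOpen_cone n) (RG.isPreconnected_cone n) hyc (fun K hK _ => ⟨0, fun v hv ξ => ?_⟩)
      hw ?_
    · rw [hpb v (hK hv) ξ, norm_zero]
      simp
    · filter_upwards [hU, mem_nhds_cone hw] with v hv hvc
      rw [hy]
      funext i
      exact hcon v hv hvc _
  have hpz : ∀ v ∈ Cone n, ∀ ξ, pz (cx u) v ξ = 0 := by
    intro v hv ξ
    rw [pz_eq_sum]
    refine Finset.sum_eq_zero fun c _ => ?_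
    have h1 := congrFun (hz v hv) c
    rw [hy] at h1
    have h2 : pz (cx u) v (Pi.single c 1) = 0 := h1
    rw [h2, smul_zero]
  have hfd : ∀ v ∈ Cone n, fderiv ℝ u v = 0 := by
    intro v hv
    have hd : DifferentiableAt ℝ u v :=
      (hu.cd.contDiffAt (mem_nhds_cone hv)).differentiableAt (by norm_num)
    ext ξ
    have h1 := (pz_cx hd ξ).one
    rw [hpz v hv ξ, star_zero, add_zero, fderiv_cx hd] at h1
    have h2 : ((fderiv ℝ u v ξ : ℝ) : ℂ) = 0 := h1
    exact Complex.ofReal_eq_zero.1 h2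
  obtain ⟨w₁, hw₁, hne⟩ := hne
  apply hne
  exact (isOpen_cone n).is_const_of_fderiv_eq_zero (𝕜 := ℝ) (RG.isPreconnected_cone n)
    (hu.cd.differentiableOn (by norm_num)) (fun v hv => hfd v hv) hw₁ (base_mem n)

/-- PROOF: `TyU.AA`, `AA_comm`, `off_of_comm` where `pz (cx u) w ζ ≠ 0` for some `ζ`; this set is dense (`dense_ne`), and the
entries are continuous in `w`. -/
theorem off_zero {F : Vec (j + 1) → Mat (j + 2)} (hF : Harm F) {g : SUGroup (j + 1)}
    {Q : Mat (j + 2)} {u : Vec j → ℝ} {a : ℂ} (h : TyU F g Q u a)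
    (hne : ∃ w ∈ Cone j, u w ≠ u (base j)) {w : Vec j} (hw : w ∈ Cone j) (η : Vec (j + 1))
    (i : Fin (j + 1)) :
    (Q⁻¹ * AA F (HM.hyp g w) η * Q) i.succ 0 = 0 ∧ (Q⁻¹ * AA F (HM.hyp g w) η * Q) 0 i.succ = 0 := by
  have hdet : IsUnit Q.det := (Matrix.isUnit_iff_isUnit_det Q).1 h.unit
  -- the set where the derivative does not vanish
  have key : ∀ w' ∈ Cone j, (∃ ζ, pz (cx u) w' ζ ≠ 0) →
      (Q⁻¹ * AA F (HM.hyp g w') η * Q) i.succ 0 = 0 ∧
        (Q⁻¹ * AA F (HM.hyp g w') η * Q) 0 i.succ = 0 := by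
    rintro w' hw' ⟨ζ, hζ⟩
    have hc := AA_comm hF (hyp_mem g hw') η (HM.hyp g ζ)
    rw [h.AA hF hw' ζ] at hc
    refine off_of_comm hζ (NL_mul hw' ζ) ?_ i
    generalize AA F (HM.hyp g w') η = B at hc ⊢
    generalize dsum ((j + 1) * pz (cx u) w' ζ)
      ((-(pz (cx u) w' ζ)) • (1 : Mat (j + 1)) + NL w' ζ) = D at hc ⊢
    have h1 := congrArg (fun M => Q⁻¹ * M * Q) hc
    simp only [← Matrix.mul_assoc, Matrix.nonsing_inv_mul_cancel_right _ _ hdet,
      Matrix.nonsing_inv_mul _ hdet, Matrix.one_mul] at h1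
    rw [Matrix.mul_assoc (Q⁻¹ * B) Q D, ← Matrix.mul_assoc (Q⁻¹ * B) Q D, h1]
    simp only [Matrix.mul_assoc]
  -- the entries are continuous
  have hcont : ContinuousAt (fun w' : Vec j => Q⁻¹ * AA F (HM.hyp g w') η * Q) w := by
    have h0 : ContinuousAt (fun w' : Vec j => HM.hyp g w') w := (HM.hyp g).continuous.continuousAt
    have hv := hyp_mem g hw
    have h1 : ContinuousAt (fun v => AA F v η) (HM.hyp g w) := by
      have h2 : ContinuousAt (fun v => pz F v η) (HM.hyp g w) :=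
        (hasFDerivAt_pz (hF.cda hv) η).continuousAt
      have h3 : ContinuousAt (fun v => (F v)⁻¹) (HM.hyp g w) :=
        ((hasZ (hF.diff hv) η).matInv (hF.unit hv)).diff.continuousAt
      exact h2.mul h3
    have h4 : ContinuousAt (fun w' : Vec j => AA F (HM.hyp g w') η) w :=
      ContinuousAt.comp (g := fun v => AA F v η) h1 h0
    exact (continuousAt_const.mul h4).mul continuousAt_const
  have hent : ∀ p r : Fin (j + 2), ContinuousAt
      (fun w' : Vec j => (Q⁻¹ * AA F (HM.hyp g w') η * Q) p r) w := fun p r =>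
    ContinuousAt.comp (g := fun M : Mat (j + 2) => M p r)
      (continuous_id.matrix_elem p r).continuousAt hcont
  have hz : ∀ p r : Fin (j + 2), (∀ w' ∈ Cone j, (∃ ζ, pz (cx u) w' ζ ≠ 0) →
      (Q⁻¹ * AA F (HM.hyp g w') η * Q) p r = 0) →
      (Q⁻¹ * AA F (HM.hyp g w) η * Q) p r = 0 := by
    intro p r hk
    by_contra hn
    have h1 : ∀ᶠ w' in 𝓝 w, (Q⁻¹ * AA F (HM.hyp g w') η * Q) p r ≠ 0 :=
      (hent p r).eventually_ne hn
    obtain ⟨w', hw', hc', hζ⟩ := dense_ne h.ph hne hw h1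
    exact hw' (hk w' hc' hζ)
  exact ⟨hz _ _ fun w' hw' hζ => (key w' hw' hζ).1, hz _ _ fun w' hw' hζ => (key w' hw' hζ).2⟩

end Pool.Agent.Lib.MP_5d4057_al.CI
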