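import Pool.Agent.Lib.MP_5d4057_al.TW.Defs
import Pool.Agent.Lib.MP_5d4057_al.IN.FRep
import Pool.Agent.Lib.MP_5d4057_al.IN.FEmb
import Pool.Agent.Lib.MP_5d4057_al.HM.AppNorm

/-!
# CI R1: the characters of the pieces are integral on the common subgroup

`x = g_b (χ_b ⊕ ψ_b y_b) g_b⁻¹`, `b = 0, 1`, with `y_b` in an arithmetic group: `χ_1` is an eigenvalue of `x` with the
eigenvector `g_1 e_0`, whose component in the hyperplane of `g_0` is not zero, so `χ_1 = ψ_0 ε`, with `ε` an eigenvalue of `y_0`, a unit at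
every finite place `σ`. So `|σ χ_1| = |σ ψ_0|`, `|σ χ_0| = |σ ψ_1|`, and `χ_b ψ_b ^ (k + 2) = 1` gives `|σ χ_b| = |σ ψ_b| = 1`.
Hence a character which is determined by its restriction to the common subgroup is integral.
-/

set_option autoImplicit false

namespace Pool.Agent.Lib.MP_5d4057_al.CI

open Matrix Pool.Agent.Lib.MP_5d4057_al Pool.Agent.Lib.MP_5d4057_al.Hyb
  Pool.Agent.Lib.MP_5d4057_al.HM Pool.Agent.Lib.MP_5d4057_al.IN

variable {m k : ℕ}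

private theorem rs_eig_le (p : ℕ) [Fact p.Prime] (σ : ℂ ≃+* PadicAlgCl p)
    {Δ : Subgroup (SUGroup m)} {C : ℝ} (hC : ∀ γ ∈ Δ, ∀ a b, ‖σ (γ.toMatrix a b)‖ ≤ C)
    {y : SUGroup m} (hy : y ∈ Δ) {f : Vec m} (hf : f ≠ 0) {ε : ℂ} (h : act y f = ε • f) :
    ‖σ ε‖ ≤ 1 := by
  have hpow : ∀ N : ℕ, act (y ^ N) f = ε ^ N • f := by
    intro N
    induction N with
    | zero => rw [pow_zero, act_one, pow_zero, one_smul]
    | succ N ih => rw [pow_succ', act_mul, ih, act_smul, h, smul_smul, pow_succ]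
  obtain ⟨i, -, hi⟩ := Finset.exists_max_image Finset.univ (fun i => ‖σ (f i)‖)
    ⟨0, Finset.mem_univ _⟩
  have hi0 : 0 < ‖σ (f i)‖ := by
    by_contra hcon
    apply hf
    funext j
    have h1 : ‖σ (f j)‖ ≤ 0 := (hi j (Finset.mem_univ _)).trans (not_lt.1 hcon)
    exact (map_eq_zero_iff σ σ.injective).1 (norm_le_zero_iff.1 h1)
  have hC0 : 0 ≤ C := (norm_nonneg _).trans (hC 1 Δ.one_mem 0 0)
  have hbd : ∀ N : ℕ, ‖σ ε‖ ^ N ≤ (m + 1) * C := by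
    intro N
    have h1 : ε ^ N * f i = ∑ j, (y ^ N).toMatrix i j * f j := by
      have h2 := congrFun (hpow N) i
      rw [Pi.smul_apply, smul_eq_mul] at h2
      rw [← h2]
      rfl
    have h3 : ‖σ ε‖ ^ N * ‖σ (f i)‖ ≤ (m + 1) * C * ‖σ (f i)‖ := by
      rw [← norm_pow, ← norm_mul, ← map_pow, ← map_mul, h1, map_sum]
      refine (norm_sum_le _ _).trans ?_
      refine (Finset.sum_le_card_nsmul Finset.univ _ (C * ‖σ (f i)‖) fun j _ => ?_).trans ?_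
      · rw [map_mul, norm_mul]
        exact mul_le_mul (hC _ (Δ.pow_mem hy N) i j) (hi j (Finset.mem_univ _)) (norm_nonneg _) hC0
      · rw [Finset.card_univ, Fintype.card_fin, nsmul_eq_mul]
        push_cast
        linarith
    exact le_of_mul_le_mul_right h3 hi0
  by_contra hcon
  rw [not_le] at hcon
  obtain ⟨N, hN⟩ := pow_unbounded_of_one_lt ((m + 1) * C) hcon
  exact absurd (hbd N) (not_le.2 hN)

/-- An eigenvalue of an element of a group with bounded entries is a unit. -/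
theorem eig_norm (p : ℕ) [Fact p.Prime] (σ : ℂ ≃+* PadicAlgCl p)
    {Δ : Subgroup (SUGroup m)} {C : ℝ} (hC : ∀ γ ∈ Δ, ∀ a b, ‖σ (γ.toMatrix a b)‖ ≤ C)
    {y : SUGroup m} (hy : y ∈ Δ) {f : Vec m} (hf : f ≠ 0) {ε : ℂ} (h : act y f = ε • f) :
    ‖σ ε‖ = 1 := by
  have hε : ε ≠ 0 := by
    rintro rfl
    rw [zero_smul] at h
    apply hf
    have h1 := congrArg (act y⁻¹) h
    rw [← act_mul, inv_mul_cancel, act_one, act, mulVec_zero] at h1
    exact h1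
  refine le_antisymm (rs_eig_le p σ hC hy hf h) ?_
  have h1 : act y⁻¹ f = ε⁻¹ • f := by
    have h2 := congrArg (act y⁻¹) h
    rw [← act_mul, inv_mul_cancel, act_one, act_smul] at h2
    conv_rhs => rw [h2]
    rw [smul_smul, inv_mul_cancel₀ hε, one_smul]
  have h2 := rs_eig_le p σ hC (Δ.inv_mem hy) hf h1
  rw [map_inv₀, norm_inv] at h2
  have h3 : 0 < ‖σ ε‖ := norm_pos_iff.2 ((map_ne_zero_iff σ σ.injective).2 hε)
  exact (inv_le_one₀ h3).1 h2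

/-- The eigenvalue of an eigenvector outside the line of the normal vector. -/
theorem norm_of_eig (p : ℕ) [Fact p.Prime] (σ : ℂ ≃+* PadicAlgCl p)
    {Δ : Subgroup (SUGroup m)} {C : ℝ} (hC : ∀ γ ∈ Δ, ∀ a b, ‖σ (γ.toMatrix a b)‖ ≤ C)
    {g x : SUGroup (m + 1)} {y : SUGroup m} (hy : y ∈ Δ) {χ ψ : ℂ}
    (h : (g⁻¹ * x * g).toMatrix = dsum χ (ψ • y.toMatrix)) {e : Vec (m + 1)} {μ : ℂ}
    (he : act x e = μ • e) (hne : ∀ ζ : ℂ, e ≠ ζ • act g (nrm m)) : ‖σ μ‖ = ‖σ ψ‖ := by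
  obtain ⟨v, hv⟩ : ∃ v : Vec (m + 1), v = act g⁻¹ e := ⟨_, rfl⟩
  have hev : e = act g v := by rw [hv, ← act_mul, mul_inv_cancel, act_one]
  obtain ⟨w, hw⟩ : ∃ w : Vec m, v = (Fin.cons (v 0) w : Vec (m + 1)) :=
    ⟨Fin.tail v, (Fin.cons_self_tail v).symm⟩
  have hw0 : w ≠ 0 := by
    rintro rfl
    apply hne (v 0)
    rw [hev, ← act_smul]
    congr 1
    conv_lhs => rw [hw]
    funext i
    refine Fin.cases ?_ (fun i => ?_) i
    · simp [nrm]
    · simp [nrm]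
  have h1 : act (g⁻¹ * x * g) v = μ • v := by
    have h2 : act (g⁻¹ * x * g) v = act g⁻¹ (act x e) := by
      rw [hev, ← act_mul, ← act_mul]
    rw [h2, he, act_smul, ← hv]
  rw [act, h, hw, dsum_mulVec_cons] at h1
  have h2 : (ψ • y.toMatrix) *ᵥ w = μ • w := by
    funext i
    have := congrFun h1 i.succ
    simpa using this
  have hψ0 : ψ ≠ 0 := by
    rintro rfl
    have := (TW.TwEl.scalars h).2.1
    simp at this
  have h3 : act y w = (ψ⁻¹ * μ) • w := by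
    rw [smul_mulVec] at h2
    rw [← smul_smul, ← h2, smul_smul, inv_mul_cancel₀ hψ0, one_smul]
    rfl
  have h4 := eig_norm p σ hC hy hw0 h3
  rw [map_mul, map_inv₀, norm_mul, norm_inv] at h4
  have h5 : 0 < ‖σ ψ‖ := norm_pos_iff.2 ((map_ne_zero_iff σ σ.injective).2 hψ0)
  field_simp at h4
  exact h4

/-- The normal vector is an eigenvector. -/
theorem act_nrm_of_blk {g x : SUGroup (m + 1)} {y : SUGroup m} {χ ψ : ℂ}
    (h : (g⁻¹ * x * g).toMatrix = dsum χ (ψ • y.toMatrix)) :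
    act x (act g (nrm m)) = χ • act g (nrm m) := by
  have h1 : act (g⁻¹ * x * g) (nrm m) = χ • nrm m := by
    rw [act, h, nrm, dsum_mulVec_cons, mulVec_zero, mul_one]
    ext i
    refine Fin.cases ?_ (fun i => ?_) i
    · simp
    · simp
  have h3 : g * (g⁻¹ * x * g) = x * g := by group
  have h2 := congrArg (act g) h1
  rw [← act_mul, act_smul, h3] at h2
  rw [← act_mul, h2]

/-- **The characters are units on the common subgroup.** -/
theorem norm_chi (p : ℕ) [Fact p.Prime] (σ : ℂ ≃+* PadicAlgCl p)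
    {Δ : Fin 2 → Subgroup (SUGroup (k + 1))}
    (hC : ∀ b, ∃ C : ℝ, ∀ γ ∈ Δ b, ∀ i j, ‖σ (γ.toMatrix i j)‖ ≤ C)
    {g : Fin 2 → SUGroup (k + 2)}
    (hne : ∀ ζ : ℂ, act (g 1) (nrm (k + 1)) ≠ ζ • act (g 0) (nrm (k + 1)))
    {x : SUGroup (k + 2)} {y : Fin 2 → SUGroup (k + 1)} (hy : ∀ b, y b ∈ Δ b)
    {χ ψ : Fin 2 → ℂ} (h : ∀ b, ((g b)⁻¹ * x * g b).toMatrix = dsum (χ b) (ψ b • (y b).toMatrix))
    (b : Fin 2) : ‖σ (χ b)‖ = 1 := by
  have hne' : ∀ ζ : ℂ, act (g 0) (nrm (k + 1)) ≠ ζ • act (g 1) (nrm (k + 1)) := by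
    intro ζ hζ
    have hζ0 : ζ ≠ 0 := by
      rintro rfl
      rw [zero_smul] at hζ
      have h1 := congrArg (act (g 0)⁻¹) hζ
      rw [← act_mul, inv_mul_cancel, act_one, act, mulVec_zero] at h1
      have := congrFun h1 0
      simp [nrm] at this
    apply hne ζ⁻¹
    rw [hζ, smul_smul, inv_mul_cancel₀ hζ0, one_smul]
  obtain ⟨C₀, hC₀⟩ := hC 0
  obtain ⟨C₁, hC₁⟩ := hC 1
  have e0 : ‖σ (χ 1)‖ = ‖σ (ψ 0)‖ :=
    norm_of_eig p σ hC₀ (hy 0) (h 0) (act_nrm_of_blk (h 1)) hne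
  have e1 : ‖σ (χ 0)‖ = ‖σ (ψ 1)‖ :=
    norm_of_eig p σ hC₁ (hy 1) (h 1) (act_nrm_of_blk (h 0)) hne'
  have d : ∀ b, ‖σ (χ b)‖ * ‖σ (ψ b)‖ ^ (k + 2) = 1 := by
    intro b
    rw [← norm_pow, ← norm_mul, ← map_pow, ← map_mul, (TW.TwEl.scalars (h b)).2.2, map_one,
      norm_one]
  have d0 := d 0
  have d1 := d 1
  rw [← e0] at d0
  rw [← e1] at d1
  have hu := norm_nonneg (σ (χ 0))
  have hv := norm_nonneg (σ (χ 1))
  obtain ⟨u, hu'⟩ : ∃ u, u = ‖σ (χ 0)‖ := ⟨_, rfl⟩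
  obtain ⟨v, hv'⟩ : ∃ v, v = ‖σ (χ 1)‖ := ⟨_, rfl⟩
  rw [← hu', ← hv'] at d0 d1
  rw [← hu'] at hu
  rw [← hv'] at hv
  have key : ∀ {u v : ℝ}, 0 ≤ u → 0 ≤ v → u * v ^ (k + 2) = 1 → v * u ^ (k + 2) = 1 → u ≤ 1 := by
    intro u v hu hv h1 h2
    by_contra hcon
    rw [not_le] at hcon
    have h3 : v < 1 := by
      by_contra hv1
      rw [not_lt] at hv1
      have := one_le_pow₀ (n := k + 2) hv1
      nlinarith
    have h4 : u ^ (k + 2) = u * u ^ (k + 1) := pow_succ' u (k + 1)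
    have h5 : v ^ (k + 2) = v * v ^ (k + 1) := pow_succ' v (k + 1)
    have h6 : 1 ≤ u ^ (k + 1) := one_le_pow₀ hcon.le
    have h7 : v ^ (k + 1) < 1 := pow_lt_one₀ hv h3 (by omega)
    have h8 : u * v * v ^ (k + 1) = 1 := by rw [← h1, h5]; ring
    have h9 : u * v * u ^ (k + 1) = 1 := by rw [← h2, h4]; ring
    have h10 : 0 < u * v := by
      by_contra h11
      rw [not_lt] at h11
      have : 0 ≤ u ^ (k + 1) := by positivity
      nlinarith
    have h11 : u * v * v ^ (k + 1) < u * v * u ^ (k + 1) :=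
      mul_lt_mul_of_pos_left (h7.trans_le h6) h10
    rw [h8, h9] at h11
    exact lt_irrefl _ h11
  have hu1 : u = 1 := by
    refine le_antisymm (key hu hv d0 d1) ?_
    have hv1 := key hv hu d1 d0
    have h1 : v ^ (k + 2) ≤ 1 := pow_le_one₀ hv hv1
    nlinarith
  have hv1 : v = 1 := by
    rw [hu1, one_pow, mul_one] at d1
    exact d1
  fin_cases b
  · show ‖σ (χ 0)‖ = 1
    rw [← hu', hu1]
  · show ‖σ (χ 1)‖ = 1
    rw [← hv', hv1]

/-- **Characters which are determined by their restriction to the common subgroup are integral.** -/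
theorem int_of_rst {H : Type} [Group H] {A : Fin 2 → Type} [∀ b, Group (A b)] (ι : ∀ b, H →* A b)
    (ρ : ∀ b, A b →* SUGroup (k + 2)) (hι : ∀ z, ρ 0 (ι 0 z) = ρ 1 (ι 1 z))
    {Δ : Fin 2 → Subgroup (SUGroup (k + 1))} (hA : ∀ b, IsArith (k + 1) (Δ b))
    {g : Fin 2 → SUGroup (k + 2)}
    (hne : ∀ ζ : ℂ, act (g 1) (nrm (k + 1)) ≠ ζ • act (g 0) (nrm (k + 1)))
    (hg : ∀ b x, ∃ y ∈ Δ b, ∃ χ ψ : ℂ,
      ((g b)⁻¹ * ρ b x * g b).toMatrix = dsum χ (ψ • y.toMatrix))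
    (hrst : ∀ b, ∀ φ : A b →* Multiplicative ℝ, (∀ z, φ (ι b z) = 1) → φ = 1)
    (b : Fin 2) (x : A b) : IsIntegral ℤ (((g b)⁻¹ * ρ b x * g b).toMatrix 0 0) := by
  by_contra hcon
  obtain ⟨p, hp, σ, hσ⟩ := exists_embed hcon
  have hC : ∀ b, ∃ C : ℝ, ∀ γ ∈ Δ b, ∀ i j, ‖σ (γ.toMatrix i j)‖ ≤ C :=
    fun b => bdd_of_isArith p σ (hA b)
  have hmul : ∀ b (x y : A b), ((g b)⁻¹ * ρ b (x * y) * g b).toMatrix 0 0 =
      ((g b)⁻¹ * ρ b x * g b).toMatrix 0 0 * ((g b)⁻¹ * ρ b y * g b).toMatrix 0 0 := by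
    intro b x y
    obtain ⟨y₁, -, χ₁, ψ₁, h₁⟩ := hg b x
    obtain ⟨y₂, -, χ₂, ψ₂, h₂⟩ := hg b y
    have h3 : (g b)⁻¹ * ρ b (x * y) * g b = ((g b)⁻¹ * ρ b x * g b) * ((g b)⁻¹ * ρ b y * g b) := by
      rw [map_mul]
      group
    rw [h3, toMatrix_mul, h₁, h₂, dsum_mul, dsum_zero_zero, dsum_zero_zero, dsum_zero_zero]
  have hnz : ∀ b (x : A b), ‖σ (((g b)⁻¹ * ρ b x * g b).toMatrix 0 0)‖ ≠ 0 := by
    intro b x
    obtain ⟨y₁, -, χ₁, ψ₁, h₁⟩ := hg b x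
    have h2 := (TW.TwEl.scalars h₁).1
    rw [h₁, dsum_zero_zero]
    refine norm_ne_zero_iff.2 ((map_ne_zero_iff σ σ.injective).2 ?_)
    rintro rfl
    simp at h2
  obtain ⟨φ, hφ⟩ : ∃ φ : A b →* Multiplicative ℝ, ∀ x, φ x =
      Multiplicative.ofAdd (Real.log ‖σ (((g b)⁻¹ * ρ b x * g b).toMatrix 0 0)‖) := by
    refine ⟨{ toFun := fun x =>
                Multiplicative.ofAdd (Real.log ‖σ (((g b)⁻¹ * ρ b x * g b).toMatrix 0 0)‖)
              map_one' := ?_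
              map_mul' := fun x y => ?_ }, fun x => rfl⟩
    · have h1 : (g b)⁻¹ * ρ b 1 * g b = 1 := by
        rw [map_one]
        group
      rw [h1, toMatrix_one, Matrix.one_apply_eq, map_one, norm_one, Real.log_one]
      rfl
    · rw [hmul, map_mul, norm_mul, Real.log_mul (hnz b x) (hnz b y)]
      rfl
  have hφ1 : φ = 1 := by
    refine hrst b φ fun z => ?_
    have h0 : ∀ c, ∃ y ∈ Δ c, ∃ χ ψ : ℂ,
        ((g c)⁻¹ * ρ 0 (ι 0 z) * g c).toMatrix = dsum χ (ψ • y.toMatrix) := by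
      intro c
      have h1 : ρ c (ι c z) = ρ 0 (ι 0 z) := by
        fin_cases c
        · rfl
        · exact (hι z).symm
      rw [← h1]
      exact hg c (ι c z)
    choose y hy χ ψ h using h0
    have h1 : ρ b (ι b z) = ρ 0 (ι 0 z) := by
      fin_cases b
      · rfl
      · exact (hι z).symm
    rw [hφ, h1, h b, dsum_zero_zero, norm_chi p σ hC hne hy h b, Real.log_one]
    rfl
  have h1 := hφ x
  rw [hφ1] at h1
  have h2 : Real.log ‖σ (((g b)⁻¹ * ρ b x * g b).toMatrix 0 0)‖ = 0 := by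
    have h3 := congrArg Multiplicative.toAdd h1
    rw [MonoidHom.one_apply, toAdd_one, toAdd_ofAdd] at h3
    exact h3.symm
  exact absurd h2 (Real.log_pos hσ).ne'

end Pool.Agent.Lib.MP_5d4057_al.CI
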