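import Pool.Agent.Lib.MP_5d4057_al.RG.FinA

/-!
# CI T3: the type of a factor: standard or conjugate up to characters, from Theorem R
-/

set_option autoImplicit false

namespace Pool.Agent.Lib.MP_5d4057_al.CI

open Matrix Filter Topology Pool.Agent.Lib.MP_5d4057_al Pool.Agent.Lib.MP_5d4057_al.Hyb
  Pool.Agent.Lib.MP_5d4057_al.HM Pool.Agent.Lib.MP_5d4057_al.NU Pool.Agent.Lib.MP_5d4057_al.RC
  Pool.Agent.Lib.MP_5d4057_al.RG

open scoped ComplexOrder MatrixOrder Matrix.Norms.L2Operator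

variable {m n : ℕ}

/-- No invariant isotropic line. -/
theorem tw_iso (hm : 2 ≤ m) {Γ : Subgroup (SUGroup m)} (hL : IsLattice Γ)
    {G : Subgroup (SUGroup (m + 1))} (hG : IsLattice G) (hf : FGG G)
    (ρ : Γ →* SUGroup (m + 1)) (hinj : Function.Injective ρ) (hρ : ρ.range ≤ G)
    (p : Vec (m + 1)) (hp : p ≠ 0) (hq : q p = 0) :
    ¬ ∀ γ : Γ, ∃ c : ℂ, act (ρ γ) p = c • p := by
  intro h
  obtain ⟨D', hle, hfi, hnil⟩ := fix_line (by omega) hG hf hp hq hρ (by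
    rintro _ ⟨γ, rfl⟩
    exact h γ)
  obtain ⟨E, hE⟩ : ∃ E : Subgroup Γ, E = D'.comap ρ := ⟨_, rfl⟩
  have hEfi : E.index ≠ 0 := by
    rw [hE, Subgroup.index_comap]
    exact hfi
  have hEnil : Group.IsNilpotent E := by
    let φ : E →* D' := (ρ.comp E.subtype).codRestrict D' (by
      rintro ⟨x, hx⟩
      rw [hE] at hx
      exact hx)
    have hφ : Function.Injective φ := by
      intro x y hxy
      have h1 := congrArg Subtype.val hxy
      exact Subtype.ext (hinj h1)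
    have h2 : Group.IsNilpotent φ.range := inferInstance
    exact Group.nilpotent_of_mulEquiv (MonoidHom.ofInjective hφ).symm
  have hmap : Group.IsNilpotent (E.map Γ.subtype) :=
    Group.nilpotent_of_mulEquiv (E.equivMapOfInjective Γ.subtype Γ.subtype_injective)
  refine GX.not_nilp (by omega) hL (D := E.map Γ.subtype) (Subgroup.map_subtype_le E) ?_ hmap
  rw [Subgroup.relIndex, Subgroup.subgroupOf, Subgroup.comap_map_eq_self_of_injective
    Γ.subtype_injective]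
  exact hEfi

/-- Finitely many elements with bounded image. -/
theorem tw_disc {Γ : Subgroup (SUGroup m)} {G : Subgroup (SUGroup n)}
    (hG : IsLattice G) (ρ : Γ →* SUGroup n) (hinj : Function.Injective ρ) (hρ : ρ.range ≤ G)
    (C : ℝ) : {γ : Γ | ‖(ρ γ).toMatrix‖ ≤ C}.Finite := by
  obtain ⟨χ, hχ⟩ := exists_lat hG
  have h1 := finite_ch hχ.disc C
  refine Set.Finite.of_finite_image (f := ρ) (h1.subset ?_) hinj.injOn
  rintro _ ⟨γ, hγ, rfl⟩
  refine ⟨hρ ⟨γ, rfl⟩, ?_⟩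
  exact (HM.Ax.norm_entry_le_op (ρ γ).toMatrix (Fin.last n) (Fin.last n)).trans hγ

/-- **The type of a factor.** -/
theorem piece_tw (hm : 2 ≤ m) {Γ : Subgroup (SUGroup m)} (hL : IsLattice Γ) (hA : IsArith m Γ)
    (hΓ : GeoV Γ) {G : Subgroup (SUGroup (m + 1))} (hG : IsLattice G) (hf : FGG G)
    (ρ : Γ →* SUGroup (m + 1)) (hinj : Function.Injective ρ) (hρ : ρ.range ≤ G) :
    ∃ (Γ' : Subgroup (SUGroup m)) (hle : Γ' ≤ Γ) (g : SUGroup (m + 1)), Γ'.relIndex Γ ≠ 0 ∧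
      (Γ'.subgroupOf Γ).Normal ∧ IsLattice Γ' ∧ IsArith m Γ' ∧
      (Twd (ρ.comp (Subgroup.inclusion hle)) g ∨ Twc (ρ.comp (Subgroup.inclusion hle)) g) := by
  obtain ⟨Γ', hle, hfi, hN, hgeo⟩ := hΓ
  have hL' : IsLattice Γ' := isLattice_of_relIndex hL hle hfi
  have hA' : IsArith m Γ' := by
    obtain ⟨K, A, O, hU, hO, hc⟩ := hA
    refine ⟨K, A, O, hU, hO, Subgroup.Commensurable.trans ⟨hfi, ?_⟩ hc⟩
    rw [Subgroup.relIndex_eq_one.2 hle]
    exact one_ne_zero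
  obtain ⟨ρ', hρ'⟩ : ∃ ρ' : Γ' →* SUGroup (m + 1), ρ' = ρ.comp (Subgroup.inclusion hle) :=
    ⟨_, rfl⟩
  have hinj' : Function.Injective ρ' := by
    rw [hρ']
    exact hinj.comp (Subgroup.inclusion_injective hle)
  have hrg' : ρ'.range ≤ ρ.range := by
    rintro _ ⟨x, rfl⟩
    exact ⟨Subgroup.inclusion hle x, by rw [hρ']; rfl⟩
  obtain ⟨g, hg⟩ := rep_std hm hgeo ρ' (tw_disc hG ρ' hinj' (hrg'.trans hρ))
    (fun p hp hq => tw_iso hm hL' hG hf ρ' hinj' (hrg'.trans hρ) p hp hq)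
  rw [hρ'] at hg
  exact ⟨Γ', hle, g, hfi, hN, hL', hA', hg⟩

end Pool.Agent.Lib.MP_5d4057_al.CI
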