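import Pool.Agent.Lib.MP_5d4057_al.CI.Rst
import Pool.Agent.Lib.MP_5d4057_al.CI.Main
import Pool.Agent.Lib.MP_5d4057_al.CI.Tw
import Pool.Agent.Lib.MP_5d4057_al.RG.FG

/-!
# CI R2: characters which are determined by their restriction to the common subgroup

`amalgam_rst`: no hypothesis on the characters: `H¹(Γ b; ℝ) → H¹(Γ₃; ℝ)` is injective for `b = 0, 1`.
-/

set_option autoImplicit false

namespace Pool.Agent.Lib.MP_5d4057_al.CI

open Matrix Filter Topology Pool.Agent.Lib.MP_5d4057_al Pool.Agent.Lib.MP_5d4057_al.Hyb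
  Pool.Agent.Lib.MP_5d4057_al.HM Pool.Agent.Lib.MP_5d4057_al.RC Pool.Agent.Lib.MP_5d4057_al.NU
  Pool.Agent.Lib.MP_5d4057_al.CF Pool.Agent.Lib.MP_5d4057_al.IN

variable {m k : ℕ}

theorem act_nrm_ne_zero (g : SUGroup (m + 1)) : act g (nrm m) ≠ 0 := by
  intro h0
  have h4 := congrArg (act g⁻¹) h0
  rw [act_inv_act, act, mulVec_zero] at h4
  have := congrFun h4 0
  simp [nrm] at this

/-- **Characters which are determined by their restriction to the common subgroup are integral.**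
The block form is needed only for a power of every element of the common subgroup. -/
theorem int_of_rst_pow {H : Type} [Group H] {A : Fin 2 → Type} [∀ b, Group (A b)]
    (ι : ∀ b, H →* A b) (ρ : ∀ b, A b →* SUGroup (k + 2))
    (hι : ∀ z, ρ 0 (ι 0 z) = ρ 1 (ι 1 z))
    {Δ : Fin 2 → Subgroup (SUGroup (k + 1))} (hA : ∀ b, IsArith (k + 1) (Δ b))
    {g : Fin 2 → SUGroup (k + 2)}
    (hne : ∀ ζ : ℂ, act (g 1) (nrm (k + 1)) ≠ ζ • act (g 0) (nrm (k + 1)))
    (hline : ∀ b (x : A b), ∃ c : ℂ,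
      act (ρ b x) (act (g b) (nrm (k + 1))) = c • act (g b) (nrm (k + 1)))
    (hblk : ∀ z : H, ∃ N : ℕ, 0 < N ∧ ∀ b, ∃ y ∈ Δ b, ∃ χ ψ : ℂ,
      ((g b)⁻¹ * ρ 0 (ι 0 z) ^ N * g b).toMatrix = dsum χ (ψ • y.toMatrix))
    (hrst : ∀ b, ∀ φ : A b →* Multiplicative ℝ, (∀ z, φ (ι b z) = 1) → φ = 1)
    (b : Fin 2) (x : A b) (c : ℂ)
    (hx : act (ρ b x) (act (g b) (nrm (k + 1))) = c • act (g b) (nrm (k + 1))) :
    IsIntegral ℤ c := by
  by_contra hcon
  obtain ⟨p, hp, σ, hσ⟩ := exists_embed hcon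
  have hC : ∀ b, ∃ C : ℝ, ∀ γ ∈ Δ b, ∀ i j, ‖σ (γ.toMatrix i j)‖ ≤ C :=
    fun b => bdd_of_isArith p σ (hA b)
  choose f hf using hline
  have huniq : ∀ b (c d : ℂ), c • act (g b) (nrm (k + 1)) = d • act (g b) (nrm (k + 1)) →
      c = d := by
    intro b c d h
    have h1 : (c - d) • act (g b) (nrm (k + 1)) = 0 := by rw [sub_smul, h, sub_self]
    rcases smul_eq_zero.1 h1 with h2 | h2
    · exact sub_eq_zero.1 h2
    · exact absurd h2 (act_nrm_ne_zero (g b))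
  have h1 : ∀ b, f b 1 = 1 := by
    intro b
    apply huniq b
    rw [← hf b 1, map_one, act_one, one_smul]
  have hmul : ∀ b (x y : A b), f b (x * y) = f b x * f b y := by
    intro b x y
    apply huniq b
    rw [← hf b (x * y), map_mul, act_mul, hf b y, act_smul, hf b x, smul_smul, mul_comm]
  have hnz : ∀ b (x : A b), ‖σ (f b x)‖ ≠ 0 := by
    intro b x
    refine norm_ne_zero_iff.2 ((map_ne_zero_iff σ σ.injective).2 ?_)
    intro h0
    have h2 := hmul b x x⁻¹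
    rw [h0, zero_mul, mul_inv_cancel, h1] at h2
    exact one_ne_zero h2
  obtain ⟨φ, hφ⟩ : ∃ φ : A b →* Multiplicative ℝ, ∀ x, φ x =
      Multiplicative.ofAdd (Real.log ‖σ (f b x)‖) := by
    refine ⟨{ toFun := fun x => Multiplicative.ofAdd (Real.log ‖σ (f b x)‖)
              map_one' := ?_
              map_mul' := fun x y => ?_ }, fun x => rfl⟩
    · rw [h1, map_one, norm_one, Real.log_one]
      rfl
    · rw [hmul, map_mul, norm_mul, Real.log_mul (hnz b x) (hnz b y)]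
      rfl
  have hφ1 : φ = 1 := by
    refine hrst b φ fun z => ?_
    obtain ⟨N, hN, h⟩ := hblk z
    choose y hy χ ψ h using h
    have h2 : ρ b (ι b z) = ρ 0 (ι 0 z) := by
      fin_cases b
      · rfl
      · exact (hι z).symm
    have hpow : ∀ N : ℕ, f b (ι b z ^ N) = f b (ι b z) ^ N := by
      intro N
      induction N with
      | zero => rw [pow_zero, pow_zero, h1]
      | succ N ih => rw [pow_succ, hmul, ih, pow_succ]
    have h3 : χ b = f b (ι b z) ^ N := by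
      apply huniq b
      rw [← hpow, ← hf b, map_pow, h2]
      exact (act_nrm_of_blk (h b)).symm
    have h4 := norm_chi p σ hC hne hy h b
    rw [h3, map_pow, norm_pow] at h4
    have h5 : ‖σ (f b (ι b z))‖ = 1 := (pow_eq_one_iff_of_nonneg (norm_nonneg _) hN.ne').1 h4
    rw [hφ, h5, Real.log_one]
    rfl
  have h2 := hφ x
  rw [hφ1] at h2
  have h3 : Real.log ‖σ (f b x)‖ = 0 := by
    have h3 := congrArg Multiplicative.toAdd h2
    rw [MonoidHom.one_apply, toAdd_one, toAdd_ofAdd] at h3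
    exact h3.symm
  have h4 : c = f b x := huniq b _ _ (by rw [← hx, hf b x])
  rw [← h4] at h3
  exact absurd h3 (Real.log_pos hσ).ne'

/-- The image of a homomorphism from the amalgam is generated by the images of the factors. -/
private theorem ra_range {k n : ℕ} {Γ₃ : Subgroup (SUGroup k)}
    {Γ : Fin 2 → Subgroup (SUGroup (k + 1))} {ι : ∀ b, Γ₃ →* Γ b}
    (ρ : Monoid.PushoutI ι →* SUGroup n) :
    ρ.range = ⨆ b, (ρ.comp (Monoid.PushoutI.of b)).range := by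
  apply le_antisymm
  · rintro _ ⟨w, rfl⟩
    induction w using Monoid.PushoutI.induction_on with
    | of b x => exact Subgroup.mem_iSup_of_mem b ⟨x, rfl⟩
    | base x =>
      rw [← Monoid.PushoutI.of_apply_eq_base ι 0 x]
      exact Subgroup.mem_iSup_of_mem 0 ⟨ι 0 x, rfl⟩
    | mul x y hx hy =>
      rw [map_mul]
      exact Subgroup.mul_mem _ hx hy
  · refine iSup_le fun b => ?_
    rintro _ ⟨x, rfl⟩
    exact ⟨Monoid.PushoutI.of b x, rfl⟩

/-- **The amalgam, both factors standard up to arbitrary characters (or conjugate) on normal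
subgroups of finite index: if `H¹(Γ b; ℝ) → H¹(Γ₃; ℝ)` is injective for `b = 0, 1`, the image is
arithmetic.** -/
theorem amalgam_rst_tw (k : ℕ) (hk : 1 ≤ k) (Γ₃ : Subgroup (SUGroup k))
    (Γ : Fin 2 → Subgroup (SUGroup (k + 1))) (h₃ : IsLattice Γ₃) (ι : ∀ b, Γ₃ →* Γ b)
    (hι : ∀ b, Function.Injective (ι b)) (ρ : Monoid.PushoutI ι →* SUGroup (k + 2))
    (hinj : ∀ b, Function.Injective (ρ.comp (Monoid.PushoutI.of b)))
    (Γ' : Fin 2 → Subgroup (SUGroup (k + 1))) (hle : ∀ b, Γ' b ≤ Γ b)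
    (hfi : ∀ b, (Γ' b).relIndex (Γ b) ≠ 0) (hN : ∀ b, ((Γ' b).subgroupOf (Γ b)).Normal)
    (hL : ∀ b, IsLattice (Γ' b)) (hA : ∀ b, IsArith (k + 1) (Γ' b))
    (g : Fin 2 → SUGroup (k + 2))
    (hg : ∀ b, RG.Twd ((ρ.comp (Monoid.PushoutI.of (φ := ι) b)).comp
        (Subgroup.inclusion (hle b))) (g b) ∨
      RG.Twc ((ρ.comp (Monoid.PushoutI.of (φ := ι) b)).comp
        (Subgroup.inclusion (hle b))) (g b))
    (hlat : IsLattice ρ.range) (hf : FGG ρ.range)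
    (hrst : ∀ b, ∀ φ : Γ b →* Multiplicative ℝ, (∀ z, φ (ι b z) = 1) → φ = 1) :
    IsArith (k + 2) ρ.range := by
  refine amalgam_int_of k hk Γ₃ Γ h₃ ι hι ρ hinj Γ' hle hfi hN hL hA g hg hlat hf ?_
  obtain ⟨ρ', hρ'⟩ : ∃ ρ' : ∀ b, Γ' b →* SUGroup (k + 2), ρ' = fun b =>
      (ρ.comp (Monoid.PushoutI.of (φ := ι) b)).comp (Subgroup.inclusion (hle b)) := ⟨_, rfl⟩
  have hρ'b : ∀ b x, ρ' b x =
      ρ (Monoid.PushoutI.of b (Subgroup.inclusion (hle b) x)) := fun b x => by rw [hρ']; rfl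
  have hg' : ∀ b, RG.Twd (ρ' b) (g b) ∨ RG.Twc (ρ' b) (g b) := fun b => by
    rw [hρ']
    exact hg b
  choose Γ₁ ρ₁ hL₁ hA₁ hg₁ hr using fun b => exists_twd (hL b) (hA b) (hg' b)
  -- the factors preserve the lines
  have hline : ∀ b (γ : Γ b), ∃ c : ℂ, act (ρ (Monoid.PushoutI.of b γ))
      (act (g b) (nrm (k + 1))) = c • act (g b) (nrm (k + 1)) := by
    intro b γ
    refine line_unique (by omega) (hL₁ b) (hg₁ b) fun x => ?_
    obtain ⟨y, hy⟩ : ∃ y : Γ' b, ρ' b y = ρ₁ b x := by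
      have h1 : ρ₁ b x ∈ (ρ' b).range := by
        rw [← hr b]
        exact ⟨x, rfl⟩
      exact h1
    have h3 : γ⁻¹ * Subgroup.inclusion (hle b) y * γ ∈ (Γ' b).subgroupOf (Γ b) := by
      have h4 := (hN b).conj_mem (Subgroup.inclusion (hle b) y) (by
        rw [Subgroup.mem_subgroupOf]
        exact y.2) γ⁻¹
      rwa [inv_inv] at h4
    rw [Subgroup.mem_subgroupOf] at h3
    obtain ⟨x', hx'⟩ : ∃ x' : Γ₁ b, ρ₁ b x' = ρ' b ⟨_, h3⟩ := by
      have h1 : ρ' b ⟨_, h3⟩ ∈ (ρ₁ b).range := by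
        rw [hr b]
        exact ⟨_, rfl⟩
      exact h1
    obtain ⟨χ, ψ, h4⟩ := hg₁ b x'
    have h5 := act_nrm_tw h4
    refine ⟨χ, ?_⟩
    have h6 : ρ₁ b x * ρ (Monoid.PushoutI.of b γ) =
        ρ (Monoid.PushoutI.of b γ) * ρ₁ b x' := by
      rw [hx', ← hy, hρ'b, hρ'b, ← map_mul, ← map_mul, ← map_mul, ← map_mul]
      congr 2
      have h7 : (Subgroup.inclusion (hle b) ⟨_, h3⟩ : Γ b) =
          γ⁻¹ * Subgroup.inclusion (hle b) y * γ := rfl
      rw [h7]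
      group
    rw [← act_mul, h6, act_mul, h5, act_smul]
  have hG := ra_range ρ
  have hne : ∀ ζ : ℂ, act (g 1) (nrm (k + 1)) ≠ ζ • act (g 0) (nrm (k + 1)) := by
    refine TW.not_prop_line hlat (n := fun b => act (g b) (nrm (k + 1))) (fun b => ?_) ?_
    · show q (act (g b) (nrm (k + 1))) = 1
      rw [q_act, nrm_eq_e0, GX.q_e0]
    · conv_lhs => rw [hG]
      refine iSup_le fun b => ?_
      rintro _ ⟨γ, rfl⟩
      exact Subgroup.subset_closure ⟨b, hline b γ⟩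
  have hι0 : ∀ b z, ρ (Monoid.PushoutI.of b (ι b z)) = ρ (Monoid.PushoutI.of 0 (ι 0 z)) := by
    intro b z
    rw [Monoid.PushoutI.of_apply_eq_base, Monoid.PushoutI.of_apply_eq_base]
  obtain ⟨r, hr0⟩ : ∃ r : ∀ b, Γ b →* SUGroup (k + 2),
      ∀ b x, r b x = ρ (Monoid.PushoutI.of b x) :=
    ⟨fun b => ρ.comp (Monoid.PushoutI.of (φ := ι) b), fun b x => rfl⟩
  intro b x c hc
  rw [← hr0] at hc
  refine int_of_rst_pow (A := fun b => Γ b) ι r
    (fun z => by rw [hr0, hr0]; exact (hι0 1 z).symm) hA₁ hne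
    (fun b x => by rw [hr0]; exact hline b x) ?_ hrst b (Subgroup.inclusion (hle b) x) c hc
  intro z
  -- a common power in both subgroups
  obtain ⟨M, hM⟩ : ∃ M : Fin 2 → ℕ, M = fun b => ((Γ' b).relIndex (Γ b)).factorial := ⟨_, rfl⟩
  have hM0 : ∀ b, 0 < M b := fun b => by
    rw [hM]
    exact Nat.factorial_pos _
  refine ⟨M 0 * M 1, Nat.mul_pos (hM0 0) (hM0 1), fun b => ?_⟩
  have hdvd : M b ∣ M 0 * M 1 := by
    fin_cases b
    · exact dvd_mul_right _ _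
    · exact dvd_mul_left _ _
  have hmem : ((ι b z : Γ b) : SUGroup (k + 1)) ^ (M 0 * M 1) ∈ Γ' b := by
    have h1 := Subgroup.pow_mem_of_relIndex_ne_zero_of_dvd (hfi b) (ι b z).2 (n := M 0 * M 1)
      (fun m hm hlem => by
        refine (Nat.dvd_factorial hm hlem).trans ?_
        rw [hM] at hdvd ⊢
        exact hdvd)
    exact h1.1
  have h2 : ρ (Monoid.PushoutI.of 0 (ι 0 z)) ^ (M 0 * M 1) = ρ' b ⟨_, hmem⟩ := by
    rw [hρ'b, ← hι0 b z, ← map_pow, ← map_pow]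
    congr 2
  obtain ⟨y, hy⟩ : ∃ y : Γ₁ b, ρ₁ b y = ρ' b ⟨_, hmem⟩ := by
    have h1 : ρ' b ⟨_, hmem⟩ ∈ (ρ₁ b).range := by
      rw [hr b]
      exact ⟨_, rfl⟩
    exact h1
  obtain ⟨χ, ψ, h4⟩ := hg₁ b y
  refine ⟨y, y.2, χ, ψ, ?_⟩
  rw [hr0, ← h4, hy, ← h2]

/-- **The theorem of clause (iii)**: every `ρ` which is injective on the factors, if
`H¹(Γ b; ℝ) → H¹(Γ₃; ℝ)` is injective for `b = 0, 1`. -/
theorem amalgam_rst (k : ℕ) (hk : 1 ≤ k) (Γ₃ : Subgroup (SUGroup k))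
    (Γ : Fin 2 → Subgroup (SUGroup (k + 1))) (h₃ : IsLattice Γ₃) (hL : ∀ b, IsLattice (Γ b))
    (hA : ∀ b, IsArith (k + 1) (Γ b)) (hΓ : ∀ b, RG.GeoV (Γ b)) (hfg : ∀ b, Group.FG (Γ b))
    (ι : ∀ b, Γ₃ →* Γ b) (hι : ∀ b, Function.Injective (ι b))
    (ρ : Monoid.PushoutI ι →* SUGroup (k + 2))
    (hinj : ∀ b, Function.Injective (ρ.comp (Monoid.PushoutI.of b)))
    (hlat : IsLattice ρ.range)
    (hrst : ∀ b, ∀ φ : Γ b →* Multiplicative ℝ, (∀ z, φ (ι b z) = 1) → φ = 1) :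
    IsArith (k + 2) ρ.range := by
  have hG := ra_range ρ
  have hf : FGG ρ.range := by
    rw [hG]
    refine CF.fgg_iSup fun b => RG.fgg_of_fg ?_
    have h1 := hfg b
    exact (Group.fg_iff_subgroup_fg _).1 (Group.fg_range _)
  have hp : ∀ b, ∃ (Γ' : Subgroup (SUGroup (k + 1))) (hle : Γ' ≤ Γ b) (g : SUGroup (k + 2)),
      Γ'.relIndex (Γ b) ≠ 0 ∧ (Γ'.subgroupOf (Γ b)).Normal ∧ IsLattice Γ' ∧ IsArith (k + 1) Γ' ∧
      (RG.Twd ((ρ.comp (Monoid.PushoutI.of (φ := ι) b)).comp (Subgroup.inclusion hle)) g ∨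
        RG.Twc ((ρ.comp (Monoid.PushoutI.of (φ := ι) b)).comp (Subgroup.inclusion hle)) g) :=
    fun b => piece_tw (by omega) (hL b) (hA b) (hΓ b) hlat hf
      (ρ.comp (Monoid.PushoutI.of (φ := ι) b)) (hinj b) (by
        rw [hG]
        exact le_iSup (fun b => (ρ.comp (Monoid.PushoutI.of (φ := ι) b)).range) b)
  choose Γ' hle g hfi hN hL' hA' hg using hp
  exact amalgam_rst_tw k hk Γ₃ Γ h₃ ι hι ρ hinj Γ' hle hfi hN hL' hA' g hg hlat hf hrst

end Pool.Agent.Lib.MP_5d4057_al.CI
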