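import Pool.Agent.Lib.MP_5d4057_al.CI.Fin
import Pool.Agent.Lib.MP_5d4057_al.TW.Short

/-!
# The theorem for amalgams, with short names for the groups
-/

set_option autoImplicit false

namespace Pool.Agent.Lib.MP_5d4057_al.CI

open Matrix Pool.Agent.Lib.MP_5d4057_al Pool.Agent.Lib.MP_5d4057_al.Hyb
  Pool.Agent.Lib.MP_5d4057_al.HM Pool.Agent.Lib.MP_5d4057_al.TW

variable {k : ℕ} {Γ₃ : Subgroup (SUGroup k)} {Γ : Fin 2 → Subgroup (SUGroup (k + 1))}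

/-- `ρ` is injective on both factors of the amalgam. -/
def InjFactors {ι : ∀ b, Grp Γ₃ →* Grp (Γ b)} (ρ : Amalgam ι →* SUGroup (k + 2)) : Prop :=
  ∀ b, Function.Injective (ρ.comp (Amalgam.of ι b))

/-- For each factor `Γ b` and each line `ℂ p` invariant under `ρ (Γ b)` the scalars by which the
elements of `ρ (Γ b)` act on the line are algebraic integers. -/
def IntegralOnLines {ι : ∀ b, Grp Γ₃ →* Grp (Γ b)} (ρ : Amalgam ι →* SUGroup (k + 2)) : Prop :=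
  ∀ (b : Fin 2) (p : Vec (k + 2)), p ≠ 0 →
    (∀ x : Grp (Γ b), ∃ c : ℂ, act (ρ (Amalgam.of ι b x)) p = c • p) →
      ∀ (x : Grp (Γ b)) (c : ℂ), act (ρ (Amalgam.of ι b x)) p = c • p → IsIntegral ℤ c

theorem amalgam_short (k : ℕ) (hk : 1 ≤ k) (Γ₃ : Subgroup (SUGroup k))
    (Γ : Fin 2 → Subgroup (SUGroup (k + 1))) (h₃ : IsLattice Γ₃) (hL : ∀ b, IsLattice (Γ b))
    (hA : ∀ b, IsArith (k + 1) (Γ b)) (hC : ∀ b, Coc (Γ b)) (ι : ∀ b, Grp Γ₃ →* Grp (Γ b))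
    (hι : ∀ b, Function.Injective (ι b)) (ρ : Amalgam ι →* SUGroup (k + 2))
    (hinj : InjFactors ρ) (hlat : IsLattice ρ.range) :
    IsArith (k + 2) ρ.range ↔ IntegralOnLines ρ :=
  amalgam_lines_coc k hk Γ₃ Γ h₃ hL hA hC ι hι ρ hinj hlat

end Pool.Agent.Lib.MP_5d4057_al.CI
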