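import Pool.Agent.Lib.MP_5d4057_al.CI.Defs

/-!
# CI S2: metrics with a parallel vector

`Par P e`: then `log φ` is pluriharmonic (with `pz P v ξ e = c_ξ P e`, `pb P v η e = d_η P e` one has `c_ξ = star d_ξ`,
`pz (log φ) ξ = c_ξ`, and `pb (pz φ ξ) η = c_ξ d_η φ` from `Harm.ph`), and `P e / φ` has derivative `0`, so it is
constant on the cone (preconnected: `HM.Kak.isPreconnected_cone` or `RG.isPreconnected_cone`).
-/

set_option autoImplicit false

namespace Pool.Agent.Lib.MP_5d4057_al.CI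

open Matrix Filter Topology Pool.Agent.Lib.MP_5d4057_al Pool.Agent.Lib.MP_5d4057_al.Hyb
  Pool.Agent.Lib.MP_5d4057_al.HM Pool.Agent.Lib.MP_5d4057_al.RC Pool.Agent.Lib.MP_5d4057_al.NU

open scoped ComplexOrder MatrixOrder Matrix.Norms.L2Operator

variable {n m : ℕ} {P : Vec n → Mat m} {e : Fin m → ℂ}

/-- The linear functional `M ↦ e^* M e`. -/
private noncomputable def sb_L (e : Fin m → ℂ) : Mat m →L[ℂ] ℂ :=
  LinearMap.toContinuousLinearMap
    { toFun := fun M : Mat m => star e ⬝ᵥ (M *ᵥ e)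
      map_add' := fun A B => by rw [Matrix.add_mulVec, dotProduct_add]
      map_smul' := fun c A => by
        rw [Matrix.smul_mulVec, dotProduct_smul]
        rfl }

private theorem sb_L_apply (M : Mat m) : sb_L e M = star e ⬝ᵥ (M *ᵥ e) := rfl

/-- The linear map `M ↦ M e`. -/
private noncomputable def sb_V (e : Fin m → ℂ) : Mat m →L[ℂ] (Fin m → ℂ) :=
  LinearMap.toContinuousLinearMap
    { toFun := fun M : Mat m => M *ᵥ e
      map_add' := fun A B => by rw [Matrix.add_mulVec]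
      map_smul' := fun c A => by
        rw [Matrix.smul_mulVec]
        rfl }

private theorem sb_V_apply (M : Mat m) : sb_V e M = M *ᵥ e := rfl

private theorem sb_pos (hP : Harm P) (he : e ≠ 0) {v : Vec n} (hv : v ∈ Cone n) :
    0 < len P e v := (hP.pos v hv).re_dotProduct_pos he

private theorem sb_cx (hP : Harm P) (he : e ≠ 0) {v : Vec n} (hv : v ∈ Cone n) :
    sb_L e (P v) = cx (len P e) v := by
  rw [sb_L_apply, cx, len]
  have h1 := (Complex.lt_def.1 ((hP.pos v hv).dotProduct_mulVec_pos he)).2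
  apply Complex.ext
  · rw [Complex.ofReal_re]
  · rw [Complex.ofReal_im, ← h1, Complex.zero_im]

private theorem sb_ne (hP : Harm P) (he : e ≠ 0) {v : Vec n} (hv : v ∈ Cone n) :
    cx (len P e) v ≠ 0 := by
  rw [cx]
  exact_mod_cast (sb_pos hP he hv).ne'

private theorem sb_hom (hP : Harm P) : Homog (len P e) := by
  intro c hc v hv
  rw [len, len, hP.hom c hc v hv]

private theorem sb_cd (hP : Harm P) : ContDiffOn ℝ 2 (len P e) (Cone n) := by
  have h1 : ContDiffOn ℝ 2 (fun v => sb_L e (P v)) (Cone n) :=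
    ((sb_L e).restrictScalars ℝ).contDiff.comp_contDiffOn hP.cd
  exact Complex.reCLM.contDiff.comp_contDiffOn h1

private theorem sb_len (hP : Harm P) (he : e ≠ 0) {v : Vec n} (hv : v ∈ Cone n) (ξ : Vec n) :
    HasZ (cx (len P e)) v ξ (sb_L e (pz P v ξ)) (sb_L e (pb P v ξ)) := by
  refine ((hasZ (hP.diff hv) ξ).clm (sb_L e)).congr ?_
  filter_upwards [mem_nhds_cone hv] with w hw
  exact (sb_cx hP he hw).symm

/-- The first derivative of the logarithm. -/
private theorem sb_log {ψ : Vec n → ℝ} {v : Vec n} (h : DifferentiableAt ℝ ψ v) (h0 : 0 < ψ v)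
    (ξ : Vec n) :
    pz (cx fun w => Real.log (ψ w)) v ξ = (cx ψ v)⁻¹ * pz (cx ψ) v ξ := by
  have h2 : HasFDerivAt (fun w => Real.log (ψ w)) ((ψ v)⁻¹ • fderiv ℝ ψ v) v :=
    h.hasFDerivAt.log h0.ne'
  have h3 : DifferentiableAt ℝ (fun w => Real.log (ψ w)) v := h2.differentiableAt
  rw [pz, pz, fderiv_cx h3, fderiv_cx h, h2.fderiv]
  simp only [ContinuousLinearMap.comp_apply, Complex.ofRealCLM_apply, smul_eq_mul,
    FunLike.coe_smul, Pi.smul_apply]
  rw [cx]
  push_cast
  ring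

/-- `len P e` is positive: `he : e ≠ 0` and `hP.pos`. -/
theorem ph_log_len (hP : Harm P) (he : e ≠ 0) (h : Par P e) :
    PH fun v => Real.log (len P e v) := by
  refine ⟨?_, ?_, ?_⟩
  · intro c hc v hv
    show Real.log (len P e (c • v)) = _
    rw [sb_hom hP c hc v hv]
  · exact (sb_cd hP).log fun v hv => (sb_pos hP he hv).ne'
  · intro v hv ξ η
    have hd : ∀ w ∈ Cone n, DifferentiableAt ℝ (len P e) w := fun w hw =>
      ((sb_cd hP).contDiffAt (mem_nhds_cone hw)).differentiableAt (by norm_num)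
    have e1 : (fun w => pz (cx fun w => Real.log (len P e w)) w ξ) =ᶠ[𝓝 v]
        fun w => (cx (len P e) w)⁻¹ * sb_L e (pz P w ξ) := by
      filter_upwards [mem_nhds_cone hv] with w hw
      rw [sb_log (hd w hw) (sb_pos hP he hw), (sb_len hP he hw ξ).pz]
    rw [pb_congr e1]
    have z1 := (sb_len hP he hv η).inv (sb_ne hP he hv)
    have z2 : HasZ (fun w => pz P w ξ) v η _ _ :=
      hasZ (hasFDerivAt_pz (hP.cda hv) ξ).differentiableAt η
    have z3 : HasZ (fun w => (cx (len P e) w)⁻¹ * sb_L e (pz P w ξ)) v η _ _ :=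
      z1.mul' (z2.clm (sb_L e))
    rw [z3.pb]
    obtain ⟨⟨c, hc⟩, -⟩ := h v hv ξ
    obtain ⟨-, ⟨d, hd'⟩⟩ := h v hv η
    have h3 : pb (fun w => pz P w ξ) v η = (1 / 2 : ℂ) •
        (pb P v η * (P v)⁻¹ * pz P v ξ + pz P v ξ * (P v)⁻¹ * pb P v η) := by
      rw [← pz_pb_comm (hP.cda hv) ξ η]
      exact hP.ph v hv ξ η
    have hu : IsUnit (P v).det := (isUnit_iff_isUnit_det _).1 (hP.unit hv)
    have k0 : star e ⬝ᵥ (P v *ᵥ e) = cx (len P e) v := sb_cx hP he hv
    have k1 : sb_L e (pz P v ξ) = c * cx (len P e) v := by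
      rw [sb_L_apply, hc, dotProduct_smul, k0, smul_eq_mul]
    have k2 : sb_L e (pb P v η) = d * cx (len P e) v := by
      rw [sb_L_apply, hd', dotProduct_smul, k0, smul_eq_mul]
    have k3 : sb_L e (pb P v η * (P v)⁻¹ * pz P v ξ) = c * (d * cx (len P e) v) := by
      rw [sb_L_apply, ← mulVec_mulVec, hc, mulVec_smul, mulVec_mulVec, Matrix.mul_assoc,
        nonsing_inv_mul _ hu, Matrix.mul_one, dotProduct_smul, ← sb_L_apply, k2, smul_eq_mul]
    have k4 : sb_L e (pz P v ξ * (P v)⁻¹ * pb P v η) = d * (c * cx (len P e) v) := by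
      rw [sb_L_apply, ← mulVec_mulVec, hd', mulVec_smul, mulVec_mulVec, Matrix.mul_assoc,
        nonsing_inv_mul _ hu, Matrix.mul_one, dotProduct_smul, ← sb_L_apply, k1, smul_eq_mul]
    rw [h3, map_smul, map_add, k3, k4, k1, k2, smul_eq_mul]
    have hne := sb_ne hP he hv
    field_simp
    ring

theorem dir_const (hP : Harm P) (he : e ≠ 0) (h : Par P e) :
    ∃ p : Fin m → ℂ, ∀ v ∈ Cone n, P v *ᵥ e = (len P e v : ℂ) • p := by
  have hz : ∀ v ∈ Cone n, ∀ ξ : Vec n,
      HasZ (fun w => (cx (len P e) w)⁻¹ • sb_V e (P w)) v ξ 0 0 := by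
    intro v hv ξ
    have z1 := (sb_len hP he hv ξ).inv (sb_ne hP he hv)
    have z2 := (hasZ (hP.diff hv) ξ).clm (sb_V e)
    have z3 := z1.smul z2
    obtain ⟨⟨c, hc⟩, ⟨d, hd⟩⟩ := h v hv ξ
    have hne := sb_ne hP he hv
    have k0 : star e ⬝ᵥ (P v *ᵥ e) = cx (len P e) v := sb_cx hP he hv
    have k1 : sb_L e (pz P v ξ) = c * cx (len P e) v := by
      rw [sb_L_apply, hc, dotProduct_smul, k0, smul_eq_mul]
    have k2 : sb_L e (pb P v ξ) = d * cx (len P e) v := by
      rw [sb_L_apply, hd, dotProduct_smul, k0, smul_eq_mul]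
    have k3 : sb_V e (pz P v ξ) = c • sb_V e (P v) := hc
    have k4 : sb_V e (pb P v ξ) = d • sb_V e (P v) := hd
    refine HasZ.of_eq z3 ?_ ?_
    · rw [k1, k3, smul_smul, ← add_smul]
      rw [show (cx (len P e) v)⁻¹ * c + -(c * cx (len P e) v) / cx (len P e) v ^ 2 = 0 by
        field_simp
        ring, zero_smul]
    · rw [k2, k4, smul_smul, ← add_smul]
      rw [show (cx (len P e) v)⁻¹ * d + -(d * cx (len P e) v) / cx (len P e) v ^ 2 = 0 by
        field_simp
        ring, zero_smul]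
  refine ⟨(cx (len P e) (base n))⁻¹ • sb_V e (P (base n)), fun v hv => ?_⟩
  have h1 : (cx (len P e) v)⁻¹ • sb_V e (P v) =
      (cx (len P e) (base n))⁻¹ • sb_V e (P (base n)) := by
    refine (isOpen_cone n).is_const_of_fderiv_eq_zero (𝕜 := ℝ) (isPreconnected_cone n)
      (f := fun w => (cx (len P e) w)⁻¹ • sb_V e (P w)) ?_ ?_ hv (base_mem n)
    · exact fun w hw => (hz w hw 0).diff.differentiableWithinAt
    · intro w hw
      ext1 ξ
      have := (hz w hw ξ).one
      rw [add_zero] at this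
      rw [this]
      rfl
  rw [← h1, smul_smul]
  have h2 : (len P e v : ℂ) * (cx (len P e) v)⁻¹ = 1 := mul_inv_cancel₀ (sb_ne hP he hv)
  rw [h2, one_smul]
  rfl

end Pool.Agent.Lib.MP_5d4057_al.CI
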