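import Pool.Agent.Lib.MP_5d4057_al.CI.Defs

/-!
# CI S3: blocks of pluriharmonic metrics, multiplication by `exp u`
-/

set_option autoImplicit false

namespace Pool.Agent.Lib.MP_5d4057_al.CI

open Matrix Filter Topology Pool.Agent.Lib.MP_5d4057_al Pool.Agent.Lib.MP_5d4057_al.Hyb
  Pool.Agent.Lib.MP_5d4057_al.HM Pool.Agent.Lib.MP_5d4057_al.RC Pool.Agent.Lib.MP_5d4057_al.NU

open scoped ComplexOrder MatrixOrder Matrix.Norms.L2Operator

variable {n m : ℕ}

/-- The lower block. -/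
private noncomputable def lbL (m : ℕ) : Mat (m + 1) →L[ℂ] Mat m :=
  LinearMap.toContinuousLinearMap
  { toFun := fun A => A.submatrix Fin.succ Fin.succ
    map_add' := fun _ _ => rfl
    map_smul' := fun _ _ => rfl }

private theorem lbL_dsum (c : ℂ) (A : Mat m) : lbL m (dsum c A) = A := by
  ext i k
  exact dsum_succ_succ c A i k

/-- The diagonal blocks. -/
private noncomputable def dbL (m : ℕ) : Mat (m + 1) →L[ℂ] Mat (m + 1) :=
  LinearMap.toContinuousLinearMap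
  { toFun := fun A => dsum (A 0 0) (lbL m A)
    map_add' := fun A B => by
      ext i j
      refine Fin.cases ?_ (fun i => ?_) i <;> refine Fin.cases ?_ (fun j => ?_) j <;> simp
    map_smul' := fun c A => by
      ext i j
      refine Fin.cases ?_ (fun i => ?_) i <;> refine Fin.cases ?_ (fun j => ?_) j <;> simp }

private theorem dbL_apply (A : Mat (m + 1)) : dbL m A = dsum (A 0 0) (lbL m A) := rfl

private theorem dbL_dsum (c : ℂ) (A : Mat m) : dbL m (dsum c A) = dsum c A := by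
  rw [dbL_apply, lbL_dsum, dsum_zero_zero]

/-- The lower block of a metric in block form. (`fun v i k => P v i.succ k.succ` is a continuous linear image of `P`;
compare `Harm.dsum` in HM/AppStdH.) -/
theorem harm_block {P : Vec n → Mat (m + 1)} (hP : Harm P) {f : Vec n → ℂ} {W : Vec n → Mat m}
    (h : ∀ v ∈ Cone n, P v = dsum (f v) (W v)) (hW : Homog W) : Harm W := by
  have hWL : ∀ v ∈ Cone n, W v = lbL m (P v) := fun v hv => by rw [h v hv, lbL_dsum]
  have hpos : ∀ v ∈ Cone n, (W v).PosDef := fun v hv => by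
    rw [hWL v hv]
    exact (hP.pos v hv).submatrix (Fin.succ_injective m)
  have hf : ∀ v ∈ Cone n, f v ≠ 0 := fun v hv h0 => by
    have h1 := (hP.pos v hv).diag_pos (i := 0)
    rw [h v hv, h0, dsum_zero_zero] at h1
    exact lt_irrefl _ h1
  have hz : ∀ v ∈ Cone n, ∀ ξ, HasZ W v ξ (lbL m (pz P v ξ)) (lbL m (pb P v ξ)) := by
    intro v hv ξ
    refine ((hasZ (hP.diff hv) ξ).clm (lbL m)).congr ?_
    filter_upwards [mem_nhds_cone hv] with w hw
    exact hWL w hw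
  have hdb : ∀ v ∈ Cone n, ∀ ξ, HasZ P v ξ (dbL m (pz P v ξ)) (dbL m (pb P v ξ)) := by
    intro v hv ξ
    refine ((hasZ (hP.diff hv) ξ).clm (dbL m)).congr ?_
    filter_upwards [mem_nhds_cone hv] with w hw
    rw [h w hw, dbL_dsum]
  have hpz : ∀ v ∈ Cone n, ∀ ξ, pz P v ξ = dsum (pz P v ξ 0 0) (lbL m (pz P v ξ)) :=
    fun v hv ξ => (hdb v hv ξ).pz
  have hpb : ∀ v ∈ Cone n, ∀ ξ, pb P v ξ = dsum (pb P v ξ 0 0) (lbL m (pb P v ξ)) :=
    fun v hv ξ => (hdb v hv ξ).pb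
  have key : ∀ v ∈ Cone n, ∀ (a c : ℂ) (A C : Mat m),
      dsum a A * (P v)⁻¹ * dsum c C = dsum (a * (f v)⁻¹ * c) (A * (W v)⁻¹ * C) := by
    intro v hv a c A C
    rw [h v hv, dsum_inv' (hf v hv) (hpos v hv).isUnit, dsum_mul, dsum_mul]
  refine Harm.mk' (fun v ξ => lbL m (pz P v ξ)) (fun v ξ => lbL m (pb P v ξ)) ?_ hW hpos hz ?_ ?_
  · have h1 : ContDiffOn ℝ 2 (fun v => lbL m (P v)) (Cone n) :=
      ((lbL m).restrictScalars ℝ).contDiff.comp_contDiffOn hP.cd
    exact h1.congr fun v hv => hWL v hv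
  · intro v hv ξ η
    have h1 : HasZ (fun w => pb P w η) v ξ _ _ :=
      hasZ (hasFDerivAt_pb (hP.cda hv) η).differentiableAt ξ
    have h3 : pz (fun w => pb P w η) v ξ = (1 / 2 : ℂ) •
      (pb P v η * (P v)⁻¹ * pz P v ξ + pz P v ξ * (P v)⁻¹ * pb P v η) := hP.ph v hv ξ η
    rw [(h1.clm (lbL m)).pz, h3, hpz v hv ξ, hpb v hv η, key v hv, key v hv, map_smul, map_add,
      lbL_dsum, lbL_dsum, lbL_dsum, lbL_dsum]
  · intro v hv ξ η
    have h2 : pz P v ξ * (P v)⁻¹ * pz P v η = pz P v η * (P v)⁻¹ * pz P v ξ := hP.comm v hv ξ η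
    rw [hpz v hv ξ, hpz v hv η, key v hv, key v hv] at h2
    have h4 := congrArg (lbL m) h2
    rw [lbL_dsum, lbL_dsum] at h4
    exact h4

/-- `HasZ` of `exp u`, for `u` real. -/
theorem hasZ_exp {u : Vec n → ℝ} {v : Vec n} (h : DifferentiableAt ℝ u v) (ξ : Vec n) :
    HasZ (fun w => ((Real.exp (u w) : ℝ) : ℂ)) v ξ
      (((Real.exp (u v) : ℝ) : ℂ) * pz (cx u) v ξ)
      (((Real.exp (u v) : ℝ) : ℂ) * pb (cx u) v ξ) := by
  have h1 := hasZ (pz_cx h ξ).diff ξ
  have h2 := h1.comp_holo (Complex.hasDerivAt_exp (cx u v)).hasFDerivAt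
  have e : ∀ w, Complex.exp (cx u w) = ((Real.exp (u w) : ℝ) : ℂ) := fun w => by
    rw [cx, Complex.ofReal_exp]
  refine HasZ.of_eq (h2.congr (Eventually.of_forall fun w => (e w).symm)) ?_ ?_
  · simp [← e, mul_comm]
  · simp [← e, mul_comm]

/-- Multiplication by `exp u` with `u` pluriharmonic: `pz (E W) ξ = E (a W + pz W ξ)` with `E = exp u`, `a = pz (cx u) v ξ`;
the terms with `a` cancel in `Harm.ph` because `pz (pb u η) ξ = 0`. -/
theorem harm_exp {W : Vec n → Mat m} (hW : Harm W) {u : Vec n → ℝ} (hu : PH u) :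
    Harm fun v => ((Real.exp (u v) : ℝ) : ℂ) • W v := by
  have hcu : ∀ v ∈ Cone n, ContDiffAt ℝ 2 u v := fun v hv => hu.cd.contDiffAt (mem_nhds_cone hv)
  have hdu : ∀ v ∈ Cone n, DifferentiableAt ℝ u v := fun v hv =>
    (hcu v hv).differentiableAt (by norm_num)
  have hE0 : ∀ v, ((Real.exp (u v) : ℝ) : ℂ) ≠ 0 := fun v => by
    exact_mod_cast (Real.exp_pos _).ne'
  have hinv : ∀ v, (((Real.exp (u v) : ℝ) : ℂ) • W v)⁻¹ = ((Real.exp (u v) : ℝ) : ℂ)⁻¹ • (W v)⁻¹ ∨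
      ¬ IsUnit (W v) := by
    intro v
    by_cases hU : IsUnit (W v)
    · left
      refine Matrix.inv_eq_right_inv ?_
      rw [smul_mul_smul_comm, mul_inv_cancel₀ (hE0 v), one_smul,
        mul_nonsing_inv _ ((isUnit_iff_isUnit_det _).1 hU)]
    · right
      exact hU
  -- the mixed derivative of `u`
  have hmix : ∀ v ∈ Cone n, ∀ ξ η : Vec n, HasZ (fun w => pb (cx u) w η) v ξ 0
      (star (pz (fun w => pz (cx u) w η) v ξ)) := by
    intro v hv ξ η
    have h1 : HasZ (fun w => pz (cx u) w η) v ξ _ _ :=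
      hasZ (hasFDerivAt_pz (cd_cx (hcu v hv)) η).differentiableAt ξ
    have h2 := hasZ_conj h1
    rw [hu.ph v hv η ξ, star_zero] at h2
    refine h2.congr ?_
    filter_upwards [mem_nhds_cone hv] with w hw
    exact (pz_cx (hdu w hw) η).pb
  have key : ∀ v ∈ Cone n, ∀ (c d : ℂ) (A B : Mat m),
      (((Real.exp (u v) : ℝ) : ℂ) • (A + c • W v)) * (((Real.exp (u v) : ℝ) : ℂ) • W v)⁻¹ *
        (((Real.exp (u v) : ℝ) : ℂ) • (B + d • W v)) =
      ((Real.exp (u v) : ℝ) : ℂ) • (A * (W v)⁻¹ * B + d • A + c • B + (c * d) • W v) := by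
    intro v hv c d A B
    have hU := hW.unit hv
    have hd := (isUnit_iff_isUnit_det _).1 hU
    have h1 := (hinv v).resolve_right (not_not.2 hU)
    rw [h1, smul_mul_smul_comm, mul_inv_cancel₀ (hE0 v), one_smul, Matrix.mul_smul]
    congr 1
    rw [add_mul, smul_mul_assoc, mul_nonsing_inv _ hd, add_mul, mul_add, mul_add, mul_smul_comm,
      Matrix.mul_assoc A (W v)⁻¹ (W v), nonsing_inv_mul _ hd, mul_one, smul_mul_assoc, one_mul,
      smul_mul_assoc, one_mul, smul_smul]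
    abel
  refine Harm.mk' (fun v ξ => ((Real.exp (u v) : ℝ) : ℂ) • (pz W v ξ + pz (cx u) v ξ • W v))
    (fun v ξ => ((Real.exp (u v) : ℝ) : ℂ) • (pb W v ξ + pb (cx u) v ξ • W v)) ?_ ?_ ?_ ?_ ?_ ?_
  · have h1 : ContDiffOn ℝ 2 (fun v => ((Real.exp (u v) : ℝ) : ℂ)) (Cone n) :=
      Complex.ofRealCLM.contDiff.comp_contDiffOn (Real.contDiff_exp.comp_contDiffOn hu.cd)
    exact h1.smul hW.cd
  · intro c hc v hv
    show ((Real.exp (u (c • v)) : ℝ) : ℂ) • W (c • v) = _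
    rw [hW.hom c hc v hv, hu.hom c hc v hv]
  · intro v hv
    exact (hW.pos v hv).smul (by exact_mod_cast Real.exp_pos (u v))
  · intro v hv ξ
    refine HasZ.of_eq ((hasZ_exp (hdu v hv) ξ).smul (hasZ (hW.diff hv) ξ)) ?_ ?_
    · rw [smul_add, smul_smul]
    · rw [smul_add, smul_smul]
  · intro v hv ξ η
    have h1 : HasZ (fun w => pb W w η) v ξ _ _ :=
      hasZ (hasFDerivAt_pb (hW.cda hv) η).differentiableAt ξ
    have h3 : pz (fun w => pb W w η) v ξ = (1 / 2 : ℂ) •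
      (pb W v η * (W v)⁻¹ * pz W v ξ + pz W v ξ * (W v)⁻¹ * pb W v η) := hW.ph v hv ξ η
    have h2 := (hasZ_exp (hdu v hv) ξ).smul (h1.add ((hmix v hv ξ η).smul (hasZ (hW.diff hv) ξ)))
    rw [h2.pz, key v hv, key v hv, h3]
    module
  · intro v hv ξ η
    have h2 : pz W v ξ * (W v)⁻¹ * pz W v η = pz W v η * (W v)⁻¹ * pz W v ξ := hW.comm v hv ξ η
    show (((Real.exp (u v) : ℝ) : ℂ) • (pz W v ξ + pz (cx u) v ξ • W v)) *
      (((Real.exp (u v) : ℝ) : ℂ) • W v)⁻¹ *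
        (((Real.exp (u v) : ℝ) : ℂ) • (pz W v η + pz (cx u) v η • W v)) =
      (((Real.exp (u v) : ℝ) : ℂ) • (pz W v η + pz (cx u) v η • W v)) *
      (((Real.exp (u v) : ℝ) : ℂ) • W v)⁻¹ *
        (((Real.exp (u v) : ℝ) : ℂ) • (pz W v ξ + pz (cx u) v ξ • W v))
    rw [key v hv, key v hv, h2]
    module

/-- Real multiples of pluriharmonic functions. -/
theorem PH.smul {u : Vec n → ℝ} (hu : PH u) (c : ℝ) : PH fun v => c * u v := by
  have hcu : ∀ v ∈ Cone n, ContDiffAt ℝ 2 u v := fun v hv => hu.cd.contDiffAt (mem_nhds_cone hv)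
  refine ⟨fun a ha v hv => ?_, contDiffOn_const.mul hu.cd, fun v hv ξ η => ?_⟩
  · show c * u (a • v) = c * u v
    rw [hu.hom a ha v hv]
  · have e : cx (fun v => c * u v) = fun v => (c : ℂ) • cx u v := by
      funext v
      simp [cx]
    have h1 : HasZ (fun w => pz (cx u) w ξ) v η _ _ :=
      hasZ (hasFDerivAt_pz (cd_cx (hcu v hv)) ξ).differentiableAt η
    have h2 : (fun w => pz (cx fun v => c * u v) w ξ) =ᶠ[𝓝 v] fun w => (c : ℂ) • pz (cx u) w ξ := by
      filter_upwards [mem_nhds_cone hv] with w hw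
      rw [e]
      exact ((pz_cx ((hcu w hw).differentiableAt (by norm_num)) ξ).const_smul (c : ℂ)).pz
    rw [pb_congr h2, (h1.const_smul (c : ℂ)).pb, hu.ph v hv ξ η, smul_zero]

end Pool.Agent.Lib.MP_5d4057_al.CI
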