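import Pool.Agent.Lib.MP_5d4057_al.CI.SliceA
import Pool.Agent.Lib.MP_5d4057_al.CI.SliceB
import Pool.Agent.Lib.MP_5d4057_al.CI.SliceC

/-!
# CI S4: the metric of a representation `χ ⊕ ψ σ`, `σ` irreducible, `χ` an arbitrary character
-/

set_option autoImplicit false

namespace Pool.Agent.Lib.MP_5d4057_al.CI

open Matrix Filter Topology Pool.Agent.Lib.MP_5d4057_al Pool.Agent.Lib.MP_5d4057_al.Hyb
  Pool.Agent.Lib.MP_5d4057_al.HM Pool.Agent.Lib.MP_5d4057_al.RC Pool.Agent.Lib.MP_5d4057_al.NU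

open scoped ComplexOrder MatrixOrder Matrix.Norms.L2Operator

variable {j : ℕ}

section aux

variable {n m : ℕ}

private theorem sc_len (P : Vec n → Mat (m + 1)) (v : Vec n) :
    len P (Pi.single 0 1) v = (P v 0 0).re := by
  rw [len]
  congr 1
  have h1 : star (Pi.single 0 1 : Fin (m + 1) → ℂ) = Pi.single 0 1 := by
    rw [← Pi.single_star, star_one]
  rw [h1, single_one_dotProduct]
  simp [mulVec, dotProduct, Pi.single_apply]

private theorem sc_log_gr {f : Vec n → ℝ} (hf : Pol f) (hp : ∀ v ∈ Cone n, 0 < f v) :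
    LogGr fun v => Real.log (f v) := by
  obtain ⟨N, C, hC, h⟩ := hf
  refine ⟨N, Real.log (C + 1), Nat.cast_nonneg N, fun g => ?_⟩
  have h1 := one_le_ch g
  have h2 := hp _ (orbit_mem g)
  have h3 : f (act g (base n)) ≤ (C + 1) * ch g ^ N := by
    have h4 := (le_abs_self _).trans (h g)
    have h5 : 0 ≤ ch g ^ N := by positivity
    linarith
  calc Real.log (f (act g (base n))) ≤ Real.log ((C + 1) * ch g ^ N) := Real.log_le_log h2 h3
    _ = Real.log (C + 1) + N * Real.log (ch g) := by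
      rw [Real.log_mul (by positivity) (by positivity), Real.log_pow]

private theorem sc_00 (x : ℂ) (A : Mat m) (M : Mat (m + 1)) :
    (dsum x A * M * (dsum x A)ᴴ) 0 0 = x * M 0 0 * star x := by
  simp [Matrix.mul_apply, Fin.sum_univ_succ]

private theorem sc_s0 (x : ℂ) (A : Mat m) (M : Mat (m + 1)) (i : Fin m) :
    (dsum x A * M * (dsum x A)ᴴ) i.succ 0 = (A *ᵥ fun k => M k.succ 0) i * star x := by
  simp [Matrix.mul_apply, Fin.sum_univ_succ, mulVec, dotProduct]

private theorem sc_re (x z : ℂ) : (x * z * star x).re = ‖x‖ ^ 2 * z.re := by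
  have h1 : x * z * star x = ((‖x‖ ^ 2 : ℝ) : ℂ) * z := by
    rw [← Complex.normSq_eq_norm_sq, ← Complex.mul_conj]
    show x * z * star x = x * star x * z
    ring
  rw [h1, Complex.re_ofReal_mul]

private theorem sc_lap_const {f : Vec n → ℝ} {c : ℝ} (h : ∀ v ∈ Cone n, f v = c) {v : Vec n}
    (hv : v ∈ Cone n) : Lap f v = 0 := by
  have h1 : f =ᶠ[𝓝 v] fun _ => c := by
    filter_upwards [mem_nhds_cone hv] with w hw
    exact h w hw
  rw [lap_congr h1]
  unfold Lap
  have h1 : fderiv ℝ (fun _ : Vec n => c) = 0 := by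
    funext w
    exact fderiv_const_apply c
  have h2 : fderiv ℝ (0 : Vec n → (Vec n →L[ℝ] ℝ)) v = 0 := fderiv_const_apply 0
  rw [h1, h2]
  simp

/-- An invariant line of an absolutely irreducible representation. -/
private theorem sc_line (hm : 2 ≤ m) {S : Set (Mat m)} (hS : Submodule.span ℂ S = ⊤)
    {p : Fin m → ℂ} (h : ∀ A ∈ S, ∃ c : ℂ, A *ᵥ p = c • p) : p = 0 := by
  have hall : ∀ X : Mat m, ∃ c : ℂ, X *ᵥ p = c • p := by
    let V : Submodule ℂ (Mat m) :=
      { carrier := {X | ∃ c : ℂ, X *ᵥ p = c • p}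
        add_mem' := by
          rintro X Y ⟨a, ha⟩ ⟨b, hb⟩
          exact ⟨a + b, by rw [Matrix.add_mulVec, ha, hb, add_smul]⟩
        zero_mem' := ⟨0, by rw [Matrix.zero_mulVec, zero_smul]⟩
        smul_mem' := by
          rintro c X ⟨a, ha⟩
          exact ⟨c * a, by rw [Matrix.smul_mulVec, ha, smul_smul]⟩ }
    have hV : V = ⊤ := by
      rw [eq_top_iff, ← hS, Submodule.span_le]
      exact fun A hA => h A hA
    intro X
    have : X ∈ V := by rw [hV]; trivial
    exact this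
  by_contra hp
  obtain ⟨i, hi⟩ := Function.ne_iff.1 hp
  rw [Pi.zero_apply] at hi
  obtain ⟨k, hk⟩ : ∃ k : Fin m, k ≠ i := by
    have : Nontrivial (Fin m) := Fin.nontrivial_iff_two_le.2 hm
    exact exists_ne i
  obtain ⟨c, hc⟩ := hall (Matrix.of fun a b => if a = k then (if b = i then 1 else 0) else 0)
  have h1 := congrFun hc i
  have h2 := congrFun hc k
  simp [mulVec, dotProduct, hk.symm] at h1 h2
  rcases h1 with h1 | h1
  · rw [h1, zero_mul] at h2
    exact hi h2
  · exact hi h1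

private noncomputable def sc_E (i k : Fin (m + 1)) : Mat (m + 1) →L[ℝ] ℝ :=
  LinearMap.toContinuousLinearMap
    { toFun := fun A : Mat (m + 1) => (A i k).re
      map_add' := fun A B => by simp [Matrix.add_apply]
      map_smul' := fun c A => by simp [Matrix.smul_apply] }

private noncomputable def sc_B : Mat (m + 1) →L[ℝ] Mat m :=
  LinearMap.toContinuousLinearMap
    { toFun := fun A : Mat (m + 1) => A.submatrix Fin.succ Fin.succ
      map_add' := fun A B => by
        ext i k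
        simp [Matrix.add_apply]
      map_smul' := fun c A => by
        ext i k
        simp [Matrix.smul_apply] }

private theorem sc_pol_len {P : Vec n → Mat (m + 1)} (hP : Pol P) :
    Pol (len P (Pi.single 0 1)) :=
  (hP.clm (sc_E 0 0)).congr fun v _ => sc_len P v

private theorem sc_rpow {x s : ℝ} (hx : 0 < x) (hs : 0 ≤ s) (hs1 : s ≤ 1) :
    Real.exp (s * Real.log x) ≤ 1 + x := by
  by_cases h : Real.log x ≤ 0
  · have h1 : Real.exp (s * Real.log x) ≤ 1 := by
      rw [← Real.exp_zero]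
      exact Real.exp_le_exp.2 (mul_nonpos_of_nonneg_of_nonpos hs h)
    linarith
  · push Not at h
    have h1 : Real.exp (s * Real.log x) ≤ x := by
      calc Real.exp (s * Real.log x) ≤ Real.exp (Real.log x) := by
            refine Real.exp_le_exp.2 ?_
            nlinarith
        _ = x := Real.exp_log hx
    linarith

/-- The factor of automorphy of the root of the length. -/
private theorem sc_fac {x y : ℂ} {N : ℕ} (h : x * y ^ (N + 1) = 1) (A : ℝ) (hA : 0 < A) :
    Real.exp (1 / ((N : ℝ) + 1) * Real.log (‖x‖ ^ 2 * A)) * ‖y‖ ^ 2 =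
      Real.exp (1 / ((N : ℝ) + 1) * Real.log A) := by
  have hx0 : x ≠ 0 := by
    rintro rfl
    rw [zero_mul] at h
    exact zero_ne_one h
  have hy0 : y ≠ 0 := by
    rintro rfl
    rw [zero_pow (by omega), mul_zero] at h
    exact zero_ne_one h
  have hx : 0 < ‖x‖ := norm_pos_iff.2 hx0
  have hy : 0 < ‖y‖ := norm_pos_iff.2 hy0
  have h1 : ‖x‖ * ‖y‖ ^ (N + 1) = 1 := by
    rw [← norm_pow, ← norm_mul, h, norm_one]
  have h2 : Real.log ‖x‖ = -((N : ℝ) + 1) * Real.log ‖y‖ := by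
    have h3 := congrArg Real.log h1
    rw [Real.log_mul hx.ne' (by positivity), Real.log_pow, Real.log_one] at h3
    push_cast at h3
    linarith
  have h4 : ‖y‖ ^ 2 = Real.exp (2 * Real.log ‖y‖) := by
    rw [mul_comm, Real.exp_mul, Real.exp_log hy]
    norm_num
  have hN : (N : ℝ) + 1 ≠ 0 := by positivity
  rw [h4, ← Real.exp_add, Real.log_mul (by positivity) hA.ne', Real.log_pow, h2]
  congr 1
  push_cast
  field_simp
  ring

end aux

/-- PROOF (helper33): `e = Pi.single 0 1`. `U = log (len P e) + log (len P⁻¹ e)` is `C²`, homogeneous, `Γ`-invariant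
(`len P e (γ w) = |χ|² len P e w`, for `P⁻¹` with `|χ|⁻²`), of logarithmic growth, `Lap U ≥ 0`: constant by `Rec.liou`;
so both Laplacians vanish, `Par P e`, `P e = φ p`; `p` is an eigenvector of all `χ ⊕ ψ σ γ`, so `p = e` (irreducibility);
`P = dsum φ W`, `u = log φ / (j + 1)`, `exp u • W` is `Harm` and `Equi σ`, so it is `a • M` by uniqueness
(`thmU_pol` and Schur, as in `slice_form_rec`). -/
theorem slice_char (hj : 1 ≤ j) {Γ : Subgroup (SUGroup j)} (hΓ : Rec Γ)
    (σ : Γ →* Mat (j + 1)) (hσ : Submodule.span ℂ (Set.range σ) = ⊤)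
    {M : Vec j → Mat (j + 1)} (hM : Harm M) (hMp : Pol fun w => (M w)⁻¹) (hMe : Equi σ M)
    {P : Vec j → Mat (j + 2)} (hP : Harm P) (hPp : Pol P) (hPi : Pol fun w => (P w)⁻¹)
    (χ ψ : Γ → ℂ) (hdet : ∀ γ, χ γ * ψ γ ^ (j + 1) = 1)
    (he : ∀ γ : Γ, ∀ w ∈ Cone j, P (act (γ : SUGroup j) w) =
      dsum (χ γ) (ψ γ • σ γ) * P w * (dsum (χ γ) (ψ γ • σ γ))ᴴ) :
    ∃ (u : Vec j → ℝ) (a : ℂ), PH u ∧ 0 < a ∧ ∀ w ∈ Cone j, P w = ublk u a M w := by
  obtain ⟨e, heq⟩ : ∃ e : Fin (j + 2) → ℂ, e = Pi.single 0 1 := ⟨_, rfl⟩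
  have hne : e ≠ 0 := by
    intro h
    have h1 := congrFun h 0
    rw [heq, Pi.single_eq_same] at h1
    exact one_ne_zero h1
  have hχ0 : ∀ γ, χ γ ≠ 0 := by
    intro γ h
    have h1 := hdet γ
    rw [h, zero_mul] at h1
    exact zero_ne_one h1
  have hψ0 : ∀ γ, ψ γ ≠ 0 := by
    intro γ h
    have h1 := hdet γ
    rw [h, zero_pow (by omega), mul_zero] at h1
    exact zero_ne_one h1
  have hσu : ∀ γ, IsUnit (σ γ) := by
    intro γ
    have h3 : σ γ * σ γ⁻¹ = 1 := by rw [← map_mul, mul_inv_cancel, map_one]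
    exact IsUnit.of_mul_eq_one _ h3
  have hPI : Harm fun w => (P w)⁻¹ := hP.inv
  have hAe : ∀ γ : Γ, ∀ w ∈ Cone j, len P e (act (γ : SUGroup j) w) =
      ‖χ γ‖ ^ 2 * len P e w := by
    intro γ w hw
    rw [heq, sc_len, sc_len, he γ w hw, sc_00, sc_re]
  have hBe : ∀ γ : Γ, ∀ w ∈ Cone j, len (fun w => (P w)⁻¹) e (act (γ : SUGroup j) w) =
      (‖χ γ‖ ^ 2)⁻¹ * len (fun w => (P w)⁻¹) e w := by
    intro γ w hw
    have hA : IsUnit (ψ γ • σ γ) := by
      have h1 : ψ γ • σ γ = (ψ γ • (1 : Mat (j + 1))) * σ γ := by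
        rw [Matrix.smul_mul, Matrix.one_mul]
      have h2 : IsUnit (ψ γ • (1 : Mat (j + 1))) := by
        refine IsUnit.of_mul_eq_one ((ψ γ)⁻¹ • (1 : Mat (j + 1))) ?_
        rw [Matrix.smul_mul, Matrix.one_mul, smul_smul, mul_inv_cancel₀ (hψ0 γ), one_smul]
      rw [h1]
      exact h2.mul (hσu γ)
    have h1 : (dsum (χ γ) (ψ γ • σ γ) * P w * (dsum (χ γ) (ψ γ • σ γ))ᴴ)⁻¹ =
        dsum (star (χ γ)⁻¹) ((ψ γ • σ γ)⁻¹)ᴴ * (P w)⁻¹ *
          (dsum (star (χ γ)⁻¹) ((ψ γ • σ γ)⁻¹)ᴴ)ᴴ := by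
      rw [conj_inv, ← conjTranspose_nonsing_inv, dsum_inv' (hχ0 γ) hA, dsum_conjTranspose,
        dsum_conjTranspose, star_star, conjTranspose_conjTranspose]
    rw [heq, sc_len, sc_len]
    show ((P (act (γ : SUGroup j) w))⁻¹ 0 0).re = _
    rw [he γ w hw, h1, sc_00, sc_re, norm_star, norm_inv, inv_pow]
  have hApos : ∀ w ∈ Cone j, 0 < len P e w := fun w hw => len_pos hP hne hw
  have hBpos : ∀ w ∈ Cone j, 0 < len (fun w => (P w)⁻¹) e w := fun w hw => len_pos hPI hne hw
  have hPolA : Pol (len P e) := by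
    rw [heq]
    exact sc_pol_len hPp
  have hPolB : Pol (len (fun w => (P w)⁻¹) e) := by
    rw [heq]
    exact sc_pol_len hPi
  obtain ⟨f, hf⟩ : ∃ f : Vec j → ℝ, f = fun w => Real.log (len P e w) := ⟨_, rfl⟩
  obtain ⟨k, hk⟩ : ∃ k : Vec j → ℝ, k = fun w => Real.log (len (fun w => (P w)⁻¹) e w) :=
    ⟨_, rfl⟩
  have hfc : ContDiffOn ℝ 2 f (Cone j) := by
    rw [hf]
    exact (len_cd hP).log fun w hw => (hApos w hw).ne'
  have hkc : ContDiffOn ℝ 2 k (Cone j) := by
    rw [hk]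
    exact (len_cd hPI).log fun w hw => (hBpos w hw).ne'
  have hfL : ∀ w ∈ Cone j, 0 ≤ Lap f w := by
    intro w hw
    rw [hf]
    exact lap_log_len_nonneg hP hne hw
  have hkL : ∀ w ∈ Cone j, 0 ≤ Lap k w := by
    intro w hw
    rw [hk]
    exact lap_log_len_nonneg hPI hne hw
  have hLU : ∀ w ∈ Cone j, Lap (fun w => f w + 1 * k w) w = Lap f w + 1 * Lap k w := fun w hw =>
    lap_add_mul (hfc.contDiffAt (mem_nhds_cone hw)) (hkc.contDiffAt (mem_nhds_cone hw)) 1
  have hUconst : ∀ w ∈ Cone j, (fun w => f w + 1 * k w) w = (fun w => f w + 1 * k w) (base j) := by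
    refine hΓ.liou _ ?_ ?_ ?_ ?_ ?_
    · intro c hc w hw
      show f (c • w) + 1 * k (c • w) = f w + 1 * k w
      rw [hf, hk]
      show Real.log (len P e (c • w)) + 1 * Real.log (len (fun w => (P w)⁻¹) e (c • w)) = _
      rw [len_hom hP c hc w hw, len_hom hPI c hc w hw]
    · exact hfc.add (contDiffOn_const.mul hkc)
    · intro γ hγ w hw
      show f (act γ w) + 1 * k (act γ w) = f w + 1 * k w
      rw [hf, hk]
      show Real.log (len P e (act γ w)) + 1 * Real.log (len (fun w => (P w)⁻¹) e (act γ w)) =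
        Real.log (len P e w) + 1 * Real.log (len (fun w => (P w)⁻¹) e w)
      have h1 := hAe ⟨γ, hγ⟩ w hw
      have h2 := hBe ⟨γ, hγ⟩ w hw
      have h3 : (0 : ℝ) < ‖χ ⟨γ, hγ⟩‖ ^ 2 := by
        have := norm_pos_iff.2 (hχ0 ⟨γ, hγ⟩)
        positivity
      rw [h1, h2, Real.log_mul h3.ne' (hApos w hw).ne',
        Real.log_mul (inv_pos.2 h3).ne' (hBpos w hw).ne', Real.log_inv]
      ring
    · obtain ⟨N₁, C₁, hN₁, h1⟩ := sc_log_gr hPolA hApos
      obtain ⟨N₂, C₂, hN₂, h2⟩ := sc_log_gr hPolB hBpos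
      refine ⟨N₁ + N₂, C₁ + C₂, add_nonneg hN₁ hN₂, fun g => ?_⟩
      have h3 := h1 g
      have h4 := h2 g
      show f (act g (base j)) + 1 * k (act g (base j)) ≤ _
      rw [hf, hk]
      show Real.log (len P e (act g (base j))) +
        1 * Real.log (len (fun w => (P w)⁻¹) e (act g (base j))) ≤ _
      linarith
    · intro w hw
      rw [hLU w hw, one_mul]
      exact add_nonneg (hfL w hw) (hkL w hw)
  have hpar : Par P e := by
    refine par_of_lap_zero hP hne fun w hw => ?_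
    have h1 := hLU w hw
    rw [sc_lap_const hUconst hw, one_mul] at h1
    have h2 := hfL w hw
    have h3 := hkL w hw
    have h4 : Lap f w = 0 := by linarith
    rwa [hf] at h4
  obtain ⟨p, hp⟩ := dir_const hP hne hpar
  have hcol : ∀ w ∈ Cone j, ∀ i, P w i 0 = (len P e w : ℂ) * p i := by
    intro w hw i
    have h1 := congrFun (hp w hw) i
    rw [heq] at h1
    rw [heq]
    rw [Pi.smul_apply, smul_eq_mul] at h1
    rw [← h1]
    simp [mulVec, dotProduct, Pi.single_apply]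
  have hA0 : ∀ w ∈ Cone j, (len P e w : ℂ) ≠ 0 := fun w hw => by
    exact_mod_cast (hApos w hw).ne'
  have hp0 : (fun i : Fin (j + 1) => p i.succ) = 0 := by
    refine sc_line (by omega) hσ ?_
    rintro _ ⟨γ, rfl⟩
    refine ⟨(ψ γ)⁻¹ * χ γ, ?_⟩
    funext i
    have hb : base j ∈ Cone j := base_mem j
    have h1 := hcol _ (act_mem (γ : SUGroup j) hb) i.succ
    rw [he γ _ hb, sc_s0, hAe γ _ hb] at h1
    have h2 : (fun k : Fin (j + 1) => P (base j) k.succ 0) =
        (len P e (base j) : ℂ) • fun k : Fin (j + 1) => p k.succ := by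
      funext k
      rw [hcol _ hb]
      rfl
    rw [h2, mulVec_smul, Pi.smul_apply, smul_eq_mul, smul_mulVec, Pi.smul_apply,
      smul_eq_mul] at h1
    have h3 : ((‖χ γ‖ ^ 2 * len P e (base j) : ℝ) : ℂ) = χ γ * star (χ γ) *
        (len P e (base j) : ℂ) := by
      rw [Complex.ofReal_mul, ← Complex.normSq_eq_norm_sq, ← Complex.mul_conj]
      rfl
    rw [h3] at h1
    have h4 : star (χ γ) ≠ 0 := star_ne_zero.2 (hχ0 γ)
    have h5 := hA0 _ hb
    rw [Pi.smul_apply, smul_eq_mul]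
    have h6 : ψ γ * (σ γ *ᵥ fun k => p k.succ) i = χ γ * p i.succ := by
      have h7 : (star (χ γ) * (len P e (base j) : ℂ)) * (ψ γ * (σ γ *ᵥ fun k => p k.succ) i) =
          (star (χ γ) * (len P e (base j) : ℂ)) * (χ γ * p i.succ) := by
        linear_combination h1
      exact mul_left_cancel₀ (mul_ne_zero h4 h5) h7
    have h8 := hψ0 γ
    rw [mul_assoc, ← h6, ← mul_assoc, inv_mul_cancel₀ h8, one_mul]
  -- the metric in block form
  have hblk : ∀ w ∈ Cone j, P w = dsum (len P e w : ℂ) ((P w).submatrix Fin.succ Fin.succ) := by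
    intro w hw
    have hs0 : ∀ i : Fin (j + 1), P w i.succ 0 = 0 := by
      intro i
      rw [hcol w hw, show p i.succ = 0 from congrFun hp0 i, mul_zero]
    ext i k
    refine Fin.cases ?_ (fun i => ?_) i <;> refine Fin.cases ?_ (fun k => ?_) k
    · rw [dsum_zero_zero]
      have h1 := len_cx hP (e := e) hw
      rw [← h1, heq]
      have h2 : star (Pi.single 0 1 : Fin (j + 2) → ℂ) = Pi.single 0 1 := by
        rw [← Pi.single_star, star_one]
      rw [h2, single_one_dotProduct]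
      simp [mulVec, dotProduct, Pi.single_apply]
    · rw [dsum_zero_succ]
      have h1 := (hP.pos w hw).isHermitian.apply 0 k.succ
      rw [← h1, hs0, star_zero]
    · rw [dsum_succ_zero, hs0]
    · rw [dsum_succ_succ]
      rfl
  obtain ⟨W, hW⟩ : ∃ W : Vec j → Mat (j + 1), W = fun w => (P w).submatrix Fin.succ Fin.succ :=
    ⟨_, rfl⟩
  have hblk' : ∀ w ∈ Cone j, P w = dsum (len P e w : ℂ) (W w) := by
    intro w hw
    rw [hW]
    exact hblk w hw
  have hWhom : Homog W := by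
    intro c hc w hw
    rw [hW]
    show (P (c • w)).submatrix Fin.succ Fin.succ = _
    rw [hP.hom c hc w hw]
  have hWH : Harm W := harm_block hP hblk' hWhom
  have hWe : ∀ γ : Γ, ∀ w ∈ Cone j, W (act (γ : SUGroup j) w) =
      (ψ γ • σ γ) * W w * (ψ γ • σ γ)ᴴ := by
    intro γ w hw
    have h1 := he γ w hw
    rw [hblk' w hw, hblk' _ (act_mem (γ : SUGroup j) hw), dsum_conjTranspose, dsum_mul,
      dsum_mul] at h1
    exact (dsum_inj h1).2
  obtain ⟨u, hu⟩ : ∃ u : Vec j → ℝ, u = fun w => 1 / ((j : ℝ) + 1) * Real.log (len P e w) :=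
    ⟨_, rfl⟩
  have huPH : PH u := by
    rw [hu]
    exact (ph_log_len hP hne hpar).smul _
  have hF : Harm fun w => ((Real.exp (u w) : ℝ) : ℂ) • W w := harm_exp hWH huPH
  have hFe : Equi σ fun w => ((Real.exp (u w) : ℝ) : ℂ) • W w := by
    intro γ w hw
    show ((Real.exp (u (act (γ : SUGroup j) w)) : ℝ) : ℂ) • W (act (γ : SUGroup j) w) =
      σ γ * (((Real.exp (u w) : ℝ) : ℂ) • W w) * (σ γ)ᴴ
    have h1 := sc_fac (hdet γ) (len P e w) (hApos w hw)
    have h2 : Real.exp (u (act (γ : SUGroup j) w)) * ‖ψ γ‖ ^ 2 = Real.exp (u w) := by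
      rw [hu]
      show Real.exp (1 / ((j : ℝ) + 1) * Real.log (len P e (act (γ : SUGroup j) w))) *
        ‖ψ γ‖ ^ 2 = Real.exp (1 / ((j : ℝ) + 1) * Real.log (len P e w))
      rw [hAe γ w hw]
      exact h1
    have h3 : ψ γ * star (ψ γ) = ((‖ψ γ‖ ^ 2 : ℝ) : ℂ) := by
      rw [← Complex.normSq_eq_norm_sq, ← Complex.mul_conj]
      rfl
    rw [hWe γ w hw, ← h2, conjTranspose_smul, Matrix.smul_mul, Matrix.smul_mul,
      Matrix.mul_smul, smul_smul, smul_smul, Matrix.mul_smul, Matrix.smul_mul]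
    congr 1
    rw [mul_assoc, h3]
    push_cast
    ring
  have hFp : Pol fun w => ((Real.exp (u w) : ℝ) : ℂ) • W w := by
    have h1 : Pol W := by
      rw [hW]
      exact hPp.clm sc_B
    have h2 : Pol fun w => (1 : ℝ) + len P e w := (Pol.const (1 : ℝ)).add hPolA
    have h3 : Pol fun w => ((Real.exp (u w) : ℝ) : ℂ) • (1 : Mat (j + 1)) := by
      refine h2.of_le (norm_nonneg (1 : Mat (j + 1))) fun g => ?_
      have h4 := hApos _ (orbit_mem g)
      rw [norm_smul, Complex.norm_real, Real.norm_eq_abs, Real.norm_eq_abs,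
        abs_of_pos (Real.exp_pos _), abs_of_pos (by linarith), mul_comm]
      refine mul_le_mul_of_nonneg_left ?_ (norm_nonneg _)
      rw [hu]
      have h5 : (0 : ℝ) ≤ (j : ℝ) := Nat.cast_nonneg j
      refine sc_rpow h4 (by positivity) ?_
      rw [div_le_one (by positivity)]
      linarith
    exact (h3.mul h1).congr fun w _ => by rw [Matrix.smul_mul, Matrix.one_mul]
  obtain ⟨S, hS⟩ := thmU_pol hj hΓ hM hF hMe hFe hMp hFp
  have hb : base j ∈ Cone j := base_mem j
  have hcomm : ∀ γ, S * (σ γ)ᴴ = (σ γ)ᴴ * S := by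
    intro γ
    have h1 := hFe γ (base j) hb
    have h2 := hS _ (act_mem (γ : SUGroup j) hb)
    have h3 := hS _ hb
    have h1' : ((Real.exp (u (act (γ : SUGroup j) (base j))) : ℝ) : ℂ) •
        W (act (γ : SUGroup j) (base j)) =
        σ γ * (((Real.exp (u (base j)) : ℝ) : ℂ) • W (base j)) * (σ γ)ᴴ := h1
    rw [h2, h3, hMe γ _ hb] at h1'
    have h4 : σ γ * (M (base j) * (S * (σ γ)ᴴ)) = σ γ * (M (base j) * ((σ γ)ᴴ * S)) := by
      calc _ = σ γ * (M (base j) * S) * (σ γ)ᴴ := by simp only [Matrix.mul_assoc]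
        _ = σ γ * M (base j) * (σ γ)ᴴ * S := h1'.symm
        _ = _ := by simp only [Matrix.mul_assoc]
    exact (hM.unit hb).mul_left_cancel ((hσu γ).mul_left_cancel h4)
  obtain ⟨a, ha⟩ : ∃ a : ℂ, S = a • (1 : Mat (j + 1)) := by
    refine scalar_of_comm fun X => ?_
    let V : Submodule ℂ (Mat (j + 1)) :=
      { carrier := {X | S * Xᴴ = Xᴴ * S}
        add_mem' := by
          intro X Y hX hY
          have hX' : S * Xᴴ = Xᴴ * S := hX
          have hY' : S * Yᴴ = Yᴴ * S := hY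
          show S * (X + Y)ᴴ = (X + Y)ᴴ * S
          rw [conjTranspose_add, Matrix.mul_add, Matrix.add_mul, hX', hY']
        zero_mem' := by
          show S * (0 : Mat (j + 1))ᴴ = (0 : Mat (j + 1))ᴴ * S
          rw [conjTranspose_zero, Matrix.mul_zero, Matrix.zero_mul]
        smul_mem' := by
          intro c X hX
          have hX' : S * Xᴴ = Xᴴ * S := hX
          show S * (c • X)ᴴ = (c • X)ᴴ * S
          rw [conjTranspose_smul, Matrix.mul_smul, Matrix.smul_mul, hX'] }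
    have hV : V = ⊤ := by
      rw [eq_top_iff, ← hσ, Submodule.span_le]
      rintro _ ⟨γ, rfl⟩
      exact hcomm γ
    have h1 : Xᴴ ∈ V := by rw [hV]; trivial
    have h2 : S * Xᴴᴴ = Xᴴᴴ * S := h1
    rw [conjTranspose_conjTranspose] at h2
    exact h2.symm
  have hWM : ∀ w ∈ Cone j, ((Real.exp (u w) : ℝ) : ℂ) • W w = a • M w := by
    intro w hw
    have h1 : ((Real.exp (u w) : ℝ) : ℂ) • W w = M w * S := hS w hw
    rw [h1, ha, Matrix.mul_smul, Matrix.mul_one]
  refine ⟨u, a, huPH, ?_, ?_⟩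
  · have h1 := hF.pos _ hb
    have h2 : (a • M (base j)).PosDef := by
      rw [← hWM _ hb]
      exact h1
    exact pos_of_smul_posDef (hM.pos _ hb) h2
  · intro w hw
    rw [ublk, hblk' w hw]
    have hN : (j : ℝ) + 1 ≠ 0 := by positivity
    have h1 : ((j : ℝ) + 1) * u w = Real.log (len P e w) := by
      rw [hu]
      field_simp
    have h2 : W w = (a * ((Real.exp (-u w) : ℝ) : ℂ)) • M w := by
      rw [mul_comm, ← smul_smul, ← hWM w hw, smul_smul, ← Complex.ofReal_mul, ← Real.exp_add,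
        neg_add_cancel, Real.exp_zero, Complex.ofReal_one, one_smul]
    rw [h1, Real.exp_log (hApos w hw), ← h2]

end Pool.Agent.Lib.MP_5d4057_al.CI
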