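import Pool.Agent.Lib.MP_5d4057_al.CI.Defs

/-!
# CI S1: the logarithm of the length of a constant vector is subharmonic

`φ = len P e = e^* P e > 0`. For `ξ` put `x = pz P v ξ *ᵥ e`, `y = pb P v ξ *ᵥ e`; `(pz P v ξ)ᴴ = pb P v ξ`,
so `pz φ ξ = star e ⬝ᵥ x = star y ⬝ᵥ e` and `pb (pz φ ξ) ξ = (1/2)(x^* P⁻¹ x + y^* P⁻¹ y)` (`Harm.ph`).
Cauchy-Schwarz for the form `P⁻¹`: `|star e ⬝ᵥ x|² = |(P e)^* P⁻¹ x|² ≤ φ (x^* P⁻¹ x)` with equality only if `x` is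
proportional to `P e`; the same for `y`. So `pb pz (log φ) ≥ 0` and equality gives `x, y ∥ P e`. The Laplacian is the
sum over the frame `fr g j` (`lap_wirt`, `lap_log` in RC/LogLap for the shape of the computation; every vector of the
cone is `c • act g (base n)`, `exists_act_eq`); the vectors `fr g j` and `act g (base n)` are a basis, and
`pz P v v = 0` by homogeneity.
-/

set_option autoImplicit false

namespace Pool.Agent.Lib.MP_5d4057_al.CI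

open Matrix Filter Topology Pool.Agent.Lib.MP_5d4057_al Pool.Agent.Lib.MP_5d4057_al.Hyb
  Pool.Agent.Lib.MP_5d4057_al.HM Pool.Agent.Lib.MP_5d4057_al.RC Pool.Agent.Lib.MP_5d4057_al.NU

open scoped ComplexOrder MatrixOrder Matrix.Norms.L2Operator

variable {n m : ℕ} {P : Vec n → Mat m} {e : Fin m → ℂ}

theorem len_pos (hP : Harm P) (he : e ≠ 0) {v : Vec n} (hv : v ∈ Cone n) : 0 < len P e v :=
  (hP.pos v hv).re_dotProduct_pos he

theorem len_cx (hP : Harm P) {v : Vec n} (hv : v ∈ Cone n) :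
    star e ⬝ᵥ (P v *ᵥ e) = (len P e v : ℂ) := by
  have h1 := (Complex.le_def.1 ((hP.pos v hv).posSemidef.dotProduct_mulVec_nonneg e)).2
  rw [len]
  apply Complex.ext
  · rw [Complex.ofReal_re]
  · rw [Complex.ofReal_im, ← h1, Complex.zero_im]

/-- The linear functional `M ↦ e^* M e`. -/
private noncomputable def sa_L (e : Fin m → ℂ) : Mat m →L[ℂ] ℂ :=
  LinearMap.toContinuousLinearMap
    { toFun := fun M : Mat m => star e ⬝ᵥ (M *ᵥ e)
      map_add' := fun A B => by rw [Matrix.add_mulVec, dotProduct_add]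
      map_smul' := fun c A => by
        rw [Matrix.smul_mulVec, dotProduct_smul]
        rfl }

private theorem sa_L_apply (M : Mat m) : sa_L e M = star e ⬝ᵥ (M *ᵥ e) := rfl

theorem len_hom (hP : Harm P) : Homog (len P e) := by
  intro c hc v hv
  rw [len, len, hP.hom c hc v hv]

theorem len_cd (hP : Harm P) : ContDiffOn ℝ 2 (len P e) (Cone n) := by
  have h1 : ContDiffOn ℝ 2 (fun v => sa_L e (P v)) (Cone n) :=
    ((sa_L e).restrictScalars ℝ).contDiff.comp_contDiffOn hP.cd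
  exact Complex.reCLM.contDiff.comp_contDiffOn h1

private theorem sa_len (hP : Harm P) {v : Vec n} (hv : v ∈ Cone n) (ξ : Vec n) :
    HasZ (cx (len P e)) v ξ (sa_L e (pz P v ξ)) (sa_L e (pb P v ξ)) := by
  refine ((hasZ (hP.diff hv) ξ).clm (sa_L e)).congr ?_
  filter_upwards [mem_nhds_cone hv] with w hw
  exact (len_cx hP hw).symm

/-- The first derivative of the logarithm. -/
private theorem sa_log {ψ : Vec n → ℝ} {v : Vec n} (h : DifferentiableAt ℝ ψ v) (h0 : 0 < ψ v)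
    (ξ : Vec n) :
    pz (cx fun w => Real.log (ψ w)) v ξ = (cx ψ v)⁻¹ * pz (cx ψ) v ξ := by
  have h2 : HasFDerivAt (fun w => Real.log (ψ w)) ((ψ v)⁻¹ • fderiv ℝ ψ v) v :=
    h.hasFDerivAt.log h0.ne'
  have h3 : DifferentiableAt ℝ (fun w => Real.log (ψ w)) v := h2.differentiableAt
  rw [pz, pz, fderiv_cx h3, fderiv_cx h, h2.fderiv]
  simp only [ContinuousLinearMap.comp_apply, Complex.ofRealCLM_apply, smul_eq_mul,
    FunLike.coe_smul, Pi.smul_apply]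
  rw [cx]
  push_cast
  ring

private theorem sa_lap {ψ : Vec n → ℝ} (hh : Homog ψ) (hc : ContDiffOn ℝ 2 ψ (Cone n))
    (h0 : ∀ v ∈ Cone n, 0 < ψ v) (g : SUGroup n) :
    Lap (fun v => Real.log (ψ v)) (act g (base n)) = ∑ j : Fin n,
      ((pb (fun w => pz (cx ψ) w (fr g j)) (act g (base n)) (fr g j)).re /
        (ψ (act g (base n))) -
        ‖pz (cx ψ) (act g (base n)) (fr g j)‖ ^ 2 / (ψ (act g (base n))) ^ 2) := by
  set v := act g (base n) with hv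
  have hvc : v ∈ Cone n := orbit_mem g
  have hcv : ContDiffAt ℝ 2 ψ v := hc.contDiffAt (mem_nhds_cone hvc)
  have hh' : Homog fun v => Real.log (ψ v) := fun c hc0 w hw => by
    show Real.log (ψ (c • w)) = _
    rw [hh c hc0 w hw]
  have hpos : 0 < ψ v := h0 v hvc
  have hd : ContDiffAt ℝ 2 (fun v => Real.log (ψ v)) v := hcv.log hpos.ne'
  rw [lap_wirt hh' g hd]
  refine Finset.sum_congr rfl fun j _ => ?_
  rw [← hv]
  set ξ := fr g j with hξ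
  have e1 : (fun w => pz (cx fun w => Real.log (ψ w)) w ξ) =ᶠ[𝓝 v]
      fun w => (cx ψ w)⁻¹ * pz (cx ψ) w ξ := by
    filter_upwards [mem_nhds_cone hvc] with w hw
    exact sa_log ((hc.contDiffAt (mem_nhds_cone hw)).differentiableAt (by norm_num)) (h0 w hw) ξ
  rw [pb_congr e1]
  have hne : (cx ψ v) ≠ 0 := by
    rw [cx]
    exact_mod_cast hpos.ne'
  have z1 := pz_cx (hcv.differentiableAt (by norm_num)) ξ
  have z2 : HasZ (fun w => pz (cx ψ) w ξ) v ξ _ _ :=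
    hasZ (hasFDerivAt_pz (cd_cx hcv) ξ).differentiableAt ξ
  have z4 : HasZ (fun w => (cx ψ w)⁻¹ * pz (cx ψ) w ξ) v ξ _ _ := (z1.inv hne).mul' z2
  rw [z4.pb]
  have e2 : pz (cx ψ) v ξ * star (pz (cx ψ) v ξ) = ((‖pz (cx ψ) v ξ‖ ^ 2 : ℝ) : ℂ) := by
    rw [RCLike.star_def, Complex.mul_conj, Complex.normSq_eq_norm_sq]
  obtain ⟨r, e3⟩ : ∃ r : ℝ, pb (fun w => pz (cx ψ) w ξ) v ξ = (r : ℂ) := ⟨_, pb_pz_cx hcv ξ⟩
  rw [e3, Complex.ofReal_re]
  have e4 : (cx ψ v)⁻¹ * (r : ℂ) +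
      -(star (pz (cx ψ) v ξ)) / (cx ψ v) ^ 2 * pz (cx ψ) v ξ =
      ((r / (ψ v) - ‖pz (cx ψ) v ξ‖ ^ 2 / (ψ v) ^ 2 : ℝ) : ℂ) := by
    push_cast at e2 ⊢
    rw [← e2]
    unfold cx at hne ⊢
    field_simp
    ring
  rw [e4, Complex.ofReal_re]

/-! ### Linear algebra -/

private theorem sa_star (B : Mat m) (x w : Fin m → ℂ) :
    star (B *ᵥ x) ⬝ᵥ w = star x ⬝ᵥ (Bᴴ *ᵥ w) := by
  rw [star_mulVec, dotProduct_mulVec]

/-- The Cauchy - Schwarz inequality for the form `A⁻¹`. -/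
private theorem sa_cs {A : Mat m} (hA : A.PosDef) {φ : ℝ} (hφ : 0 < φ)
    (he : star e ⬝ᵥ (A *ᵥ e) = (φ : ℂ)) (x : Fin m → ℂ) {X : ℝ}
    (hX : star x ⬝ᵥ (A⁻¹ *ᵥ x) = (X : ℂ)) :
    ‖star e ⬝ᵥ x‖ ^ 2 ≤ φ * X ∧
      (‖star e ⬝ᵥ x‖ ^ 2 = φ * X → x = ((star e ⬝ᵥ x) / φ) • (A *ᵥ e)) := by
  have hu : IsUnit A.det := (isUnit_iff_isUnit_det _).1 hA.isUnit
  set k : ℂ := star e ⬝ᵥ x with hk
  set z : Fin m → ℂ := x - (k / φ) • (A *ᵥ e) with hz
  have hφ' : (φ : ℂ) ≠ 0 := by exact_mod_cast hφ.ne'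
  have h1 : A⁻¹ *ᵥ z = A⁻¹ *ᵥ x - (k / φ) • e := by
    rw [hz, mulVec_sub, mulVec_smul, mulVec_mulVec, nonsing_inv_mul _ hu, one_mulVec]
  have h2 : star x ⬝ᵥ e = star k := by
    rw [hk, ← star_dotProduct_star, star_star, dotProduct_comm]
  have h3 : star (A *ᵥ e) ⬝ᵥ (A⁻¹ *ᵥ x) = k := by
    rw [sa_star, hA.isHermitian.eq, mulVec_mulVec, mul_nonsing_inv _ hu, one_mulVec]
  have h4 : star (A *ᵥ e) ⬝ᵥ e = (φ : ℂ) := by
    rw [sa_star, hA.isHermitian.eq, he]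
  have h5 : k * star k = ((‖k‖ ^ 2 : ℝ) : ℂ) := by
    rw [RCLike.star_def, Complex.mul_conj, Complex.normSq_eq_norm_sq]
  have hsφ : star (φ : ℂ) = (φ : ℂ) := Complex.conj_ofReal φ
  have h6 : star z ⬝ᵥ (A⁻¹ *ᵥ z) = ((X - ‖k‖ ^ 2 / φ : ℝ) : ℂ) := by
    rw [h1, hz, star_sub, star_smul, sub_dotProduct, dotProduct_sub, dotProduct_sub,
      smul_dotProduct, smul_dotProduct, dotProduct_smul, dotProduct_smul, hX, h2, h3, h4]
    simp only [smul_eq_mul, star_div₀, hsφ]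
    push_cast at h5 ⊢
    rw [← h5]
    field_simp
    ring
  have hnn : 0 ≤ X - ‖k‖ ^ 2 / φ := by
    have h7 := hA.inv.posSemidef.dotProduct_mulVec_nonneg z
    rw [h6] at h7
    exact_mod_cast h7
  refine ⟨?_, fun h => ?_⟩
  · rw [sub_nonneg, div_le_iff₀ hφ] at hnn
    linarith
  · have h8 : star z ⬝ᵥ (A⁻¹ *ᵥ z) = 0 := by
      rw [h6, h, mul_div_cancel_left₀ _ hφ.ne', sub_self, Complex.ofReal_zero]
    have h9 : z = 0 := by
      by_contra hne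
      have := hA.inv.dotProduct_mulVec_pos hne
      rw [h8] at this
      exact lt_irrefl _ this
    exact sub_eq_zero.1 h9

/-- The mixed derivative of the length. -/
private theorem sa_mixed (hP : Harm P) {v : Vec n} (hv : v ∈ Cone n) (ξ : Vec n) {X Y : ℝ}
    (hX : star (pz P v ξ *ᵥ e) ⬝ᵥ ((P v)⁻¹ *ᵥ (pz P v ξ *ᵥ e)) = (X : ℂ))
    (hY : star (pb P v ξ *ᵥ e) ⬝ᵥ ((P v)⁻¹ *ᵥ (pb P v ξ *ᵥ e)) = (Y : ℂ)) :
    pb (fun w => pz (cx (len P e)) w ξ) v ξ = (((X + Y) / 2 : ℝ) : ℂ) := by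
  have e1 : (fun w => pz (cx (len P e)) w ξ) =ᶠ[𝓝 v] fun w => sa_L e (pz P w ξ) := by
    filter_upwards [mem_nhds_cone hv] with w hw
    rw [(sa_len hP hw ξ).pz]
  rw [pb_congr e1]
  have z2 : HasZ (fun w => pz P w ξ) v ξ _ _ :=
    hasZ (hasFDerivAt_pz (hP.cda hv) ξ).differentiableAt ξ
  rw [(z2.clm (sa_L e)).pb]
  have h3 : pb (fun w => pz P w ξ) v ξ = (1 / 2 : ℂ) •
      (pb P v ξ * (P v)⁻¹ * pz P v ξ + pz P v ξ * (P v)⁻¹ * pb P v ξ) := by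
    rw [← pz_pb_comm (hP.cda hv) ξ ξ]
    exact hP.ph v hv ξ ξ
  have h4 : (pb P v ξ)ᴴ = pz P v ξ := by rw [hP.pb_eq hv, conjTranspose_conjTranspose]
  rw [sa_star, ← hP.pb_eq hv, mulVec_mulVec, mulVec_mulVec] at hX
  rw [sa_star, h4, mulVec_mulVec, mulVec_mulVec] at hY
  rw [h3, map_smul, map_add, sa_L_apply, sa_L_apply, hX, hY, smul_eq_mul]
  push_cast
  ring

/-- Both Cauchy - Schwarz inequalities. -/
private theorem sa_two (hP : Harm P) (he : e ≠ 0) {v : Vec n} (hv : v ∈ Cone n) (ξ : Vec n) :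
    ‖pz (cx (len P e)) v ξ‖ ^ 2 ≤
        len P e v * (pb (fun w => pz (cx (len P e)) w ξ) v ξ).re ∧
      (‖pz (cx (len P e)) v ξ‖ ^ 2 =
        len P e v * (pb (fun w => pz (cx (len P e)) w ξ) v ξ).re →
        (∃ c : ℂ, pz P v ξ *ᵥ e = c • (P v *ᵥ e)) ∧
          ∃ d : ℂ, pb P v ξ *ᵥ e = d • (P v *ᵥ e)) := by
  have hr : ∀ x : Fin m → ℂ, ∃ X : ℝ, star x ⬝ᵥ ((P v)⁻¹ *ᵥ x) = (X : ℂ) := by
    intro x
    have h1 := (Complex.le_def.1 ((hP.pos v hv).inv.posSemidef.dotProduct_mulVec_nonneg x)).2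
    refine ⟨(star x ⬝ᵥ ((P v)⁻¹ *ᵥ x)).re, ?_⟩
    apply Complex.ext
    · rw [Complex.ofReal_re]
    · rw [Complex.ofReal_im, ← h1, Complex.zero_im]
  obtain ⟨X, hX⟩ := hr (pz P v ξ *ᵥ e)
  obtain ⟨Y, hY⟩ := hr (pb P v ξ *ᵥ e)
  have hφ := len_pos hP he hv
  obtain ⟨hX1, hX2⟩ := sa_cs (hP.pos v hv) hφ (len_cx hP hv) _ hX
  obtain ⟨hY1, hY2⟩ := sa_cs (hP.pos v hv) hφ (len_cx hP hv) _ hY
  have h1 : pz (cx (len P e)) v ξ = star e ⬝ᵥ (pz P v ξ *ᵥ e) := by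
    rw [(sa_len hP hv ξ).pz, sa_L_apply]
  have h2 : ‖star e ⬝ᵥ (pb P v ξ *ᵥ e)‖ = ‖star e ⬝ᵥ (pz P v ξ *ᵥ e)‖ := by
    rw [hP.pb_eq hv, ← sa_star, star_dotProduct, norm_star]
  rw [h2] at hY1 hY2
  rw [h1, sa_mixed hP hv ξ hX hY, Complex.ofReal_re]
  refine ⟨by linarith, fun h => ⟨⟨_, hX2 (by linarith)⟩, ⟨_, hY2 (by linarith)⟩⟩⟩

theorem lap_log_len_nonneg (hP : Harm P) (he : e ≠ 0) {v : Vec n} (hv : v ∈ Cone n) :
    0 ≤ Lap (fun v => Real.log (len P e v)) v := by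
  obtain ⟨g, c, hc, rfl⟩ := exists_act_eq hv
  have hh : Homog fun w => Real.log (len P e w) := fun c hc v hv => by
    show Real.log (len P e (c • v)) = _
    rw [len_hom hP c hc v hv]
  have hcd : ContDiffOn ℝ 2 (fun w => Real.log (len P e w)) (Cone n) :=
    (len_cd hP).log fun v hv => (len_pos hP he hv).ne'
  rw [homog_lap hh hcd c hc _ (orbit_mem g),
    sa_lap (len_hom hP) (len_cd hP) (fun v hv => len_pos hP he hv) g]
  refine Finset.sum_nonneg fun j _ => ?_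
  have h1 := (sa_two hP he (orbit_mem g) (fr g j)).1
  have h2 := len_pos hP he (orbit_mem g)
  rw [sub_nonneg, div_le_div_iff₀ (pow_pos h2 2) h2]
  nlinarith

/-- The case of equality. -/
theorem par_of_lap_zero (hP : Harm P) (he : e ≠ 0)
    (h : ∀ v ∈ Cone n, Lap (fun v => Real.log (len P e v)) v = 0) : Par P e := by
  intro v hv
  obtain ⟨g, c, hc, rfl⟩ := exists_act_eq hv
  have hv0 := orbit_mem g
  set v₀ := act g (base n) with hv₀
  have hφ := len_pos hP he hv0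
  -- the frame
  have h1 : ∀ j : Fin n, (∃ c : ℂ, pz P v₀ (fr g j) *ᵥ e = c • (P v₀ *ᵥ e)) ∧
      ∃ d : ℂ, pb P v₀ (fr g j) *ᵥ e = d • (P v₀ *ᵥ e) := by
    have h2 := h v₀ hv0
    rw [hv₀, sa_lap (len_hom hP) (len_cd hP) (fun v hv => len_pos hP he hv) g,
      Finset.sum_eq_zero_iff_of_nonneg] at h2
    · intro j
      have h3 := h2 j (Finset.mem_univ j)
      rw [← hv₀] at h3
      refine (sa_two hP he hv0 (fr g j)).2 ?_
      rw [sub_eq_zero, div_eq_div_iff hφ.ne' (pow_pos hφ 2).ne'] at h3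
      have h4 : len P e v₀ * ‖pz (cx (len P e)) v₀ (fr g j)‖ ^ 2 = len P e v₀ *
          (len P e v₀ * (pb (fun w => pz (cx (len P e)) w (fr g j)) v₀ (fr g j)).re) := by
        linarith
      exact mul_left_cancel₀ hφ.ne' h4
    · intro j _
      have h3 := (sa_two hP he hv0 (fr g j)).1
      rw [← hv₀, sub_nonneg, div_le_div_iff₀ (pow_pos hφ 2) hφ]
      nlinarith
  -- the subspace
  have hadd : ∀ a b : Vec n, pb P v₀ (a + b) = pb P v₀ a + pb P v₀ b := fun a b => by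
    rw [hP.pb_eq hv0, hP.pb_eq hv0, hP.pb_eq hv0, pz_add_dir, conjTranspose_add]
  have hsm : ∀ (k : ℂ) (a : Vec n), pb P v₀ (k • a) = star k • pb P v₀ a := fun k a => by
    rw [hP.pb_eq hv0, hP.pb_eq hv0, pz_smul_dir, conjTranspose_smul]
  let S : Submodule ℂ (Vec n) :=
    { carrier := {ξ | (∃ c : ℂ, pz P v₀ ξ *ᵥ e = c • (P v₀ *ᵥ e)) ∧
        ∃ d : ℂ, pb P v₀ ξ *ᵥ e = d • (P v₀ *ᵥ e)}
      add_mem' := by
        rintro a b ⟨⟨c, hc⟩, d, hd⟩ ⟨⟨c', hc'⟩, d', hd'⟩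
        refine ⟨⟨c + c', ?_⟩, d + d', ?_⟩
        · rw [pz_add_dir, add_mulVec, hc, hc', add_smul]
        · rw [hadd, add_mulVec, hd, hd', add_smul]
      zero_mem' := by
        refine ⟨⟨0, ?_⟩, 0, ?_⟩
        · rw [← zero_smul ℂ (0 : Vec n), pz_smul_dir, zero_smul, zero_mulVec, zero_smul]
        · rw [← zero_smul ℂ (0 : Vec n), hsm, star_zero, zero_smul, zero_mulVec, zero_smul]
      smul_mem' := by
        rintro k a ⟨⟨c, hc⟩, d, hd⟩
        refine ⟨⟨k * c, ?_⟩, star k * d, ?_⟩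
        · rw [pz_smul_dir, smul_mulVec, hc, smul_smul]
        · rw [hsm, smul_mulVec, hd, smul_smul] }
  have hS0 : v₀ ∈ S := by
    have h3 : ∀ c : ℂ, fderiv ℝ P v₀ (c • v₀) = 0 := homog_fderiv hP.hom hv0 (hP.diff hv0)
    have h4 : fderiv ℝ P v₀ v₀ = 0 := by
      have := h3 1
      rwa [one_smul] at this
    have h5 : pz P v₀ v₀ = 0 := by
      rw [pz, h3, h4, smul_zero, sub_zero, smul_zero]
    refine ⟨⟨0, ?_⟩, 0, ?_⟩
    · rw [h5, zero_mulVec, zero_smul]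
    · rw [hP.pb_eq hv0, h5, conjTranspose_zero, zero_mulVec, zero_smul]
  have hS : ∀ ξ : Vec n, ξ ∈ S := by
    intro ξ
    have h3 : ξ = ∑ i, (act g⁻¹ ξ) i • actC g (Pi.single i 1) := by
      have h4 : act g⁻¹ ξ = ∑ i, (act g⁻¹ ξ) i • (Pi.single i 1 : Vec n) := by
        conv_lhs => rw [pi_eq_sum_univ' (act g⁻¹ ξ)]
      calc ξ = actC g (act g⁻¹ ξ) := by
            rw [actC_apply, ← act_mul, mul_inv_cancel, act_one]
        _ = _ := by
            conv_lhs => rw [h4]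
            rw [map_sum]
            exact Finset.sum_congr rfl fun i _ => by rw [map_smul]
    rw [h3]
    refine S.sum_mem fun i _ => S.smul_mem _ ?_
    rw [actC_apply]
    refine Fin.lastCases ?_ (fun j => ?_) i
    · exact hS0
    · exact h1 j
  -- the scaling
  intro ξ
  obtain ⟨⟨c₁, h3⟩, d₁, h4⟩ := hS ξ
  have h5 : P (c • v₀) = P v₀ := hP.hom c hc v₀ hv0
  have h6 : pz P (c • v₀) ξ = c⁻¹ • pz P v₀ ξ := by
    rw [← pz_homog hP.hom hv0 (fun u hu => hP.diff hu) hc ξ, smul_smul, inv_mul_cancel₀ hc,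
      one_smul]
  have h7 : pb P (c • v₀) ξ = star c⁻¹ • pb P v₀ ξ := by
    rw [hP.pb_eq hv, h6, conjTranspose_smul, hP.pb_eq hv0]
  refine ⟨⟨c⁻¹ * c₁, ?_⟩, star c⁻¹ * d₁, ?_⟩
  · rw [h5, h6, smul_mulVec, h3, smul_smul]
  · rw [h5, h7, smul_mulVec, h4, smul_smul]

end Pool.Agent.Lib.MP_5d4057_al.CI
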