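import Pool.Agent.Lib.MP_5d4057_al.CI.TwoA

/-!
# CI T2: the characters, up to `(k + 3)`-th roots of unity, are in the compositum of the two fields
-/

set_option autoImplicit false

namespace Pool.Agent.Lib.MP_5d4057_al.CI

open Matrix Filter Topology Pool.Agent.Lib.MP_5d4057_al Pool.Agent.Lib.MP_5d4057_al.Hyb
  Pool.Agent.Lib.MP_5d4057_al.HM Pool.Agent.Lib.MP_5d4057_al.RC Pool.Agent.Lib.MP_5d4057_al.NU
  Pool.Agent.Lib.MP_5d4057_al.CF

open scoped ComplexOrder MatrixOrder Matrix.Norms.L2Operator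

variable {k j : ℕ}

/-- The conjugate of the normal vector. -/
theorem map_nrm (t : ℂ ≃+* ℂ) (g : SUGroup (j + 1)) (E : Mat (j + 1)) :
    (g.toMatrix.map t * dsum 1 E) *ᵥ nrm j = fun i => t (act g (nrm j) i) := by
  have h1 : dsum 1 E *ᵥ nrm j = nrm j := by
    rw [nrm, dsum_mulVec_cons, mulVec_zero, mul_one]
  rw [← mulVec_mulVec, h1]
  funext i
  rw [nrm_eq_e0, act, GX.e0, mulVec_single_one, mulVec_single_one]
  rfl

/-- The normal derivative of a piece with characters, in normal form. -/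
theorem exists_nrm {G : Subgroup (SUGroup (k + 2))} {Λ : Subgroup (SUGroup (k + 1))}
    (hR : Rec Λ) {g : SUGroup (k + 2)} (htw : TwP G Λ g) {t : ℂ ≃+* ℂ} {E : Mat (k + 2)}
    (hE : IsUnit E) (hEt : ∀ γ ∈ Λ, γ.toMatrix.map t = E * γ.toMatrix * E⁻¹)
    {F : Vec (k + 2) → Mat (k + 3)} (hF : HarmG F) (hFe : Equi (rhoT t G) F) {l a : ℂ}
    (h : TyS F g (g.toMatrix.map t * dsum 1 E) l a)
    (P : Pce (k + 1) (⊥ : Subgroup (SUGroup (k + 1)))
      (fun v => (g.toMatrix.map t * dsum 1 E)⁻¹ * F (act g v) *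
        ((g.toMatrix.map t * dsum 1 E)⁻¹)ᴴ) l a) :
    ∃ p : ℂ, ∀ w ∈ Cone (k + 1), NN (fun v => (g.toMatrix.map t * dsum 1 E)⁻¹ * F (act g v) *
        ((g.toMatrix.map t * dsum 1 E)⁻¹)ᴴ) w =
      (-(q w : ℂ)⁻¹ * p) • vecMulVec (nrm (k + 1)) (star (inc (k + 1) w)) := by
  obtain ⟨Q, hQ⟩ : ∃ Q, Q = g.toMatrix.map t * dsum 1 E := ⟨_, rfl⟩
  rw [← hQ] at h P ⊢
  have hQd := (isUnit_iff_isUnit_det _).1 h.unit
  have e1 : Q⁻¹ * Q = 1 := nonsing_inv_mul _ hQd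
  have e2 : Qᴴ * (Q⁻¹)ᴴ = 1 := by rw [← conjTranspose_mul, e1, conjTranspose_one]
  have hGd : HarmG fun v => Q⁻¹ * F (act g v) * (Q⁻¹)ᴴ :=
    hF.pre g (isUnit_nonsing_inv_iff.2 h.unit)
  refine nrm_tw P (by omega) hR hGd.grD ?_
  intro y hy
  obtain ⟨x, hx, χ, ψ, he⟩ := htw y hy
  have hx' := conj_tw he t hE (hEt y hy)
  rw [← hQ] at hx'
  have heq : ∀ v ∈ Cone (k + 2), F (act x v) = x.toMatrix.map t * F v * (x.toMatrix.map t)ᴴ :=
    fun v hv => hFe ⟨x, hx⟩ v hv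
  obtain ⟨h1, h2⟩ := norm_of_tyS hF.hom h he hx' heq
  refine ⟨g⁻¹ * x * g, χ, ψ, t χ, t ψ, he, h1, h2, fun v hv => ?_⟩
  have h3 : act g (act (g⁻¹ * x * g) v) = act x (act g v) := by
    rw [← act_mul, ← act_mul]
    congr 1
    group
  show Q⁻¹ * F (act g (act (g⁻¹ * x * g) v)) * (Q⁻¹)ᴴ = _
  rw [h3, heq _ (act_mem g hv), hx', conjTranspose_mul, conjTranspose_mul]
  have h5 : ∀ A : Mat (k + 3), Q⁻¹ * (Q * A) = A := fun A => by
    rw [← Matrix.mul_assoc, e1, Matrix.one_mul]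
  simp only [Matrix.mul_assoc, h5]
  rw [e2, Matrix.mul_one]

/-- PROOF (helper33): `F` from `hHL t`; `Q b = (g b).map t * dsum 1 (E b)`; `tyU_of_tw`, `pair_const` in both directions
(`Q b nrm = t (g b nrm)`: not proportional by `hne`), `tyS_of_const`. The forms `nf` agree (`Sval.two`), are invariant under `t G`
(`hgen`, `Sval.equi`; induction as in `Fam.nf_inv`), so `F` is symmetric (`Fam.refl`, `refl_of_base_rec`), so `Pce (k+1) ⊥` for both
(`Fam.pce`; the `equi` for `⊥` is trivial), `nrm_tw` (`conj_tw`, `norm_of_tyS`), `exists_sder_tw`, `Sder.two`, `unit_of_two`. For `x` as in the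
conclusion `Sder.equi` gives `x.map t * T = α • (T * x)`, determinants give `α ^ (k + 3) = 1`, and evaluating at `hyp (g b) w`
(`Sder.tu`) gives `t ψ = α ψ`. -/
theorem psi_fix (hk : 1 ≤ k) {G : Subgroup (SUGroup (k + 2))} (hR : Rec G) (hHL : HLat G)
    {Λ : Fin 2 → Subgroup (SUGroup (k + 1))} (hL : ∀ b, IsLattice (Λ b)) (hRΛ : ∀ b, Rec (Λ b))
    {g : Fin 2 → SUGroup (k + 2)} (htw : ∀ b, TwP G (Λ b) (g b))
    (hgen : G ≤ Subgroup.closure (⋃ b, StabH G (g b))) (hm : Meet (g 0) (g 1))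
    (hne : ∀ ζ : ℂ, act (g 1) (nrm (k + 1)) ≠ ζ • act (g 0) (nrm (k + 1))) (t : ℂ ≃+* ℂ)
    {E : Fin 2 → Mat (k + 2)} (hE : ∀ b, IsUnit (E b))
    (hEt : ∀ b, ∀ γ ∈ Λ b, γ.toMatrix.map t = E b * γ.toMatrix * (E b)⁻¹) (b : Fin 2)
    {x : SUGroup (k + 2)} (hx : x ∈ G) {y : SUGroup (k + 1)} (hy : y ∈ Λ b) {χ ψ : ℂ}
    (hxy : ((g b)⁻¹ * x * g b).toMatrix = dsum χ (ψ • y.toMatrix)) :
    t ψ ^ (k + 3) = ψ ^ (k + 3) := by
  obtain ⟨F, hF, hFe⟩ := hHL t
  have hU : ∀ b, ∃ (u : Vec (k + 1) → ℝ) (a : ℂ),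
      TyU F (g b) ((g b).toMatrix.map t * dsum 1 (E b)) u a := fun b =>
    tyU_of_tw (by omega) (hL b) (hRΛ b) (htw b) t (hE b) (hEt b) hF hFe
  choose u a hU using hU
  -- the conjugates of the normal vectors are not proportional
  have hne1 : ∀ ζ : ℂ, ((g 1).toMatrix.map t * dsum 1 (E 1)) *ᵥ nrm (k + 1) ≠
      ζ • (((g 0).toMatrix.map t * dsum 1 (E 0)) *ᵥ nrm (k + 1)) := by
    intro ζ h
    rw [map_nrm, map_nrm] at h
    refine hne (t.symm ζ) ?_
    funext i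
    have h1 := congrFun h i
    have h2 := congrArg t.symm h1
    simpa using h2
  have hne0 : ∀ ζ : ℂ, ((g 0).toMatrix.map t * dsum 1 (E 0)) *ᵥ nrm (k + 1) ≠
      ζ • (((g 1).toMatrix.map t * dsum 1 (E 1)) *ᵥ nrm (k + 1)) := by
    intro ζ h
    have hn0 : nrm (k + 1) ≠ 0 := by
      intro h0
      have := congrFun h0 0
      simp [nrm] at this
    have hζ : ζ ≠ 0 := by
      rintro rfl
      rw [zero_smul] at h
      exact hn0 (mulVec_inj_of_unit (hU 0).unit (by rw [h, mulVec_zero]))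
    refine hne1 ζ⁻¹ ?_
    rw [h, smul_smul, inv_mul_cancel₀ hζ, one_smul]
  -- the functions are constant
  have hcc : ∀ b, ∀ w ∈ Cone (k + 1), u b w = u b (base (k + 1)) := by
    intro b
    fin_cases b
    · exact pair_const (by omega) hF.toHarm (hU 1) (hU 0) hm.symm hne0
    · exact pair_const (by omega) hF.toHarm (hU 0) (hU 1) hm hne1
  have hS := fun b => tyS_of_const (hU b) (hcc b)
  choose l a' hS using hS
  have D : Dat G g t F (fun b => (g b).toMatrix.map t * dsum 1 (E b)) l a' :=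
    ⟨hR, hgen, hm, hF, hFe, hS⟩
  have hT : ∀ b, ∃ T : Mat (k + 3), Sder F (g b)
      (nf ((g b).toMatrix.map t * dsum 1 (E b)) (l b) (a' b))
      ((g b).toMatrix.map t * dsum 1 (E b) * ((g b)⁻¹).toMatrix) (a' b) T := fun b =>
    exists_sder_tw hF (hS b) (D.pce hk b)
      (exists_nrm (hRΛ b) (htw b) (hE b) (hEt b) hF hFe (hS b) (D.pce hk b))
  choose T hT using hT
  obtain ⟨j₀, M⟩ := exists_meetJ hk hm
  obtain ⟨c, hc, hcT⟩ := (hT 0).two (hT 1) M
  have hT0 : IsUnit (T 0) := unit_of_two (hT 0) (hT 1) hcT hne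
  have hTu : IsUnit (T b) := by
    fin_cases b
    · exact hT0
    · show IsUnit (T 1)
      rw [hcT]
      exact smul_unit hc hT0
  have hd : ∀ v ∈ Cone (k + 2), DifferentiableAt ℝ F v := fun v hv => hF.diff hv
  obtain ⟨α, hα, -⟩ := (hT b).equi (by omega : 1 ≤ k + 1) hd (exists_hyp_tw hxy) (D.eqF hx)
  -- determinants
  have hα1 : α ^ (k + 3) = 1 := by
    have h1 := congrArg Matrix.det hα
    have h2 : (x.toMatrix.map t).det = 1 := by
      have h3 := (RingHom.map_det t.toRingHom x.toMatrix).symm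
      rw [det_toMatrix, map_one] at h3
      exact h3
    rw [det_mul, det_smul, det_mul, det_toMatrix, Fintype.card_fin, h2, one_mul, mul_one] at h1
    have h3 : (T b).det ≠ 0 := ((isUnit_iff_isUnit_det _).1 hTu).ne_zero
    have h4 : (α ^ (k + 3) - 1) * (T b).det = 0 := by
      rw [sub_mul, one_mul, ← h1, sub_self]
    exact sub_eq_zero.1 ((mul_eq_zero.1 h4).resolve_right h3)
  -- evaluation
  obtain ⟨Q, hQ⟩ : ∃ Q, Q = (g b).toMatrix.map t * dsum 1 (E b) := ⟨_, rfl⟩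
  have hSb := hS b
  have hTb := hT b
  have hx' := conj_tw hxy t (hE b) (hEt b y hy)
  rw [← hQ] at hSb hTb hx'
  have hQd := (isUnit_iff_isUnit_det _).1 hSb.unit
  have e1 : Q⁻¹ * Q = 1 := nonsing_inv_mul _ hQd
  have hUh : ∀ w, (Q * ((g b)⁻¹).toMatrix) *ᵥ HM.hyp (g b) w = Q *ᵥ inc (k + 1) w := by
    intro w
    rw [← mulVec_mulVec]
    congr 1
    exact act_inv_act (g b) _
  have hw := base_mem (k + 1)
  have h1 : (x.toMatrix.map t) *ᵥ (T b *ᵥ HM.hyp (g b) (base (k + 1))) =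
      (2 * a' b * t ψ) • (Q *ᵥ inc (k + 1) (act y (base (k + 1)))) := by
    rw [hTb.tu, hUh, mulVec_smul, hx', mulVec_mulVec, Matrix.mul_assoc, e1, Matrix.mul_one,
      ← mulVec_mulVec, dsum_mulVec_inc, smul_mulVec, map_smul, mulVec_smul, smul_smul]
    rfl
  have h2 : (x.toMatrix.map t) *ᵥ (T b *ᵥ HM.hyp (g b) (base (k + 1))) =
      (α * ψ * (2 * a' b)) • (Q *ᵥ inc (k + 1) (act y (base (k + 1)))) := by
    rw [mulVec_mulVec, hα, smul_mulVec, ← mulVec_mulVec]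
    have h3 : x.toMatrix *ᵥ HM.hyp (g b) (base (k + 1)) =
        ψ • HM.hyp (g b) (act y (base (k + 1))) := act_hyp_tw hxy _
    rw [h3, mulVec_smul, hTb.tu, hUh, smul_smul, smul_smul]
  rw [h1] at h2
  have h3 : Q *ᵥ inc (k + 1) (act y (base (k + 1))) ≠ 0 := by
    intro h0
    have h4 : inc (k + 1) (act y (base (k + 1))) = 0 :=
      mulVec_inj_of_unit hSb.unit (by rw [h0, mulVec_zero])
    have h5 : q (inc (k + 1) (act y (base (k + 1)))) < 0 := inc_mem (act_mem y hw)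
    rw [h4, q, herm, mulVec_zero, dotProduct_zero] at h5
    exact lt_irrefl _ h5
  have h4 : (2 * a' b * t ψ - α * ψ * (2 * a' b)) • (Q *ᵥ inc (k + 1) (act y (base (k + 1)))) =
      0 := by
    rw [sub_smul, h2, sub_self]
  have h5 := (smul_eq_zero.1 h4).resolve_right h3
  have h6 : t ψ = α * ψ := by
    have h7 : (2 * a' b) * (t ψ - α * ψ) = 0 := by
      rw [← h5]
      ring
    exact sub_eq_zero.1 ((mul_eq_zero.1 h7).resolve_left (mul_ne_zero two_ne_zero hSb.ha.ne'))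
  rw [h6, mul_pow, hα1, one_mul]

end Pool.Agent.Lib.MP_5d4057_al.CI
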