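import Pool.Agent.Lib.MP_5d4057_al.CI.Type
import Pool.Agent.Lib.MP_5d4057_al.CI.Pair
import Pool.Agent.Lib.MP_5d4057_al.CI.Nrm
import Pool.Agent.Lib.MP_5d4057_al.CI.Der
import Pool.Agent.Lib.MP_5d4057_al.CF.Nf

/-!
# CI T2: two pieces of type S: the form, the symmetry, the normal form
-/

set_option autoImplicit false

namespace Pool.Agent.Lib.MP_5d4057_al.CI

open Matrix Filter Topology Pool.Agent.Lib.MP_5d4057_al Pool.Agent.Lib.MP_5d4057_al.Hyb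
  Pool.Agent.Lib.MP_5d4057_al.HM Pool.Agent.Lib.MP_5d4057_al.RC Pool.Agent.Lib.MP_5d4057_al.NU
  Pool.Agent.Lib.MP_5d4057_al.CF

open scoped ComplexOrder MatrixOrder Matrix.Norms.L2Operator

variable {k : ℕ}

/-- The elements of `G` which preserve the hyperplane of `g`. -/
def StabH (G : Subgroup (SUGroup (k + 2))) (g : SUGroup (k + 2)) : Set (SUGroup (k + 2)) :=
  {x | x ∈ G ∧ ∃ (y : SUGroup (k + 1)) (χ ψ : ℂ), (g⁻¹ * x * g).toMatrix = dsum χ (ψ • y.toMatrix)}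

/-- An element of the form `χ ⊕ ψ y` on the hyperplane. -/
theorem act_hyp_tw {j : ℕ} {g x : SUGroup (j + 1)} {y : SUGroup j} {χ ψ : ℂ}
    (h : (g⁻¹ * x * g).toMatrix = dsum χ (ψ • y.toMatrix)) (w : Vec j) :
    act x (HM.hyp g w) = ψ • HM.hyp g (act y w) := by
  have h1 : act (g⁻¹ * x * g) (inc j w) = ψ • inc j (act y w) := by
    rw [act, h, dsum_mulVec_inc, smul_mulVec, map_smul]
    rfl
  have h2 := congrArg (act g) h1
  have h3 : g * (g⁻¹ * x * g) = x * g := by group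
  rw [← act_mul, act_smul, h3] at h2
  rw [hyp_apply, hyp_apply, ← act_mul, h2]

theorem exists_hyp_tw {j : ℕ} {g x : SUGroup (j + 1)} {y : SUGroup j} {χ ψ : ℂ}
    (h : (g⁻¹ * x * g).toMatrix = dsum χ (ψ • y.toMatrix)) (w : Vec j) :
    ∃ w', act x (HM.hyp g w) = HM.hyp g w' :=
  ⟨ψ • act y w, by rw [act_hyp_tw h, map_smul]⟩

/-- The data of two pieces of type S. -/
structure Dat (G : Subgroup (SUGroup (k + 2))) (g : Fin 2 → SUGroup (k + 2)) (t : ℂ ≃+* ℂ)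
    (F : Vec (k + 2) → Mat (k + 3)) (Q : Fin 2 → Mat (k + 3)) (l a : Fin 2 → ℂ) : Prop where
  rcG : Rec G
  gen : G ≤ Subgroup.closure (⋃ b, StabH G (g b))
  meet : Meet (g 0) (g 1)
  harm : HarmG F
  equi : Equi (rhoT t G) F
  ty : ∀ b, TyS F (g b) (Q b) (l b) (a b)

variable {G : Subgroup (SUGroup (k + 2))} {g : Fin 2 → SUGroup (k + 2)} {t : ℂ ≃+* ℂ}
  {F : Vec (k + 2) → Mat (k + 3)} {Q : Fin 2 → Mat (k + 3)} {l a : Fin 2 → ℂ}

theorem Dat.eqF (h : Dat G g t F Q l a) {x : SUGroup (k + 2)} (hx : x ∈ G) :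
    ∀ v ∈ Cone (k + 2), F (act x v) = x.toMatrix.map t * F v * (x.toMatrix.map t)ᴴ :=
  fun v hv => h.equi ⟨x, hx⟩ v hv

theorem Dat.nf_eq (hk : 1 ≤ k) (h : Dat G g t F Q l a) (i : Fin 2) :
    nf (Q i) (l i) (a i) = nf (Q 0) (l 0) (a 0) := by
  obtain ⟨j₀, M⟩ := exists_meetJ hk h.meet
  have h1 := ((h.ty 0).sval.two (h.ty 1).sval M).1
  fin_cases i
  · rfl
  · exact h1.symm

/-- The form is invariant. -/
theorem Dat.nf_inv (hk : 1 ≤ k) (h : Dat G g t F Q l a) (i : Fin 2) :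
    ∀ x ∈ G, x.toMatrix.map t * nf (Q i) (l i) (a i) * (x.toMatrix.map t)ᴴ =
      nf (Q i) (l i) (a i) := by
  intro x hx
  have hx' := h.gen hx
  clear hx
  induction hx' using Subgroup.closure_induction with
  | mem x hx =>
    obtain ⟨b, hx, y, χ, ψ, he⟩ := Set.mem_iUnion.1 hx
    have h1 := ((h.ty b).sval.equi (by omega : 1 ≤ k + 1) (exists_hyp_tw he) (h.eqF hx)).1
    rw [h.nf_eq hk i, ← h.nf_eq hk b]
    exact h1
  | one => rw [toMatrix_one, tm_one, Matrix.one_mul, conjTranspose_one, Matrix.mul_one]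
  | mul x y _ _ hx hy =>
    rw [toMatrix_mul, tm_mul, conjTranspose_mul]
    calc x.toMatrix.map t * y.toMatrix.map t * nf (Q i) (l i) (a i) *
          ((y.toMatrix.map t)ᴴ * (x.toMatrix.map t)ᴴ)
        = x.toMatrix.map t * (y.toMatrix.map t * nf (Q i) (l i) (a i) * (y.toMatrix.map t)ᴴ) *
          (x.toMatrix.map t)ᴴ := by simp only [Matrix.mul_assoc]
      _ = _ := by rw [hy, hx]
  | inv x _ hx =>
    have hu := tm_gp_unit t x
    have hd := (isUnit_iff_isUnit_det _).1 hu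
    rw [tm_gp_inv]
    obtain ⟨A, hA⟩ : ∃ A, A = x.toMatrix.map t := ⟨_, rfl⟩
    rw [← hA] at hx hd ⊢
    have e1 : A⁻¹ * A = 1 := nonsing_inv_mul _ hd
    have e2 : Aᴴ * (A⁻¹)ᴴ = 1 := by rw [← conjTranspose_mul, e1, conjTranspose_one]
    calc A⁻¹ * nf (Q i) (l i) (a i) * (A⁻¹)ᴴ
        = A⁻¹ * (A * nf (Q i) (l i) (a i) * Aᴴ) * (A⁻¹)ᴴ := by rw [hx]
      _ = (A⁻¹ * A) * nf (Q i) (l i) (a i) * (Aᴴ * (A⁻¹)ᴴ) := by simp only [Matrix.mul_assoc]
      _ = _ := by rw [e1, e2, Matrix.one_mul, Matrix.mul_one]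

/-- The symmetry of the metric. -/
theorem Dat.refl (hk : 1 ≤ k) (h : Dat G g t F Q l a) (i : Fin 2) :
    ∀ v ∈ Cone (k + 2), nf (Q i) (l i) (a i) * (F v)⁻¹ * nf (Q i) (l i) (a i) = F v := by
  have S := (h.ty i).sval
  have hl := (h.ty i).hl
  have ha := (h.ty i).ha
  have hQu := (h.ty i).unit
  refine refl_of_base_rec (by omega) h.rcG h.harm.toHarm h.harm.grInv h.equi S.nu S.nh
    (fun γ => tm_gp_unit t (γ : SUGroup (k + 2))) (fun γ => h.nf_inv hk i γ γ.2)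
    (hyp_mem (g i) (base_mem (k + 1))) ?_
  have hb0 := (h.ty i).slice _ (base_mem (k + 1))
  rw [std_base] at hb0
  rw [hb0, nf, conj_refl hQu]
  refine congrArg (fun A : Mat (k + 3) => Q i * A * (Q i)ᴴ) ?_
  have h1u : IsUnit (a i • (1 : Mat (k + 2))) := smul_unit ha.ne' isUnit_one
  rw [dsum_inv' hl.ne' h1u, smul_matInv ha.ne' isUnit_one, inv_one, dsum_mul, dsum_mul]
  simp only [Matrix.mul_smul, Matrix.smul_mul, smul_smul, Matrix.mul_one, J_J]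
  have h2 := hl.ne'
  have h3 := ha.ne'
  congr 1
  · field_simp
  · congr 1
    field_simp

/-- The pieces in normal form. -/
theorem Dat.pce (hk : 1 ≤ k) (h : Dat G g t F Q l a) (i : Fin 2) :
    Pce (k + 1) ⊥ (fun v => (Q i)⁻¹ * F (act (g i) v) * ((Q i)⁻¹)ᴴ) (l i) (a i) := by
  have hl := (h.ty i).hl
  have ha := (h.ty i).ha
  have hQu := (h.ty i).unit
  have hQd := (isUnit_iff_isUnit_det _).1 hQu
  have e1 : (Q i)⁻¹ * Q i = 1 := nonsing_inv_mul _ hQd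
  have e2 : (Q i)ᴴ * ((Q i)⁻¹)ᴴ = 1 := by rw [← conjTranspose_mul, e1, conjTranspose_one]
  have hQi : IsUnit (Q i)⁻¹ := isUnit_nonsing_inv_iff.2 hQu
  refine ⟨(h.harm.pre (g i) hQi).toHarm, hl, ha, ?_, ?_, ?_⟩
  · intro w hw
    show (Q i)⁻¹ * F (HM.hyp (g i) w) * ((Q i)⁻¹)ᴴ = _
    rw [(h.ty i).slice w hw]
    calc (Q i)⁻¹ * (Q i * dsum (l i) (a i • HM.std w) * (Q i)ᴴ) * ((Q i)⁻¹)ᴴ
        = ((Q i)⁻¹ * Q i) * dsum (l i) (a i • HM.std w) * ((Q i)ᴴ * ((Q i)⁻¹)ᴴ) := by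
          simp only [Matrix.mul_assoc]
      _ = _ := by rw [e1, e2, Matrix.one_mul, Matrix.mul_one]
  · intro v hv
    have h1 := h.refl hk i _ (act_mem (g i) hv)
    have h2 : dsum (l i) (a i • J (k + 1)) =
        (Q i)⁻¹ * nf (Q i) (l i) (a i) * ((Q i)⁻¹)ᴴ := by
      rw [nf]
      calc dsum (l i) (a i • J (k + 1)) =
            ((Q i)⁻¹ * Q i) * dsum (l i) (a i • J (k + 1)) * ((Q i)ᴴ * ((Q i)⁻¹)ᴴ) := by
            rw [e1, e2, Matrix.mul_one, Matrix.one_mul]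
        _ = _ := by simp only [Matrix.mul_assoc]
    show dsum (l i) (a i • J (k + 1)) *
      ((Q i)⁻¹ * F (act (g i) v) * ((Q i)⁻¹)ᴴ)⁻¹ * dsum (l i) (a i • J (k + 1)) = _
    rw [h2, conj_refl hQi, h1]
  · intro γ hγ v hv
    rw [Subgroup.mem_bot.1 hγ, toMatrix_one, dsum_one, conjTranspose_one, Matrix.one_mul,
      Matrix.mul_one, map_one, act_one]

end Pool.Agent.Lib.MP_5d4057_al.CI
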