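import Pool.Agent.Lib.MP_5d4057_al.CI.Slice
import Pool.Agent.Lib.MP_5d4057_al.TW.Defs

/-!
# CI T1: the type of a piece with characters
-/

set_option autoImplicit false

namespace Pool.Agent.Lib.MP_5d4057_al.CI

open Matrix Filter Topology Pool.Agent.Lib.MP_5d4057_al Pool.Agent.Lib.MP_5d4057_al.Hyb
  Pool.Agent.Lib.MP_5d4057_al.HM Pool.Agent.Lib.MP_5d4057_al.RC Pool.Agent.Lib.MP_5d4057_al.NU
  Pool.Agent.Lib.MP_5d4057_al.CF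

open scoped ComplexOrder MatrixOrder Matrix.Norms.L2Operator

variable {j : ℕ}

/-- For every `y` in `Λ` there is an element of `G` which is `y` on the hyperplane of `g`, up to scalars. -/
def TwP (G : Subgroup (SUGroup (j + 1))) (Λ : Subgroup (SUGroup j)) (g : SUGroup (j + 1)) : Prop :=
  ∀ y ∈ Λ, ∃ x ∈ G, ∃ χ ψ : ℂ, (g⁻¹ * x * g).toMatrix = dsum χ (ψ • y.toMatrix)

/-- The conjugate of a twisted element. -/
theorem conj_tw {g x : SUGroup (j + 1)} {y : SUGroup j} {χ ψ : ℂ}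
    (h : (g⁻¹ * x * g).toMatrix = dsum χ (ψ • y.toMatrix)) (t : ℂ ≃+* ℂ) {E : Mat (j + 1)}
    (hE : IsUnit E) (hEt : y.toMatrix.map t = E * y.toMatrix * E⁻¹) :
    x.toMatrix.map t = (g.toMatrix.map t * dsum 1 E) * dsum (t χ) (t ψ • y.toMatrix) *
      (g.toMatrix.map t * dsum 1 E)⁻¹ := by
  rw [TW.tm_of_frame t h, tm_dsum, tm_smul, hEt, Matrix.mul_inv_rev, dsum_inv' one_ne_zero hE,
    inv_one]
  have h3 : dsum (t χ) (t ψ • (E * y.toMatrix * E⁻¹)) =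
      dsum 1 E * dsum (t χ) (t ψ • y.toMatrix) * dsum 1 E⁻¹ := by
    rw [dsum_mul, dsum_mul, one_mul, mul_one, Matrix.mul_smul, Matrix.smul_mul]
  rw [h3]
  simp only [Matrix.mul_assoc]

private theorem ty_cancel {Q : Mat (j + 2)} (hQ : IsUnit Q) (A B : Mat (j + 2)) :
    Q⁻¹ * (Q * A * Q⁻¹ * B * (Q * A * Q⁻¹)ᴴ) * (Q⁻¹)ᴴ =
      A * (Q⁻¹ * B * (Q⁻¹)ᴴ) * Aᴴ := by
  have e1 : Q⁻¹ * Q = 1 := nonsing_inv_mul _ ((isUnit_iff_isUnit_det _).1 hQ)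
  have e2 : Qᴴ * (Q⁻¹)ᴴ = 1 := by rw [← conjTranspose_mul, e1, conjTranspose_one]
  rw [conjTranspose_mul, conjTranspose_mul]
  calc Q⁻¹ * (Q * A * Q⁻¹ * B * ((Q⁻¹)ᴴ * (Aᴴ * Qᴴ))) * (Q⁻¹)ᴴ
      = (Q⁻¹ * Q) * A * Q⁻¹ * B * (Q⁻¹)ᴴ * Aᴴ * (Qᴴ * (Q⁻¹)ᴴ) := by
        simp only [Matrix.mul_assoc]
    _ = _ := by
        rw [e1, e2, Matrix.one_mul, Matrix.mul_one]
        simp only [Matrix.mul_assoc]

/-- PROOF: `slice_char` with `σ` the inclusion of `Λ`, `M = std`, `P w = Q⁻¹ F (hyp g w) (Q⁻¹)ᴴ`; `conj_tw`;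
`det (g⁻¹ x g) = 1` gives `χ ψ ^ (j + 1) = 1`; `act x (hyp g w) = ψ • hyp g (act y w)`. -/
theorem tyU_of_tw (hj : 1 ≤ j) {Λ : Subgroup (SUGroup j)} (hL : IsLattice Λ) (hR : Rec Λ)
    {G : Subgroup (SUGroup (j + 1))} {g : SUGroup (j + 1)} (htw : TwP G Λ g) (t : ℂ ≃+* ℂ)
    {E : Mat (j + 1)} (hE : IsUnit E)
    (hEt : ∀ γ ∈ Λ, γ.toMatrix.map t = E * γ.toMatrix * E⁻¹)
    {F : Vec (j + 1) → Mat (j + 2)} (hF : HarmG F) (hFe : Equi (rhoT t G) F) :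
    ∃ (u : Vec j → ℝ) (a : ℂ), TyU F g (g.toMatrix.map t * dsum 1 E) u a := by
  obtain ⟨Q, hQ⟩ : ∃ Q : Mat (j + 2), Q = g.toMatrix.map t * dsum 1 E := ⟨_, rfl⟩
  have hQu : IsUnit Q := by
    rw [hQ]
    refine (tm_gp_unit t g).mul ?_
    rw [isUnit_iff_isUnit_det, det_dsum, one_mul]
    exact (isUnit_iff_isUnit_det _).1 hE
  have hQiu : IsUnit Q⁻¹ := isUnit_nonsing_inv_iff.2 hQu
  choose X hXG χ ψ hX using htw
  have hdet : ∀ γ : Λ, t (χ γ γ.2) * t (ψ γ γ.2) ^ (j + 1) = 1 := by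
    intro γ
    rw [← map_pow, ← map_mul, (TW.TwEl.scalars (hX γ γ.2)).2.2, map_one]
  have hψ0 : ∀ γ : Λ, ψ γ γ.2 ≠ 0 := by
    intro γ h0
    have h2 := (TW.TwEl.scalars (hX γ γ.2)).2.1
    rw [h0, mul_zero] at h2
    exact zero_ne_one h2
  have hP : Harm fun w => Q⁻¹ * F (HM.hyp g w) * (Q⁻¹)ᴴ := (hF.toHarm.hyp g).congr hQiu
  have hPp : Pol fun w => Q⁻¹ * F (HM.hyp g w) * (Q⁻¹)ᴴ := (hF.gr.comp_hyp g).conj _ _
  have hPi : Pol fun w => (Q⁻¹ * F (HM.hyp g w) * (Q⁻¹)ᴴ)⁻¹ :=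
    Pol.conjInv (F := fun w => F (HM.hyp g w)) (hF.grInv.comp_hyp g) Q⁻¹
  have heq : ∀ γ : Λ, ∀ w ∈ Cone j,
      (fun w => Q⁻¹ * F (HM.hyp g w) * (Q⁻¹)ᴴ) (act (γ : SUGroup j) w) =
      dsum (t (χ γ γ.2)) (t (ψ γ γ.2) • rhoT (RingEquiv.refl ℂ) Λ γ) *
        (fun w => Q⁻¹ * F (HM.hyp g w) * (Q⁻¹)ᴴ) w *
        (dsum (t (χ γ γ.2)) (t (ψ γ γ.2) • rhoT (RingEquiv.refl ℂ) Λ γ))ᴴ := by
    intro γ w hw
    have h1 := conj_tw (hX γ γ.2) t hE (hEt γ γ.2)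
    rw [← hQ] at h1
    have h3 : F (act (X γ γ.2) (HM.hyp g w)) =
        (X γ γ.2).toMatrix.map t * F (HM.hyp g w) * ((X γ γ.2).toMatrix.map t)ᴴ :=
      hFe ⟨X γ γ.2, hXG γ γ.2⟩ _ (hyp_mem g hw)
    rw [TW.act_hyp_of_frame (hX γ γ.2), hF.hom _ (hψ0 γ) _ (hyp_mem g (act_mem _ hw)), h1] at h3
    show Q⁻¹ * F (HM.hyp g (act (γ : SUGroup j) w)) * (Q⁻¹)ᴴ =
      dsum (t (χ γ γ.2)) (t (ψ γ γ.2) • (γ : SUGroup j).toMatrix) *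
        (Q⁻¹ * F (HM.hyp g w) * (Q⁻¹)ᴴ) *
        (dsum (t (χ γ γ.2)) (t (ψ γ γ.2) • (γ : SUGroup j).toMatrix))ᴴ
    rw [h3]
    exact ty_cancel hQu _ _
  obtain ⟨u, a, hu, ha, h⟩ := slice_char hj hR (rhoT (RingEquiv.refl ℂ) Λ)
    (span_rhoT _ _ (span_top hj _ hL)) harm_std pol_std_inv (equi_std Λ) hP hPp hPi
    (fun γ => t (χ γ γ.2)) (fun γ => t (ψ γ γ.2)) hdet heq
  refine ⟨u, a, ?_⟩
  rw [← hQ]
  refine ⟨hQu, ha, hu, fun w hw => ?_⟩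
  rw [← h w hw]
  have e1 : Q * Q⁻¹ = 1 := mul_nonsing_inv _ ((isUnit_iff_isUnit_det _).1 hQu)
  have e2 : (Q⁻¹)ᴴ * Qᴴ = 1 := by rw [← conjTranspose_mul, e1, conjTranspose_one]
  calc F (HM.hyp g w) = (Q * Q⁻¹) * F (HM.hyp g w) * ((Q⁻¹)ᴴ * Qᴴ) := by
        rw [e1, e2, Matrix.one_mul, Matrix.mul_one]
    _ = _ := by simp only [Matrix.mul_assoc]

theorem tyS_of_const {F : Vec (j + 1) → Mat (j + 2)} {g : SUGroup (j + 1)} {Q : Mat (j + 2)}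
    {u : Vec j → ℝ} {a : ℂ} (h : TyU F g Q u a) (hc : ∀ w ∈ Cone j, u w = u (base j)) :
    ∃ l a' : ℂ, TyS F g Q l a' := by
  refine ⟨((Real.exp ((j + 1) * u (base j)) : ℝ) : ℂ), a * ((Real.exp (-u (base j)) : ℝ) : ℂ),
    h.unit, ?_, mul_pos h.ha ?_, fun w hw => ?_⟩
  · exact_mod_cast Real.exp_pos _
  · exact_mod_cast Real.exp_pos _
  · rw [h.slice w hw, ublk, hc w hw]

/-- The conjugates of the scalars have absolute value one (compare the last part of `TW.slice_data_tw`). -/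
theorem norm_of_tyS {F : Vec (j + 1) → Mat (j + 2)} (hF : Homog F) {g x : SUGroup (j + 1)}
    {Q : Mat (j + 2)} {l a : ℂ} (h : TyS F g Q l a) {t : ℂ ≃+* ℂ} {y : SUGroup j}
    {χ ψ χ' ψ' : ℂ} (hx : (g⁻¹ * x * g).toMatrix = dsum χ (ψ • y.toMatrix))
    (hx' : x.toMatrix.map t = Q * dsum χ' (ψ' • y.toMatrix) * Q⁻¹)
    (he : ∀ v ∈ Cone (j + 1), F (act x v) = x.toMatrix.map t * F v * (x.toMatrix.map t)ᴴ) :
    ‖χ'‖ = 1 ∧ ‖ψ'‖ = 1 := by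
  have hb := base_mem j
  have hψ0 : ψ ≠ 0 := by
    intro h0
    have h2 := (TW.TwEl.scalars hx).2.1
    rw [h0, mul_zero] at h2
    exact zero_ne_one h2
  have h3 := he _ (hyp_mem g hb)
  rw [TW.act_hyp_of_frame hx, hF ψ hψ0 _ (hyp_mem g (act_mem y hb)), h.slice _ (act_mem y hb),
    h.slice _ hb, hx', std_act] at h3
  have h4 := congrArg (fun M => Q⁻¹ * M * (Q⁻¹)ᴴ) h3
  rw [ty_cancel h.unit] at h4
  have e1 : Q⁻¹ * Q = 1 := nonsing_inv_mul _ ((isUnit_iff_isUnit_det _).1 h.unit)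
  have e2 : Qᴴ * (Q⁻¹)ᴴ = 1 := by rw [← conjTranspose_mul, e1, conjTranspose_one]
  have h5 : ∀ M : Mat (j + 2), Q⁻¹ * (Q * M * Qᴴ) * (Q⁻¹)ᴴ = M := by
    intro M
    calc Q⁻¹ * (Q * M * Qᴴ) * (Q⁻¹)ᴴ = (Q⁻¹ * Q) * M * (Qᴴ * (Q⁻¹)ᴴ) := by
          simp only [Matrix.mul_assoc]
      _ = M := by rw [e1, e2, Matrix.one_mul, Matrix.mul_one]
  rw [h5, h5, dsum_conjTranspose, dsum_mul, dsum_mul] at h4
  obtain ⟨h6, h7⟩ := dsum_inj h4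
  have hl : l ≠ 0 := h.hl.ne'
  have ha : a ≠ 0 := h.ha.ne'
  have hn : ∀ z : ℂ, z * star z = 1 → ‖z‖ = 1 := by
    intro z hz
    have h8 : z * star z = ((‖z‖ ^ 2 : ℝ) : ℂ) := by
      rw [Complex.star_def, Complex.mul_conj, Complex.normSq_eq_norm_sq]
    rw [h8] at hz
    have h9 : ‖z‖ ^ 2 = 1 := by exact_mod_cast hz
    nlinarith [norm_nonneg z, sq_nonneg (‖z‖ - 1)]
  refine ⟨hn _ ?_, hn _ ?_⟩
  · apply mul_left_cancel₀ hl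
    rw [mul_one]
    conv_rhs => rw [h6]
    ring
  · -- compare one entry
    have hne : (y.toMatrix * std (base j) * y.toMatrixᴴ) ≠ 0 := by
      rw [← std_act]
      intro h0
      have h8 := (harm_std.pos _ (act_mem y hb)).det_pos
      rw [h0, det_zero] at h8
      exact lt_irrefl _ h8
    have h8 : a • (y.toMatrix * std (base j) * y.toMatrixᴴ) =
        (ψ' * star ψ' * a) • (y.toMatrix * std (base j) * y.toMatrixᴴ) := by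
      rw [h7, conjTranspose_smul]
      simp only [Matrix.smul_mul, Matrix.mul_smul, smul_smul]
      congr 1
      ring
    have h9 : (a - ψ' * star ψ' * a) • (y.toMatrix * std (base j) * y.toMatrixᴴ) = 0 := by
      rw [sub_smul, ← h8, sub_self]
    have h10 : a - ψ' * star ψ' * a = 0 := (smul_eq_zero.1 h9).resolve_right hne
    apply mul_right_cancel₀ ha
    linear_combination -h10

end Pool.Agent.Lib.MP_5d4057_al.CI
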